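import Mathlib

set_option autoImplicit false
set_option linter.unusedSectionVars false

/-! Simplices, realizations and gluing of maps simplex by simplex. -/

namespace H432Z

open Set Topology unitInterval

variable {V : Type} [DecidableEq V]

/-- The closed simplex on a finite set of vertices, in barycentric coordinates. -/
def Smp (s : Finset V) : Set (V → ℝ) :=
  {x | (∀ v, 0 ≤ x v) ∧ (∀ v, v ∉ s → x v = 0) ∧ ∑ v ∈ s, x v = 1}

/-- The realization of a family of simplices. -/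
def Rl (K : Set (Finset V)) : Set (V → ℝ) := {x | ∃ s ∈ K, x ∈ Smp s}

/-- Closed under faces. -/
def Down (K : Set (Finset V)) : Prop := ∀ s ∈ K, ∀ t, t ⊆ s → t ∈ K

/-- A vertex as a point. -/
def pt (v : V) : V → ℝ := fun w => if w = v then 1 else 0

/-- The segment between two points. -/
def seg (x y : V → ℝ) (t : ℝ) : V → ℝ := fun v => (1 - t) * x v + t * y v

@[simp] theorem seg_zero (x y : V → ℝ) : seg x y 0 = x := by funext v; simp [seg]
@[simp] theorem seg_one (x y : V → ℝ) : seg x y 1 = y := by funext v; simp [seg]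
@[simp] theorem seg_self (x : V → ℝ) (t : ℝ) : seg x x t = x := by funext v; simp only [seg]; ring
theorem seg_symm (x y : V → ℝ) (t : ℝ) : seg y x t = seg x y (1 - t) := by
  funext v; simp only [seg]; ring

@[fun_prop] theorem continuous_seg {X : Type} [TopologicalSpace X] {x y : X → V → ℝ} {t : X → ℝ}
    (hx : Continuous x) (hy : Continuous y) (ht : Continuous t) :
    Continuous fun a => seg (x a) (y a) (t a) := by
  unfold seg
  fun_prop

theorem isClosed_Smp (s : Finset V) : IsClosed (Smp s) := by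
  have h1 : Smp s = (⋂ v, {x : V → ℝ | 0 ≤ x v}) ∩ ((⋂ v, ⋂ (_ : v ∉ s), {x : V → ℝ | x v = 0}) ∩
      {x : V → ℝ | ∑ v ∈ s, x v = 1}) := by
    ext x; simp [Smp]
  rw [h1]
  refine (isClosed_iInter fun v => isClosed_le continuous_const (continuous_apply v)).inter
    ((isClosed_iInter fun v => isClosed_iInter fun _ =>
      isClosed_eq (continuous_apply v) continuous_const).inter (isClosed_eq ?_ continuous_const))
  fun_prop

theorem Smp_mono {s t : Finset V} (h : s ⊆ t) : Smp s ⊆ Smp t := by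
  rintro x ⟨h0, h1, h2⟩
  refine ⟨h0, fun v hv => h1 v fun hs => hv (h hs), ?_⟩
  rw [← h2]
  exact (Finset.sum_subset h fun v _ hv => h1 v hv).symm

theorem mem_Smp_of_zero {s t : Finset V} {x : V → ℝ} (hx : x ∈ Smp s) (h : ∀ v, v ∉ t → x v = 0) :
    x ∈ Smp t := by
  obtain ⟨h0, h1, h2⟩ := hx
  refine ⟨h0, h, ?_⟩
  rw [← h2]
  have e1 : ∑ v ∈ t, x v = ∑ v ∈ s ∪ t, x v :=
    Finset.sum_subset Finset.subset_union_right fun v _ hv => h v hv
  have e2 : ∑ v ∈ s, x v = ∑ v ∈ s ∪ t, x v :=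
    Finset.sum_subset Finset.subset_union_left fun v _ hv => h1 v hv
  rw [e1, e2]

theorem mem_Smp_inter {s t : Finset V} {x : V → ℝ} (hs : x ∈ Smp s) (ht : x ∈ Smp t) :
    x ∈ Smp (s ∩ t) := by
  refine mem_Smp_of_zero hs fun v hv => ?_
  rw [Finset.mem_inter, not_and_or] at hv
  exact hv.elim (hs.2.1 v) (ht.2.1 v)

theorem Smp_empty : Smp (∅ : Finset V) = ∅ := by
  ext x; simp [Smp]

theorem seg_mem {s : Finset V} {x y : V → ℝ} (hx : x ∈ Smp s) (hy : y ∈ Smp s) {t : ℝ}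
    (h0 : 0 ≤ t) (h1 : t ≤ 1) : seg x y t ∈ Smp s := by
  refine ⟨fun v => ?_, fun v hv => ?_, ?_⟩
  · exact add_nonneg (mul_nonneg (by linarith) (hx.1 v)) (mul_nonneg h0 (hy.1 v))
  · simp [seg, hx.2.1 v hv, hy.2.1 v hv]
  · simp only [seg, Finset.sum_add_distrib, ← Finset.mul_sum, hx.2.2, hy.2.2]; ring

theorem pt_mem {s : Finset V} {v : V} (hv : v ∈ s) : pt v ∈ Smp s := by
  refine ⟨fun w => ?_, fun w hw => ?_, ?_⟩
  · unfold pt; split_ifs <;> norm_num
  · unfold pt; rw [if_neg]; rintro rfl; exact hw hv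
  · simp [pt, hv]

theorem eq_pt {v : V} {x : V → ℝ} (hx : x ∈ Smp {v}) : x = pt v := by
  funext w
  unfold pt
  split_ifs with h
  · subst h; simpa using hx.2.2
  · exact hx.2.1 w (by simpa using h)

theorem le_one_of_mem {s : Finset V} {x : V → ℝ} (hx : x ∈ Smp s) (v : V) : x v ≤ 1 := by
  by_cases hv : v ∈ s
  · rw [← hx.2.2]; exact Finset.single_le_sum (fun w _ => hx.1 w) hv
  · rw [hx.2.1 v hv]; norm_num

theorem eq_seg {u v : V} (huv : u ≠ v) {x : V → ℝ} (hx : x ∈ Smp {u, v}) :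
    x = seg (pt u) (pt v) (x v) := by
  have h2 := hx.2.2
  rw [Finset.sum_pair huv] at h2
  funext w
  unfold seg pt
  by_cases h1 : w = u
  · subst h1; simp only [if_true, if_neg huv]; linarith
  · by_cases h3 : w = v
    · subst h3; simp [h1]
    · simp only [if_neg h1, if_neg h3]
      rw [hx.2.1 w (by simp [h1, h3])]; ring

theorem seg_pt_right {u v : V} (huv : u ≠ v) (t : ℝ) : seg (pt u) (pt v) t v = t := by
  simp [seg, pt, huv.symm]

theorem Smp_sub_Rl {K : Set (Finset V)} {s : Finset V} (hs : s ∈ K) : Smp s ⊆ Rl K :=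
  fun _ hx => ⟨s, hs, hx⟩

theorem Rl_mono {K L : Set (Finset V)} (h : K ⊆ L) : Rl K ⊆ Rl L :=
  fun _ ⟨s, hs, hx⟩ => ⟨s, h hs, hx⟩

theorem seg_pt_mem {u v : V} {t : ℝ} (h0 : 0 ≤ t) (h1 : t ≤ 1) :
    seg (pt u) (pt v) t ∈ Smp {u, v} :=
  seg_mem (pt_mem (by simp)) (pt_mem (by simp)) h0 h1

theorem continuousOn_Rl {Y : Type} [TopologicalSpace Y] {K : Set (Finset V)} (hK : K.Finite)
    {f : (V → ℝ) → Y} (h : ∀ s ∈ K, ContinuousOn f (Smp s)) : ContinuousOn f (Rl K) := by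
  have : Finite K := hK
  have e : Rl K = ⋃ s : K, Smp s.1 := by
    ext x; simp [Rl]
  rw [e]
  exact (locallyFinite_of_finite _).continuousOn_iUnion (fun s => isClosed_Smp _)
    fun s => h s.1 s.2

/-- General gluing over a finite family of closed sets. -/
theorem glue {X Y ι : Type} [TopologicalSpace X] [TopologicalSpace Y] (J : Set ι) (hJ : J.Finite)
    (S : ι → Set X) (hS : ∀ i ∈ J, IsClosed (S i)) (g : ι → X → Y) (g0 : X → Y)
    (hg : ∀ i ∈ J, ContinuousOn (g i) (S i))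
    (hc : ∀ i ∈ J, ∀ j ∈ J, ∀ x ∈ S i, x ∈ S j → g i x = g j x) :
    ∃ f : X → Y, ContinuousOn f {x | ∃ i ∈ J, x ∈ S i} ∧ ∀ i ∈ J, EqOn f (g i) (S i) := by
  classical
  let f : X → Y := fun x => if h : ∃ i ∈ J, x ∈ S i then g h.choose x else g0 x
  have hf : ∀ i ∈ J, EqOn f (g i) (S i) := by
    intro i hi x hx
    have h : ∃ i ∈ J, x ∈ S i := ⟨i, hi, hx⟩
    simp only [f, dif_pos h]
    exact hc _ h.choose_spec.1 i hi x h.choose_spec.2 hx
  refine ⟨f, ?_, hf⟩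
  have : Finite J := hJ
  have e : {x | ∃ i ∈ J, x ∈ S i} = ⋃ i : J, S i.1 := by
    ext x; simp
  rw [e]
  exact (locallyFinite_of_finite _).continuousOn_iUnion (fun i => hS _ i.2)
    fun i => (hg i.1 i.2).congr (hf i.1 i.2)

section Step

variable {Y : Type} [TopologicalSpace Y]

/-- Extension over simplices all of whose proper faces are old. -/
theorem step (K0 K : Set (Finset V)) (hfin : K.Finite) (h0 : K0 ⊆ K) (hd0 : Down K0)
    (hnew : ∀ ξ ∈ K, ξ ∉ K0 → ∀ ρ, ρ ⊂ ξ → ρ ∈ K0) (s0 : (V → ℝ) → Y)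
    (hs0 : ContinuousOn s0 (Rl K0)) (g : Finset V → (V → ℝ) → Y)
    (hg : ∀ ξ ∈ K, ξ ∉ K0 → ContinuousOn (g ξ) (Smp ξ) ∧ ∀ ρ, ρ ⊂ ξ → EqOn (g ξ) s0 (Smp ρ)) :
    ∃ s : (V → ℝ) → Y, ContinuousOn s (Rl K) ∧ EqOn s s0 (Rl K0) ∧
      ∀ ξ ∈ K, ξ ∉ K0 → EqOn s (g ξ) (Smp ξ) := by
  classical
  let G : Finset V → (V → ℝ) → Y := fun ξ => if ξ ∈ K0 then s0 else g ξ
  have key : ∀ ξ ∈ K, ∀ τ ∈ K, ξ ≠ τ → ∀ x ∈ Smp ξ, x ∈ Smp τ → G ξ x = s0 x := by
    intro ξ hξ τ hτ hne x hx hx'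
    by_cases h1 : ξ ∈ K0
    · simp only [G, if_pos h1]
    · simp only [G, if_neg h1]
      have h2 : ξ ∩ τ ⊂ ξ := by
        refine Finset.ssubset_iff_subset_ne.2 ⟨Finset.inter_subset_left, fun h => h1 ?_⟩
        have h3 : ξ ⊆ τ := h ▸ Finset.inter_subset_right
        by_cases h4 : τ ∈ K0
        · exact hd0 τ h4 ξ h3
        · exact hnew τ hτ h4 ξ (Finset.ssubset_iff_subset_ne.2 ⟨h3, hne⟩)
      exact (hg ξ hξ h1).2 _ h2 (mem_Smp_inter hx hx')
  obtain ⟨s, hs, hs'⟩ := glue K hfin Smp (fun ξ _ => isClosed_Smp ξ) G s0 (by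
      intro ξ hξ
      by_cases h1 : ξ ∈ K0
      · simp only [G, if_pos h1]; exact hs0.mono (Smp_sub_Rl h1)
      · simp only [G, if_neg h1]; exact (hg ξ hξ h1).1) (by
      intro ξ hξ τ hτ x hx hx'
      by_cases hne : ξ = τ
      · rw [hne]
      · rw [key ξ hξ τ hτ hne x hx hx', key τ hτ ξ hξ (Ne.symm hne) x hx' hx])
  refine ⟨s, hs, ?_, ?_⟩
  · rintro x ⟨ξ, hξ, hx⟩
    have := hs' ξ (h0 hξ) hx
    simpa only [G, if_pos hξ] using this
  · intro ξ hξ h1 x hx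
    have := hs' ξ hξ hx
    simpa only [G, if_neg h1] using this

/-- The old complex together with the simplices with at most `n` vertices. -/
def Sk (K0 K : Set (Finset V)) (n : ℕ) : Set (Finset V) := {ξ | ξ ∈ K0 ∨ (ξ ∈ K ∧ ξ.card ≤ n)}

theorem Sk_sub {K0 K : Set (Finset V)} (h0 : K0 ⊆ K) (n : ℕ) : Sk K0 K n ⊆ K :=
  fun _ h => h.elim (fun h => h0 h) fun h => h.1

theorem sub_Sk {K0 K : Set (Finset V)} (n : ℕ) : K0 ⊆ Sk K0 K n := fun _ h => Or.inl h

theorem Sk_succ {K0 K : Set (Finset V)} (n : ℕ) : Sk K0 K n ⊆ Sk K0 K (n + 1) :=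
  fun _ h => h.elim Or.inl fun h => Or.inr ⟨h.1, by have := h.2; omega⟩

theorem Down_Sk {K0 K : Set (Finset V)} (hd0 : Down K0) (hd : Down K) (n : ℕ) :
    Down (Sk K0 K n) := by
  rintro s (hs | hs) t ht
  · exact Or.inl (hd0 s hs t ht)
  · exact Or.inr ⟨hd s hs.1 t ht, (Finset.card_le_card ht).trans hs.2⟩

theorem Sk_new {K0 K : Set (Finset V)} {n : ℕ} {ξ : Finset V} (h : ξ ∈ Sk K0 K (n + 1))
    (h' : ξ ∉ Sk K0 K n) : ξ ∈ K ∧ ξ ∉ K0 ∧ ξ.card = n + 1 := by
  rcases h with h | h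
  · exact absurd (Or.inl h) h'
  · refine ⟨h.1, fun h0 => h' (Or.inl h0), ?_⟩
    by_contra hc
    exact h' (Or.inr ⟨h.1, by have := h.2; omega⟩)

theorem Sk_face {K0 K : Set (Finset V)} (hd : Down K) {n : ℕ} {ξ : Finset V}
    (h : ξ ∈ Sk K0 K (n + 1)) (h' : ξ ∉ Sk K0 K n) (ρ : Finset V) (hρ : ρ ⊂ ξ) : ρ ∈ Sk K0 K n := by
  obtain ⟨h1, -, h3⟩ := Sk_new h h'
  refine Or.inr ⟨hd ξ h1 ρ hρ.subset, ?_⟩
  have := Finset.card_lt_card hρ
  omega

theorem Rl_Sk_zero {K0 K : Set (Finset V)} : Rl (Sk K0 K 0) = Rl K0 := by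
  refine Subset.antisymm ?_ (Rl_mono (sub_Sk 0))
  rintro x ⟨ξ, hξ | hξ, hx⟩
  · exact ⟨ξ, hξ, hx⟩
  · have : ξ = ∅ := Finset.card_eq_zero.1 (by have := hξ.2; omega)
    rw [this, Smp_empty] at hx
    exact hx.elim

/-- Extension over the vertices. -/
theorem ext_vert (K0 K : Set (Finset V)) (hfin : K.Finite) (h0 : K0 ⊆ K) (hd0 : Down K0)
    (hd : Down K) (s0 : (V → ℝ) → Y) (hs0 : ContinuousOn s0 (Rl K0)) (e : V → Y) :
    ∃ s : (V → ℝ) → Y, ContinuousOn s (Rl (Sk K0 K 1)) ∧ EqOn s s0 (Rl K0) ∧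
      ∀ v, {v} ∈ K → {v} ∉ K0 → s (pt v) = e v := by
  classical
  let g : Finset V → (V → ℝ) → Y := fun ξ x => if h : ξ.Nonempty then e h.choose else s0 x
  obtain ⟨s, h1, h2, h3⟩ := step (Sk K0 K 0) (Sk K0 K 1) (hfin.subset (Sk_sub h0 1)) (Sk_succ 0)
    (Down_Sk hd0 hd 0) (fun ξ h h' => Sk_face hd h h') s0 (by rw [Rl_Sk_zero]; exact hs0) g (by
      intro ξ h h'
      obtain ⟨-, -, h3⟩ := Sk_new h h'
      have hne : ξ.Nonempty := Finset.card_pos.1 (by omega)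
      refine ⟨?_, fun ρ hρ => ?_⟩
      · simp only [g, dif_pos hne]; exact continuousOn_const
      · have : ρ = ∅ := Finset.card_eq_zero.1 (by have := Finset.card_lt_card hρ; omega)
        rw [this, Smp_empty]
        exact fun x hx => hx.elim)
  refine ⟨s, h1, by rw [← Rl_Sk_zero (K := K)]; exact h2, fun v hv hv0 => ?_⟩
  have := h3 {v} (Or.inr ⟨hv, by simp⟩) (by rintro (h | h); exact hv0 h; simpa using h.2)
    (pt_mem (Finset.mem_singleton_self v))
  rw [this]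
  have hne : ({v} : Finset V).Nonempty := Finset.singleton_nonempty v
  simp only [g, dif_pos hne]
  congr 1
  exact Finset.mem_singleton.1 hne.choose_spec

/-- Projection to the unit interval. -/
noncomputable def pj (t : ℝ) : I := projIcc 0 1 zero_le_one t

@[fun_prop] theorem continuous_pj : Continuous pj := continuous_projIcc (h := zero_le_one)

@[simp] theorem pj_coe (t : I) : pj t = t := projIcc_val zero_le_one t
theorem pj_of_le {t : ℝ} (h : t ≤ 0) : pj t = 0 := projIcc_of_le_left _ h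
theorem pj_of_ge {t : ℝ} (h : 1 ≤ t) : pj t = 1 := projIcc_of_right_le _ h
@[simp] theorem pj_zero : pj 0 = 0 := pj_of_le le_rfl
@[simp] theorem pj_one : pj 1 = 1 := pj_of_ge le_rfl
theorem coe_pj {t : ℝ} (h0 : 0 ≤ t) (h1 : t ≤ 1) : (pj t : ℝ) = t := by
  unfold pj; rw [projIcc_of_mem _ ⟨h0, h1⟩]
theorem coe_pj' (t : ℝ) : (pj t : ℝ) = max 0 (min 1 t) := rfl

/-- Extension over the edges. -/
theorem ext_edge (K0 K : Set (Finset V)) (hfin : K.Finite) (h0 : K0 ⊆ K) (hd0 : Down K0)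
    (hd : Down K) (s0 : (V → ℝ) → Y) (hs0 : ContinuousOn s0 (Rl (Sk K0 K 1)))
    (R : V → V → (I → Y) → Prop) (hR : ∀ u v a, R u v a → R v u fun t => a (σ t))
    (hex : ∀ u v, u ≠ v → {u, v} ∈ K → {u, v} ∉ K0 →
      ∃ a : I → Y, Continuous a ∧ a 0 = s0 (pt u) ∧ a 1 = s0 (pt v) ∧ R u v a) :
    ∃ s : (V → ℝ) → Y, ContinuousOn s (Rl (Sk K0 K 2)) ∧ EqOn s s0 (Rl (Sk K0 K 1)) ∧
      ∀ u v, u ≠ v → {u, v} ∈ K → {u, v} ∉ K0 → R u v fun t => s (seg (pt u) (pt v) t) := by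
  classical
  have hch : ∀ τ : Finset V, ∃ g : (V → ℝ) → Y, τ ∈ Sk K0 K 2 → τ ∉ Sk K0 K 1 →
      ∃ (u v : V) (a : I → Y), u ≠ v ∧ τ = {u, v} ∧ Continuous a ∧ a 0 = s0 (pt u) ∧
        a 1 = s0 (pt v) ∧ R u v a ∧ g = fun x => a (pj (x v)) := by
    intro τ
    by_cases h : τ ∈ Sk K0 K 2 ∧ τ ∉ Sk K0 K 1
    · obtain ⟨h1, h2, h3⟩ := Sk_new h.1 h.2
      obtain ⟨u, v, huv, rfl⟩ := Finset.card_eq_two.1 h3
      obtain ⟨a, ha⟩ := hex u v huv h1 h2
      exact ⟨fun x => a (pj (x v)), fun _ _ =>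
        ⟨u, v, a, huv, rfl, ha.1, ha.2.1, ha.2.2.1, ha.2.2.2, rfl⟩⟩
    · exact ⟨s0, fun h1 h2 => absurd ⟨h1, h2⟩ h⟩
  choose g hg using hch
  obtain ⟨s, h1, h2, h3⟩ := step (Sk K0 K 1) (Sk K0 K 2) (hfin.subset (Sk_sub h0 2)) (Sk_succ 1)
    (Down_Sk hd0 hd 1) (fun ξ h h' => Sk_face hd h h') s0 hs0 g (by
      intro ξ h h'
      obtain ⟨u, v, a, huv, rfl, ha, ha0, ha1, -, hga⟩ := hg ξ h h'
      rw [hga]
      refine ⟨Continuous.continuousOn (by fun_prop), fun ρ hρ x hx => ?_⟩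
      have hc : ρ.card ≤ 1 := by
        have := Finset.card_lt_card hρ
        rw [Finset.card_pair huv] at this
        omega
      have : Nonempty V := ⟨u⟩
      rcases Finset.card_le_one_iff_subset_singleton.1 hc with ⟨w, hw⟩
      have hxw : x = pt w := eq_pt (Smp_mono hw hx)
      have hwρ : w ∈ ρ := by
        by_contra hn
        have := hx.2.1 w hn
        rw [hxw] at this
        simp [pt] at this
      have := hρ.subset hwρ
      simp only [Finset.mem_insert, Finset.mem_singleton] at this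
      rcases this with rfl | rfl
      · simp only [hxw, pt, if_neg huv.symm, pj_zero]; exact ha0
      · simp only [hxw, pt, if_true, pj_one]; exact ha1)
  refine ⟨s, h1, h2, fun u v huv hK hK0 => ?_⟩
  have m2 : ({u, v} : Finset V) ∈ Sk K0 K 2 := Or.inr ⟨hK, by rw [Finset.card_pair huv]⟩
  have m1 : ({u, v} : Finset V) ∉ Sk K0 K 1 := by
    rintro (h | h)
    · exact hK0 h
    · have := h.2; rw [Finset.card_pair huv] at this; omega
  obtain ⟨u', v', a, huv', he, -, -, -, hRa, hga⟩ := hg _ m2 m1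
  have hs : ∀ t : I, s (seg (pt u) (pt v) t) = a (pj (seg (pt u) (pt v) t v')) := by
    intro t
    rw [h3 _ m2 m1 (seg_pt_mem t.2.1 t.2.2), hga]
  have hv' : v' ∈ ({u, v} : Finset V) := by rw [he]; simp
  have hu' : u' ∈ ({u, v} : Finset V) := by rw [he]; simp
  simp only [Finset.mem_insert, Finset.mem_singleton] at hv' hu'
  rcases hv' with rfl | rfl
  · have : u' = v := hu'.resolve_left huv'
    subst this
    have h5 := hR _ _ _ hRa
    convert h5 using 2 with t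
    rw [hs, seg_symm, seg_pt_right huv']
    exact congrArg a (pj_coe (σ t))
  · have : u' = u := hu'.resolve_right huv'
    subst this
    convert hRa using 2 with t
    rw [hs, seg_pt_right huv, pj_coe]

/-- The model triangle. -/
def Tri : Set (ℝ × ℝ) := {p | 0 ≤ p.1 ∧ 0 ≤ p.2 ∧ p.1 + p.2 ≤ 1}

/-- Extension over the triangles. -/
theorem ext_tri (K0 K : Set (Finset V)) (hfin : K.Finite) (h0 : K0 ⊆ K) (hd0 : Down K0)
    (hd : Down K) (s0 : (V → ℝ) → Y) (hs0 : ContinuousOn s0 (Rl (Sk K0 K 2)))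
    (Car : Finset V → Set Y)
    (hex : ∀ ξ ∈ K, ξ ∉ K0 → ξ.card = 3 → ∃ u v w, ξ = {u, v, w} ∧ ∃ G : ℝ × ℝ → Y,
      ContinuousOn G Tri ∧ MapsTo G Tri (Car ξ) ∧ ∀ t : I, G (t, 0) = s0 (seg (pt u) (pt v) t) ∧
        G (1 - t, t) = s0 (seg (pt v) (pt w) t) ∧ G (0, t) = s0 (seg (pt u) (pt w) t)) :
    ∃ s : (V → ℝ) → Y, ContinuousOn s (Rl (Sk K0 K 3)) ∧ EqOn s s0 (Rl (Sk K0 K 2)) ∧
      ∀ ξ ∈ K, ξ ∉ K0 → ξ.card = 3 → MapsTo s (Smp ξ) (Car ξ) := by
  classical
  have hch : ∀ τ : Finset V, ∃ g : (V → ℝ) → Y, τ ∈ Sk K0 K 3 → τ ∉ Sk K0 K 2 →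
      (ContinuousOn g (Smp τ) ∧ ∀ ρ, ρ ⊂ τ → EqOn g s0 (Smp ρ)) ∧ MapsTo g (Smp τ) (Car τ) := by
    intro τ
    by_cases h : τ ∈ Sk K0 K 3 ∧ τ ∉ Sk K0 K 2
    · obtain ⟨h1, h2, h3⟩ := Sk_new h.1 h.2
      obtain ⟨u, v, w, rfl, G, hG, hG', hG''⟩ := hex τ h1 h2 h3
      have huv : u ≠ v := by
        rintro rfl
        have := Finset.card_le_two (a := u) (b := w)
        simp only [Finset.mem_insert, true_or, Finset.insert_eq_of_mem] at h3
        omega
      have huw : u ≠ w := by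
        rintro rfl
        have := Finset.card_le_two (a := v) (b := u)
        rw [Finset.insert_eq_of_mem (by simp)] at h3
        omega
      have hvw : v ≠ w := by
        rintro rfl
        have := Finset.card_le_two (a := u) (b := v)
        rw [Finset.pair_eq_singleton] at h3
        omega
      have hsum : ∀ x ∈ Smp ({u, v, w} : Finset V), x u + x v + x w = 1 := by
        intro x hx
        have := hx.2.2
        rw [Finset.sum_insert (by simp [huv, huw]), Finset.sum_pair hvw] at this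
        linarith
      have hT : MapsTo (fun x : V → ℝ => (x v, x w)) (Smp {u, v, w}) Tri := by
        intro x hx
        have := hsum x hx
        exact ⟨hx.1 v, hx.1 w, by have := hx.1 u; simp only; linarith⟩
      refine ⟨fun x => G (x v, x w), fun _ _ => ⟨⟨hG.comp (Continuous.continuousOn (by fun_prop)) hT,
        fun ρ hρ x hx => ?_⟩, hG'.comp hT⟩⟩
      have hx' := Smp_mono hρ.subset hx
      obtain ⟨z, hz, hzρ⟩ := Finset.exists_of_ssubset hρ
      have hz0 : x z = 0 := hx.2.1 z hzρ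
      have hs := hsum x hx'
      simp only [Finset.mem_insert, Finset.mem_singleton] at hz
      rcases hz with rfl | rfl | rfl
      · have hm : x ∈ Smp ({v, w} : Finset V) := mem_Smp_of_zero hx' fun a ha => by
          by_cases h5 : a = z
          · rw [h5, hz0]
          · exact hx'.2.1 a (by simp only [Finset.mem_insert, Finset.mem_singleton] at ha ⊢; tauto)
        have e := (hG'' ⟨x w, hx.1 w, le_one_of_mem hx w⟩).2.1
        simp only at e ⊢
        rw [← eq_seg hvw hm] at e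
        rw [← e]; congr 2; linarith
      · have hm : x ∈ Smp ({u, w} : Finset V) := mem_Smp_of_zero hx' fun a ha => by
          by_cases h5 : a = z
          · rw [h5, hz0]
          · exact hx'.2.1 a (by simp only [Finset.mem_insert, Finset.mem_singleton] at ha ⊢; tauto)
        have e := (hG'' ⟨x w, hx.1 w, le_one_of_mem hx w⟩).2.2
        simp only at e ⊢
        rw [← eq_seg huw hm] at e
        rw [← e, hz0]
      · have hm : x ∈ Smp ({u, v} : Finset V) := mem_Smp_of_zero hx' fun a ha => by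
          by_cases h5 : a = z
          · rw [h5, hz0]
          · exact hx'.2.1 a (by simp only [Finset.mem_insert, Finset.mem_singleton] at ha ⊢; tauto)
        have e := (hG'' ⟨x v, hx.1 v, le_one_of_mem hx v⟩).1
        simp only at e ⊢
        rw [← eq_seg huv hm] at e
        rw [← e, hz0]
    · exact ⟨s0, fun h1 h2 => absurd ⟨h1, h2⟩ h⟩
  choose g hg using hch
  obtain ⟨s, h1, h2, h3⟩ := step (Sk K0 K 2) (Sk K0 K 3) (hfin.subset (Sk_sub h0 3)) (Sk_succ 2)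
    (Down_Sk hd0 hd 2) (fun ξ h h' => Sk_face hd h h') s0 hs0 g (fun ξ h h' => (hg ξ h h').1)
  refine ⟨s, h1, h2, fun ξ hξ hξ0 hc x hx => ?_⟩
  have m3 : ξ ∈ Sk K0 K 3 := Or.inr ⟨hξ, hc.le⟩
  have m2 : ξ ∉ Sk K0 K 2 := by
    rintro (h | h)
    · exact hξ0 h
    · have := h.2; omega
  rw [h3 ξ m3 m2 hx]
  exact (hg ξ m3 m2).2 hx

end Step

end H432Z
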