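import Mathlib

set_option autoImplicit false

/-! A branch group with an automorphism that is not induced by the tree. -/

namespace H432Z.Branch

open Equiv

/-- Vertices of the binary tree. -/
abbrev V : Type := {l : List ℕ // ∀ i (h : i < l.length), l.get ⟨i, h⟩ < (fun _ : ℕ => 2) i}

theorem mem_iff (l : List ℕ) :
    (∀ i (h : i < l.length), l.get ⟨i, h⟩ < (fun _ : ℕ => 2) i) ↔ ∀ x ∈ l, x < 2 := by
  simp only [List.get_eq_getElem]
  exact (List.forall_mem_iff_forall_getElem (P := fun x => x < 2)).symm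

/-- Truncation. -/
def tk (k : ℕ) (v : V) : V :=
  ⟨v.1.take k, (mem_iff _).2 fun x hx => (mem_iff _).1 v.2 x (List.mem_of_mem_take hx)⟩

/-- Tree automorphisms. -/
def TA (g : Perm V) : Prop := (∀ v, (g v).1.length = v.1.length) ∧ ∀ k v, g (tk k v) = tk k (g v)

theorem tk_of_prefix {v w : V} (h : v.1 <+: w.1) : tk v.1.length w = v :=
  Subtype.ext (List.prefix_iff_eq_take.1 h).symm

theorem TA.pre {g : Perm V} (h : TA g) (v w : V) : v.1 <+: w.1 ↔ (g v).1 <+: (g w).1 := by
  constructor
  · intro hp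
    rw [← tk_of_prefix hp, h.2]
    exact List.take_prefix _ _
  · intro hp
    have := tk_of_prefix hp
    rw [← h.2, g.injective.eq_iff] at this
    rw [← this]
    exact List.take_prefix _ _

theorem TA.one : TA 1 := ⟨fun _ => rfl, fun _ _ => rfl⟩

theorem TA.mul {g h : Perm V} (hg : TA g) (hh : TA h) : TA (g * h) :=
  ⟨fun v => by rw [Perm.mul_apply, hg.1, hh.1],
    fun k v => by rw [Perm.mul_apply, Perm.mul_apply, hh.2, hg.2]⟩

theorem TA.inv {g : Perm V} (hg : TA g) : TA g⁻¹ :=
  ⟨fun v => by rw [← hg.1]; simp, fun k v => g.injective (by rw [hg.2]; simp)⟩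

/-- Vertices of level one. -/
def v1 (x : Bool) : V := ⟨[x.toNat], (mem_iff _).2 (by cases x <;> simp)⟩

/-- Vertices of level two. -/
def v2 (x y : Bool) : V := ⟨[x.toNat, y.toNat], (mem_iff _).2 (by cases x <;> cases y <;> simp)⟩

theorem ex_bool {x : ℕ} (h : x < 2) : ∃ b : Bool, x = b.toNat := by
  interval_cases x
  · exact ⟨false, rfl⟩
  · exact ⟨true, rfl⟩

theorem eq_v1 {v : V} (h : v.1.length = 1) : ∃ x, v = v1 x := by
  obtain ⟨l, hl⟩ := v
  obtain ⟨x, rfl⟩ := List.length_eq_one_iff.1 h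
  obtain ⟨b, rfl⟩ := ex_bool ((mem_iff _).1 hl x (by simp))
  exact ⟨b, rfl⟩

theorem eq_v2 {v : V} (h : v.1.length = 2) : ∃ x y, v = v2 x y := by
  obtain ⟨l, hl⟩ := v
  obtain ⟨x, y, rfl⟩ := List.length_eq_two.1 h
  obtain ⟨b, rfl⟩ := ex_bool ((mem_iff _).1 hl x (by simp))
  obtain ⟨c, rfl⟩ := ex_bool ((mem_iff _).1 hl y (by simp))
  exact ⟨b, c, rfl⟩

/-- The branch group. -/
def L : Subgroup (Perm V) where
  carrier := {g | TA g ∧ ∃ c d : Bool, ∀ x y, g (v2 x y) = v2 (xor x c) (xor y d)}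
  one_mem' := ⟨TA.one, false, false, by simp⟩
  mul_mem' := by
    rintro g h ⟨g1, c, d, g2⟩ ⟨h1, c', d', h2⟩
    exact ⟨g1.mul h1, xor c' c, xor d' d, fun x y => by simp [g2, h2]⟩
  inv_mem' := by
    rintro g ⟨g1, c, d, g2⟩
    exact ⟨g1.inv, c, d, fun x y => g.injective (by simp [g2])⟩

/-- Swapping the first two letters. -/
def swL : List ℕ → List ℕ
  | x :: y :: l => y :: x :: l
  | l => l

theorem swL_swL (l : List ℕ) : swL (swL l) = l := by
  rcases l with _ | ⟨x, _ | ⟨y, l⟩⟩ <;> rfl

theorem swL_length (l : List ℕ) : (swL l).length = l.length := by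
  rcases l with _ | ⟨x, _ | ⟨y, l⟩⟩ <;> rfl

/-- Swapping the first two letters of a vertex. -/
def swF (v : V) : V := ⟨swL v.1, (mem_iff _).2 fun x hx => (mem_iff _).1 v.2 x (by
  obtain ⟨l, hl⟩ := v
  rcases l with _ | ⟨x, _ | ⟨y, l⟩⟩
  · exact hx
  · exact hx
  · simp only [swL, List.mem_cons] at hx ⊢
    tauto)⟩

/-- The swap as a permutation. -/
def sw : Perm V := Function.Involutive.toPerm swF fun v => Subtype.ext (swL_swL v.1)

theorem sw_sw (v : V) : sw (sw v) = v := Subtype.ext (swL_swL v.1)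
theorem sw_length (v : V) : (sw v).1.length = v.1.length := swL_length v.1
theorem sw_v2 (x y : Bool) : sw (v2 x y) = v2 y x := rfl
theorem sw_v1 (x : Bool) : sw (v1 x) = v1 x := rfl

theorem sw_tk {k : ℕ} (hk : 2 ≤ k) (v : V) : sw (tk k v) = tk k (sw v) := by
  obtain ⟨k, rfl⟩ := Nat.exists_eq_add_of_le' hk
  obtain ⟨l, hl⟩ := v
  apply Subtype.ext
  rcases l with _ | ⟨x, _ | ⟨y, l⟩⟩ <;> rfl

theorem tk_tk (j k : ℕ) (v : V) : tk j (tk k v) = tk (min j k) v := Subtype.ext List.take_take

theorem tk_length (k : ℕ) (v : V) : (tk k v).1.length = min k v.1.length := List.length_take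

theorem tk_of_le {k : ℕ} {v : V} (h : v.1.length ≤ k) : tk k v = v :=
  Subtype.ext (List.take_of_length_le h)

theorem eq_of_zero {v w : V} (hv : v.1.length = 0) (hw : w.1.length = 0) : v = w :=
  Subtype.ext ((List.length_eq_zero_iff.1 hv).trans (List.length_eq_zero_iff.1 hw).symm)

theorem exists_phi (g : L) : ∃ h : L, ∀ v : V, 2 ≤ v.1.length → h.1 v = sw (g.1 (sw v)) := by
  obtain ⟨g, g1, c, d, g2⟩ := g
  have g3 : ∀ x, g (v1 x) = v1 (xor x c) := fun x => by
    have := g1.2 1 (v2 x false)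
    rw [g2] at this
    exact this
  let f : Perm V := if c = d then 1 else swap (v1 false) (v1 true)
  have f1 : ∀ x, f (v1 x) = v1 (xor x (xor c d)) := by
    intro x
    cases x <;> cases c <;> cases d <;> simp [f]
  have f2 : ∀ v : V, v.1.length ≠ 1 → f v = v := by
    intro v hv
    simp only [f]
    split_ifs
    · rfl
    · refine swap_apply_of_ne_of_ne ?_ ?_ <;> rintro rfl <;> exact hv rfl
  have h1 : ∀ v : V, v.1.length ≠ 1 → (sw * g * sw * f) v = sw (g (sw v)) := fun v hv => by
    simp only [Perm.mul_apply, f2 v hv]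
  have h2 : ∀ x, (sw * g * sw * f) (v1 x) = v1 (xor x d) := fun x => by
    simp only [Perm.mul_apply, f1, sw_v1, g3]
    cases x <;> cases c <;> cases d <;> rfl
  have h3 : ∀ v : V, ((sw * g * sw * f) v).1.length = v.1.length := fun v => by
    by_cases hv : v.1.length = 1
    · obtain ⟨x, rfl⟩ := eq_v1 hv
      rw [h2]; rfl
    · rw [h1 v hv, sw_length, g1.1, sw_length]
  have h4 : ∀ x y, (sw * g * sw * f) (v2 x y) = v2 (xor x d) (xor y c) := fun x y => by
    rw [h1 _ (by simp [v2]), sw_v2, g2, sw_v2]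
  have h5 : ∀ k, 2 ≤ k → ∀ v : V, 2 ≤ v.1.length →
      (sw * g * sw * f) (tk k v) = tk k ((sw * g * sw * f) v) := fun k hk v hv => by
    rw [h1 _ (by rw [tk_length]; omega), h1 v (by omega), sw_tk hk, g1.2, sw_tk hk]
  refine ⟨⟨sw * g * sw * f, ⟨h3, fun k v => ?_⟩, d, c, h4⟩, fun v hv => h1 v (by omega)⟩
  by_cases hv : v.1.length ≤ k
  · rw [tk_of_le hv, tk_of_le (by rw [h3]; exact hv)]
  · rcases k with _ | _ | k
    · exact eq_of_zero (by rw [h3, tk_length]; simp) (by rw [tk_length]; simp)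
    · obtain ⟨x, y, e⟩ := eq_v2 (v := tk 2 v) (by rw [tk_length]; omega)
      have e1 : tk 1 v = v1 x := by
        have := tk_tk 1 2 v
        rw [e] at this
        exact this.symm
      have e2 := tk_tk 1 2 ((sw * g * sw * f) v)
      rw [← h5 2 le_rfl v (by omega), e, h4] at e2
      exact (e1 ▸ h2 x).trans e2
    · exact h5 _ (by omega) v (by omega)

theorem uniq {g h : L} (H : ∀ v : V, 2 ≤ v.1.length → g.1 v = h.1 v) : g = h := by
  ext1
  ext1 v
  let w : V := ⟨v.1 ++ [0, 0], (mem_iff _).2 fun x hx => by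
    rcases List.mem_append.1 hx with hx | hx
    · exact (mem_iff _).1 v.2 x hx
    · simp only [List.mem_cons, List.not_mem_nil, or_false, or_self] at hx
      omega⟩
  have e : tk v.1.length w = v := tk_of_prefix (List.prefix_append _ _)
  rw [← e, g.2.1.2, h.2.1.2, H w (by simp [w])]

theorem exists_aut : ∃ φ : L ≃* L, ∀ g : L, ∀ v : V, 2 ≤ v.1.length →
    (φ g).1 v = sw (g.1 (sw v)) := by
  choose φ hφ using exists_phi
  have h1 : Function.Involutive φ := fun g => uniq fun v hv => by
    rw [hφ _ v hv, hφ _ _ (by rwa [sw_length]), sw_sw, sw_sw]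
  refine ⟨⟨h1.toPerm, fun g h => uniq fun v hv => ?_⟩, hφ⟩
  change (φ (g * h)).1 v = (φ g).1 ((φ h).1 v)
  rw [hφ _ v hv, hφ h v hv, hφ g _ (by rwa [sw_length, h.2.1.1, sw_length]), sw_sw]
  rfl

/-- Translation of the letters. -/
def trL (c : ℕ → Bool) (l : List ℕ) : List ℕ := l.mapIdx fun i x => if c i then 1 - x else x

/-- Translation of a vertex. -/
def trF (c : ℕ → Bool) (v : V) : V := ⟨trL c v.1, fun i h => by
  have h' : i < v.1.length := by simpa [trL] using h
  have := v.2 i h'
  simp only [trL, List.get_eq_getElem, List.getElem_mapIdx] at this ⊢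
  split_ifs <;> omega⟩

/-- Translation as a permutation. -/
def tr (c : ℕ → Bool) : Perm V := Function.Involutive.toPerm (trF c) fun v => by
  apply Subtype.ext
  refine List.ext_getElem (by simp [trF, trL]) fun i h1 h2 => ?_
  have := v.2 i h2
  simp only [trF, trL, List.get_eq_getElem, List.getElem_mapIdx] at this ⊢
  split_ifs <;> omega

theorem tr_val (c : ℕ → Bool) (v : V) : (tr c v).1 = trL c v.1 := rfl

theorem tr_v2 (c : ℕ → Bool) (x y : Bool) : tr c (v2 x y) = v2 (xor x (c 0)) (xor y (c 1)) := by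
  apply Subtype.ext
  simp only [tr_val, trL, v2, List.mapIdx_cons, List.mapIdx_nil, zero_add]
  cases x <;> cases y <;> cases c 0 <;> cases c 1 <;> rfl

theorem tr_mem (c : ℕ → Bool) : tr c ∈ L := by
  refine ⟨⟨fun v => by simp [tr_val, trL], fun k v => Subtype.ext ?_⟩, c 0, c 1, tr_v2 c⟩
  refine List.ext_getElem (by simp [tr_val, trL, tk]) fun i h1 h2 => ?_
  simp [tr_val, trL, tk]

theorem transitive (v w : V) (h : v.1.length = w.1.length) : ∃ g ∈ L, g v = w := by
  refine ⟨tr fun i => decide (v.1[i]? ≠ w.1[i]?), tr_mem _, Subtype.ext ?_⟩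
  refine List.ext_getElem (by simp [tr_val, trL, h]) fun i h1 h2 => ?_
  have h3 : i < v.1.length := h ▸ h2
  have a := v.2 i h3
  have b := w.2 i h2
  simp only [tr_val, trL, List.get_eq_getElem, List.getElem_mapIdx, List.getElem?_eq_getElem h3,
    List.getElem?_eq_getElem h2, ne_eq, Option.some.injEq, decide_eq_true_eq] at a b ⊢
  split_ifs <;> omega

theorem finite_level (N : ℕ) : {v : V | v.1.length ≤ N}.Finite := by
  have h := List.finite_length_le Bool N
  refine Set.Finite.of_finite_image (f := fun v : V => v.1.map fun x => decide (x = 1))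
    (h.subset ?_) ?_
  · rintro _ ⟨v, hv, rfl⟩
    simpa using hv
  · intro v _ w _ e
    apply Subtype.ext
    have e1 : v.1.length = w.1.length := by simpa using congrArg List.length e
    refine List.ext_getElem e1 fun i h1 h2 => ?_
    have a := v.2 i h1
    have b := w.2 i h2
    have e2 := congrArg (fun l => l[i]?) e
    simp only [List.get_eq_getElem, List.getElem?_map, List.getElem?_eq_getElem h1,
      List.getElem?_eq_getElem h2, Option.map_some, Option.some.injEq, decide_eq_decide] at a b e2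
    omega

theorem stab_mem (n : ℕ) (S : Finset V) (hS : ∀ u ∈ S, u.1.length = n + 2) (g : Perm V)
    (hg : TA g) (h1 : ∀ v : V, v.1.length ≤ n + 2 → g v = v)
    (h2 : ∀ v : V, tk (n + 2) v ∉ S → g v = v) :
    g ∈ Subgroup.closure {g : Perm V | g ∈ L ∧ ∃ u : V, u.1.length = n ∧
      ∀ v : V, ¬ u.1 <+: v.1 → g v = v} := by
  classical
  induction S using Finset.induction_on generalizing g with
  | empty =>
    rw [show g = 1 from Equiv.ext fun v => h2 v (by simp)]
    exact one_mem _
  | insert u S hu ih =>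
    have hl := hS u (by simp)
    have e0 : ∀ v, tk (n + 2) (g v) = tk (n + 2) v := fun v => by
      rw [← hg.2, h1 _ (by rw [tk_length]; omega)]
    let k : Perm V := Perm.ofSubtype (g.subtypePerm (p := fun v => tk (n + 2) v = u)
      fun v => by rw [e0])
    have k1 : ∀ v, tk (n + 2) v = u → k v = g v := fun v hv =>
      Perm.ofSubtype_subtypePerm_of_mem _ hv
    have k2 : ∀ v, tk (n + 2) v ≠ u → k v = v := fun v hv =>
      Perm.ofSubtype_apply_of_not_mem _ hv
    have k3 : ∀ v : V, v.1.length ≤ n + 2 → k v = v := fun v hv => by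
      by_cases h : tk (n + 2) v = u
      · rw [k1 v h, h1 v hv]
      · exact k2 v h
    have k4 : TA k := by
      refine ⟨fun v => ?_, fun j v => ?_⟩
      · by_cases h : tk (n + 2) v = u
        · rw [k1 v h, hg.1]
        · rw [k2 v h]
      · rcases le_total j (n + 2) with hj | hj
        · rw [k3 _ (by rw [tk_length]; omega)]
          by_cases h : tk (n + 2) v = u
          · rw [k1 v h, ← hg.2, h1 _ (by rw [tk_length]; omega)]
          · rw [k2 v h]
        · have e : tk (n + 2) (tk j v) = tk (n + 2) v := by rw [tk_tk, min_eq_left hj]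
          by_cases h : tk (n + 2) v = u
          · rw [k1 v h, k1 _ (e.trans h), hg.2]
          · rw [k2 v h, k2 _ (e ▸ h)]
    have k5 : k ∈ Subgroup.closure {g : Perm V | g ∈ L ∧ ∃ u : V, u.1.length = n ∧
        ∀ v : V, ¬ u.1 <+: v.1 → g v = v} := by
      refine Subgroup.subset_closure ⟨⟨k4, false, false, fun x y => ?_⟩, tk n u,
        by rw [tk_length]; omega, fun v hv => k2 v ?_⟩
      · rw [k3 _ (by simp [v2])]; simp
      · rintro rfl
        exact hv ((List.take_prefix _ _).trans (List.take_prefix _ _))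
    have k6 := ih (fun u hu => hS u (by simp [hu])) (k⁻¹ * g) (k4.inv.mul hg)
      (fun v hv => by rw [Perm.mul_apply, h1 v hv, Perm.inv_eq_iff_eq, k3 v hv]) (fun v hv => by
        rw [Perm.mul_apply, Perm.inv_eq_iff_eq]
        by_cases h : tk (n + 2) v = u
        · rw [k1 v h]
        · rw [k2 v h, h2 v (by simp [h, hv])])
    simpa using mul_mem k5 k6

theorem index_ne (n : ℕ) : ((Subgroup.closure {g : Perm V | g ∈ L ∧ ∃ u : V, u.1.length = n ∧
    ∀ v : V, ¬ u.1 <+: v.1 → g v = v}).subgroupOf L).index ≠ 0 := by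
  classical
  have : Finite {v : V // v.1.length ≤ n + 2} := finite_level (n + 2)
  let ρ : L →* Perm {v : V // v.1.length ≤ n + 2} :=
    { toFun := fun g => g.1.subtypePerm fun v => by rw [g.2.1.1]
      map_one' := rfl
      map_mul' := fun _ _ => rfl }
  have h := Subgroup.finiteIndex_ker ρ
  refine (Subgroup.finiteIndex_of_le (H := ρ.ker) fun g hg => ?_).index_ne_zero
  have h1 : ∀ v : V, v.1.length ≤ n + 2 → g.1 v = v := fun v hv =>
    congrArg Subtype.val (DFunLike.congr_fun (MonoidHom.mem_ker.1 hg)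
      (⟨v, hv⟩ : {v : V // v.1.length ≤ n + 2}))
  refine stab_mem n ((finite_level (n + 2)).toFinset.filter fun u => u.1.length = n + 2)
    (fun u hu => (Finset.mem_filter.1 hu).2) g.1 g.2.1 h1 fun v hv => h1 v ?_
  simp only [Finset.mem_filter, Set.Finite.mem_toFinset, Set.mem_ofPred_eq, tk_length] at hv
  omega

theorem not_induced : ∃ φ : L ≃* L, ¬ ∃ ρ : Perm V,
    (∀ v w : V, v.1 <+: w.1 ↔ (ρ v).1 <+: (ρ w).1) ∧ ∀ g : L, (φ g).1 = ρ * g.1 * ρ⁻¹ := by
  obtain ⟨φ, hφ⟩ := exists_aut
  refine ⟨φ, ?_⟩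
  rintro ⟨ρ, h1, h2⟩
  let b : L := ⟨tr fun i => decide (i = 1), tr_mem _⟩
  have e1 : (φ b).1 (v1 false) = v1 true := by
    have := (φ b).2.1.2 1 (v2 false false)
    rw [hφ b (v2 false false) (by simp [v2]), sw_v2, tr_v2, sw_v2] at this
    exact this
  obtain ⟨u, hu⟩ := ρ.surjective (v1 false)
  have hl : u.1.length ≤ 1 := by
    by_contra hn
    have key : ∀ k, (ρ (tk k u)).1 = [] ∨ ρ (tk k u) = ρ u := by
      intro k
      have := (h1 (tk k u) u).1 (List.take_prefix _ _)
      rw [hu] at this ⊢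
      rcases List.prefix_cons_iff.1 this with h | ⟨t, h, h'⟩
      · exact Or.inl h
      · rw [List.prefix_nil] at h'
        subst h'
        exact Or.inr (Subtype.ext h)
    have a : ∀ k, k ≤ 1 → (ρ (tk k u)).1 = [] := fun k hk => (key k).resolve_right fun h => by
      have := congrArg (fun v : V => v.1.length) (ρ.injective h)
      simp only [tk_length] at this
      omega
    have := congrArg (fun v : V => v.1.length)
      (ρ.injective (Subtype.ext ((a 0 (by omega)).trans (a 1 le_rfl).symm)))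
    simp only [tk_length] at this
    omega
  have e2 : b.1 u = u := by
    apply Subtype.ext
    refine List.ext_getElem (b.2.1.1 u) fun i h3 h4 => ?_
    have : i ≠ 1 := by omega
    simp [b, tr_val, trL, this]
  rw [h2, ← hu] at e1
  simp only [Perm.mul_apply, Perm.coe_inv, symm_apply_apply, e2] at e1
  rw [hu] at e1
  simp [v1] at e1

end H432Z.Branch
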