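import Mathlib

set_option autoImplicit false

namespace H432Z

/-- A finite simplicial complex with vertices in `ℕ`, given by the list of its simplices: each
simplex is a nonempty list of distinct vertices, and every nonempty subset of a simplex is the
vertex set of a listed simplex. -/
def IsComplex (K : List (List ℕ)) : Prop :=
  (∀ s ∈ K, s ≠ [] ∧ s.Nodup) ∧
    ∀ s ∈ K, ∀ t : Finset ℕ, t.Nonempty → t ⊆ s.toFinset → ∃ u ∈ K, u.toFinset = t

/-- The geometric realization in barycentric coordinates: nonnegative weights on the vertices,
supported on one simplex, with sum one. -/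
def realization (K : List (List ℕ)) : Set (ℕ → ℝ) :=
  {x | (∀ v, 0 ≤ x v) ∧ ∃ s ∈ K, (∀ v, v ∉ s → x v = 0) ∧ ∑ v ∈ s.toFinset, x v = 1}

end H432Z
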