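import Pool.Agent.H432Z.Rabin
import Pool.Agent.H432Z.Defs

set_option autoImplicit false
set_option linter.unusedSectionVars false
set_option synthInstance.maxSize 2048

/-! The complexes as computable lists, and the reduction. -/

namespace H432Z

open Set Function

section Lst

variable {V V' : Type} [DecidableEq V] [DecidableEq V']

/-- A list of lists enumerates the nonempty simplices. -/
def Lst (KL : List (List V)) (K : Set (Finset V)) : Prop :=
  (∀ l ∈ KL, l ≠ [] ∧ l.Nodup ∧ l.toFinset ∈ K) ∧ ∀ S ∈ K, S.Nonempty → ∃ l ∈ KL, l.toFinset = S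

theorem exists_Lst {K : Set (Finset V)} (h : K.Finite) : ∃ KL, Lst KL K := by
  classical
  refine ⟨(h.toFinset.filter Finset.Nonempty).toList.map Finset.toList, fun l hl => ?_,
    fun S hS hn => ⟨S.toList, ?_, by simp⟩⟩
  · simp only [List.mem_map, Finset.mem_toList, Finset.mem_filter, Finite.mem_toFinset] at hl
    obtain ⟨S, ⟨h1, h2⟩, rfl⟩ := hl
    exact ⟨by simpa using h2.ne_empty, S.nodup_toList, by simpa using h1⟩
  · simp only [List.mem_map, Finset.mem_toList, Finset.mem_filter, Finite.mem_toFinset]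
    exact ⟨S, ⟨hS, hn⟩, rfl⟩

theorem Lst.append {L1 L2 : List (List V)} {K1 K2 : Set (Finset V)} (h1 : Lst L1 K1)
    (h2 : Lst L2 K2) : Lst (L1 ++ L2) (K1 ∪ K2) := by
  refine ⟨fun l hl => ?_, fun S hS hn => ?_⟩
  · rcases List.mem_append.1 hl with hl | hl
    · exact ⟨(h1.1 l hl).1, (h1.1 l hl).2.1, Or.inl (h1.1 l hl).2.2⟩
    · exact ⟨(h2.1 l hl).1, (h2.1 l hl).2.1, Or.inr (h2.1 l hl).2.2⟩
  · rcases hS with hS | hS
    · obtain ⟨l, hl, e⟩ := h1.2 S hS hn
      exact ⟨l, List.mem_append_left _ hl, e⟩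
    · obtain ⟨l, hl, e⟩ := h2.2 S hS hn
      exact ⟨l, List.mem_append_right _ hl, e⟩

theorem Lst.map {KL : List (List V)} {K : Set (Finset V)} (h : Lst KL K) {i : V → V'}
    (hi : Injective i) : Lst (KL.map (List.map i)) (Img i K) := by
  refine ⟨fun l hl => ?_, ?_⟩
  · obtain ⟨l, hl', rfl⟩ := List.mem_map.1 hl
    obtain ⟨a, b, c⟩ := h.1 l hl'
    exact ⟨by simpa using a, b.map hi, _, c, by ext; simp⟩
  · rintro _ ⟨S, hS, rfl⟩ hn
    obtain ⟨l, hl, rfl⟩ := h.2 S hS (Finset.image_nonempty.1 hn)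
    exact ⟨l.map i, List.mem_map_of_mem hl, by ext; simp⟩

theorem Lst.complex {KL : List (List ℕ)} {K : Set (Finset ℕ)} (h : Lst KL K) (hd : Down K) :
    IsComplex KL :=
  ⟨fun s hs => ⟨(h.1 s hs).1, (h.1 s hs).2.1⟩,
    fun s hs t hn ht => h.2 t (hd _ (h.1 s hs).2.2 t ht) hn⟩

theorem Lst.real {KL : List (List ℕ)} {K : Set (Finset ℕ)} (h : Lst KL K) :
    realization KL = Rl K := by
  ext x
  constructor
  · rintro ⟨h0, s, hs, h1, h2⟩
    exact ⟨_, (h.1 s hs).2.2, h0, fun v hv => h1 v (by simpa using hv), h2⟩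
  · rintro ⟨S, hS, hx⟩
    have hn : S.Nonempty := by
      rw [Finset.nonempty_iff_ne_empty]
      rintro rfl
      rw [Smp_empty] at hx
      exact hx
    obtain ⟨l, hl, rfl⟩ := h.2 S hS hn
    exact ⟨hx.1, l, hl, fun v hv => hx.2.1 v (by simpa using hv), hx.2.2⟩

/-- The faces of a triangle. -/
def faces (t : V × V × V) : List (List V) :=
  [[t.1], [t.2.1], [t.2.2], [t.1, t.2.1], [t.1, t.2.2], [t.2.1, t.2.2], [t.1, t.2.1, t.2.2]]

theorem Lst_faces (T : List (V × V × V))
    (h : ∀ t ∈ T, t.1 ≠ t.2.1 ∧ t.1 ≠ t.2.2 ∧ t.2.1 ≠ t.2.2) :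
    Lst (T.flatMap faces) {S | ∃ t ∈ T, S ⊆ {t.1, t.2.1, t.2.2}} := by
  refine ⟨fun l hl => ?_, ?_⟩
  · obtain ⟨t, ht, hl⟩ := List.mem_flatMap.1 hl
    obtain ⟨a, b, c⟩ := h t ht
    simp only [faces, List.mem_cons, List.not_mem_nil, or_false] at hl
    rcases hl with rfl | rfl | rfl | rfl | rfl | rfl | rfl <;>
      exact ⟨by simp, by simp [a, b, c], t, ht, by simp [Finset.subset_iff]⟩
  · rintro S ⟨t, ht, hS⟩ hn
    have key : S = ({t.1, t.2.1, t.2.2} : Finset V).filter (· ∈ S) := by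
      ext x
      simp only [Finset.mem_filter]
      exact ⟨fun hx => ⟨hS hx, hx⟩, fun hx => hx.2⟩
    simp only [List.mem_flatMap]
    suffices H : ∃ l ∈ faces t, l.toFinset = S by
      obtain ⟨l, h1, h2⟩ := H
      exact ⟨l, ⟨t, ht, h1⟩, h2⟩
    rw [key] at hn ⊢
    by_cases h1 : t.1 ∈ S <;> by_cases h2 : t.2.1 ∈ S <;> by_cases h3 : t.2.2 ∈ S <;>
      simp [faces, Finset.filter_insert, Finset.filter_singleton, h1, h2, h3] at hn ⊢

end Lst

section Disc

variable {V J : Type} [DecidableEq V] [DecidableEq J]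

/-- The triangles of a disc. -/
def tris (γ : ℕ → V) (L : ℕ) (j : J) :
    List ((V ⊕ (J × Option ℕ)) × (V ⊕ (J × Option ℕ)) × (V ⊕ (J × Option ℕ))) :=
  (cc V j, uu V j 0, .inl (γ 0)) :: (cc V j, uu V j L, .inl (γ 0)) ::
    (List.range L).flatMap fun i => [(cc V j, uu V j i, uu V j (i + 1)),
      (uu V j i, uu V j (i + 1), .inl (γ (i + 1))), (uu V j i, .inl (γ i), .inl (γ (i + 1)))]

theorem mem_tris {γ : ℕ → V} {L : ℕ} {j : J} {a b d : V ⊕ (J × Option ℕ)} :
    (a, b, d) ∈ tris γ L j ↔ DT γ L j a b d := by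
  simp only [tris, DT, List.mem_cons, List.mem_flatMap, List.mem_range, Prod.mk.injEq,
    List.not_mem_nil, or_false]
  rw [← or_assoc, or_comm]

theorem Lst_Dk {γ : ℕ → V} {L : ℕ} (j : J) (h : ∀ i < L, γ i ≠ γ (i + 1)) :
    Lst ((tris γ L j).flatMap faces) (Dk γ L j) := by
  have e : Dk γ L j = {S | ∃ t ∈ tris γ L j, S ⊆ {t.1, t.2.1, t.2.2}} := by
    ext S
    exact ⟨fun ⟨a, b, d, h1, h2⟩ => ⟨(a, b, d), mem_tris.2 h1, h2⟩,
      fun ⟨⟨a, b, d⟩, h1, h2⟩ => ⟨a, b, d, mem_tris.1 h1, h2⟩⟩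
  rw [e]
  refine Lst_faces _ ?_
  rintro ⟨a, b, d⟩ ht
  rcases mem_tris.1 ht with ⟨i, hi, ⟨rfl, rfl, rfl⟩ | ⟨rfl, rfl, rfl⟩ | ⟨rfl, rfl, rfl⟩⟩ |
    ⟨rfl, rfl, rfl⟩ | ⟨rfl, rfl, rfl⟩
  · simp [cc, uu]
  · simp [uu]
  · simp [uu, h i hi]
  · simp [cc, uu]
  · simp [cc, uu]

end Disc

section Comp

variable {V J α : Type} [Primcodable V] [Primcodable J] [Primcodable α]

theorem primrec_faces : Primrec (faces : V × V × V → List (List V)) := by
  have a : Primrec fun t : V × V × V => t.1 := Primrec.fst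
  have b : Primrec fun t : V × V × V => t.2.1 := Primrec.fst.comp Primrec.snd
  have c : Primrec fun t : V × V × V => t.2.2 := Primrec.snd.comp Primrec.snd
  have n : Primrec fun _ : V × V × V => ([] : List V) := Primrec.const _
  have k := @Primrec.list_cons V _
  have k' := @Primrec.list_cons (List V) _
  exact k'.comp (k.comp a n) (k'.comp (k.comp b n) (k'.comp (k.comp c n)
    (k'.comp (k.comp a (k.comp b n)) (k'.comp (k.comp a (k.comp c n))
    (k'.comp (k.comp b (k.comp c n)) (k'.comp (k.comp a (k.comp b (k.comp c n)))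
    (Primrec.const _)))))))

theorem primrec_tris {β : Type} [Primcodable β] {γ : β → ℕ → V} {L : β → ℕ} (j : J)
    (hγ : Primrec₂ γ) (hL : Primrec L) : Primrec fun w => tris (γ w) (L w) j := by
  have u : Primrec (uu V j) :=
    Primrec.sumInr.comp ((Primrec.const j).pair Primrec.option_some)
  have g : Primrec₂ fun w i => (Sum.inl (γ w i) : V ⊕ (J × Option ℕ)) := Primrec.sumInl.comp₂ hγ
  have g0 := g.comp Primrec.id (Primrec.const 0)
  have s : Primrec fun p : β × ℕ => p.2 + 1 := Primrec.succ.comp Primrec.snd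
  have k := @Primrec.list_cons
    ((V ⊕ (J × Option ℕ)) × (V ⊕ (J × Option ℕ)) × (V ⊕ (J × Option ℕ))) _
  refine k.comp ((Primrec.const _).pair ((Primrec.const _).pair g0))
    (k.comp ((Primrec.const _).pair ((u.comp hL).pair g0))
      (Primrec.list_flatMap (Primrec.list_range.comp hL) ?_))
  exact (k.comp ((Primrec.const _).pair ((u.comp Primrec.snd).pair (u.comp s)))
    (k.comp ((u.comp Primrec.snd).pair ((u.comp s).pair (g.comp Primrec.fst s)))
    (k.comp ((u.comp Primrec.snd).pair ((g.comp Primrec.fst Primrec.snd).pair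
      (g.comp Primrec.fst s))) (Primrec.const _)))).to₂

theorem primrec_lp [Finite α] (v0 : V) (lam : α → Bool → V) : Primrec₂ (lp v0 lam) := by
  have h1 : Primrec fun p : List (α × Bool) × ℕ => p.1[p.2 / 3]? :=
    Primrec.list_getElem?.comp Primrec.fst (Primrec.nat_div.comp Primrec.snd (Primrec.const 3))
  have h2 : Primrec fun p : (List (α × Bool) × ℕ) × (α × Bool) => p.1.2 % 3 :=
    Primrec.nat_mod.comp (Primrec.snd.comp Primrec.fst) (Primrec.const 3)
  have h3 := Primrec.option_casesOn h1 (Primrec.const v0)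
    (g := fun p x => if p.2 % 3 = 0 then v0 else if p.2 % 3 = 1 then lam x.1 (!x.2) else lam x.1 x.2)
    (Primrec.ite (Primrec.eq.comp h2 (Primrec.const 0)) (Primrec.const v0)
      (Primrec.ite (Primrec.eq.comp h2 (Primrec.const 1))
        ((Primrec.dom_finite fun x : α × Bool => lam x.1 (!x.2)).comp Primrec.snd)
        ((Primrec.dom_finite fun x : α × Bool => lam x.1 x.2).comp Primrec.snd))).to₂
  refine h3.of_eq fun p => ?_
  unfold lp
  cases p.1[p.2 / 3]? <;> rfl

theorem primrec_map {β : Type} [Primcodable β] [Finite α] (f : α → β) :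
    Primrec (List.map f) :=
  Primrec.list_map Primrec.id ((Primrec.dom_finite f).comp Primrec.snd).to₂

theorem primrec_gr {m : ℕ} : Primrec (gr (m := m)) := by
  have h1 : Primrec (gw (m := m)) := primrec_map _
  have h2 : Primrec (FreeGroup.invRev : List (Fin m × Bool) → _) :=
    Primrec.list_reverse.comp (primrec_map _)
  exact Primrec.list_cons.comp (Primrec.const _) (Primrec.list_append.comp h1
    (Primrec.list_cons.comp (Primrec.const _) (Primrec.list_append.comp (h1.comp h2)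
      (Primrec.const _))))

end Comp

theorem exists_code {m k : ℕ} (R : Fin k → List (Fin m × Bool)) :
    ∃ code : List (Fin m × Bool) → List (List ℕ), Primrec code ∧ ∀ w, IsComplex (code w) ∧
      (∀ s ∈ code w, s.length ≤ 4) ∧
      (ContractibleSpace (realization (code w)) ↔ Triv gs (grel R w)) := by
  let J := Option (Fin k)
  let r : VA (Gn m) → ℕ := Encodable.encode
  have hr : Injective r := Encodable.encode_injective
  let wv : List (Fin m × Bool) → List ((Gn m ⊕ J) × Bool) := fun w => wd (grel R w) none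
  have hwv : Primrec wv :=
    Primrec.list_cons.comp (Primrec.const _) ((primrec_map _).comp primrec_gr)
  let γ : List ((Gn m ⊕ J) × Bool) → ℕ → VT (Gn m) J := lp (.inl none, none) (lamT (Gn m) J)
  let S0 : Set (Finset (VX (Gn m) J)) := Img Sum.inl (TT J r gs) ∪
    ⋃ j : Fin k, Dk (γ (wd (grel R []) (some j))) (3 * (wd (grel R []) (some j)).length) (some j)
  obtain ⟨F0, hF0⟩ := exists_Lst (K := S0)
    ((finite_Img finite_TT).union (finite_iUnion fun j => finite_Dk _ _ _))
  let cV : List (Fin m × Bool) → List (List (VX (Gn m) J)) := fun w =>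
    F0 ++ (tris (γ (wv w)) (3 * (wv w).length) (none : J)).flatMap faces
  have hcV : Primrec cV := Primrec.list_append.comp (Primrec.const _) (Primrec.list_flatMap
    (primrec_tris none ((primrec_lp _ _).comp₂ (hwv.comp Primrec.fst).to₂ Primrec₂.right)
      (Primrec.nat_mul.comp (Primrec.const 3) (Primrec.list_length.comp hwv)))
    (primrec_faces.comp Primrec.snd).to₂)
  have hL : ∀ w, Lst (cV w) (XX r gs (grel R w)) := by
    intro w
    have h1 := hF0.append (Lst_Dk (none : J)
      ((loops_XX (r := r) (s := gs) (rel := grel R w)).ne none))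
    convert h1 using 1
    ext S
    constructor
    · rintro (h | ⟨_ | j, h⟩)
      · exact Or.inl (Or.inl h)
      · exact Or.inr h
      · exact Or.inl (Or.inr (mem_iUnion.2 ⟨j, h⟩))
    · rintro ((h | h) | h)
      · exact Or.inl h
      · obtain ⟨j, h⟩ := mem_iUnion.1 h
        exact Or.inr ⟨some j, h⟩
      · exact Or.inr ⟨none, h⟩
  have hi : Injective (Encodable.encode : VX (Gn m) J → ℕ) := Encodable.encode_injective
  refine ⟨fun w => (cV w).map (List.map Encodable.encode), Primrec.list_map hcV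
    (Primrec.list_map Primrec.snd (Primrec.encode.comp Primrec.snd).to₂).to₂, fun w => ?_⟩
  have h1 := (hL w).map hi
  refine ⟨h1.complex (Down_Img Down_XX), fun s hs => ?_, ?_⟩
  · obtain ⟨-, a, S, hS, b⟩ := h1.1 s hs
    rw [← List.toFinset_card_of_nodup a, b]
    exact Finset.card_image_le.trans (card_XX hr S hS)
  · rw [h1.real, ← (imgHomeo hi _).contractibleSpace_iff]
    exact ⟨triv_of_contractible, contractible_of_triv hr Perf_gs⟩

theorem undecidable : ¬ ∃ f : List (List ℕ) →. Bool, Partrec f ∧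
    ∀ K : List (List ℕ), IsComplex K → (∀ s ∈ K, s.length ≤ 4) →
      ∃ b ∈ f K, (b = true ↔ ContractibleSpace (realization K)) := by
  rintro ⟨f, hf, h⟩
  obtain ⟨m, k, R, W, hW, hu⟩ := adian_rabin
  obtain ⟨code, c1, c2⟩ := exists_code R
  choose b hb hb' using fun n => h (code (W n)) (c2 _).1 (c2 _).2.1
  refine hu (ComputablePred.computable_iff.2 ⟨b, (hf.comp (c1.to_comp.comp hW)).of_eq_tot hb, ?_⟩)
  funext n
  exact propext ((hb' n).trans (c2 _).2.2).symm

end H432Z
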