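import Pool.Agent.H432Z.Ext

set_option autoImplicit false
set_option linter.unusedSectionVars false

/-! On a contractible complex every cocycle is a coboundary. -/

namespace H432Z

open Set Topology unitInterval

variable {V : Type} [DecidableEq V]

theorem exists_pos {K : Set (Finset V)} (x : Rl K) : ∃ v, 0 < x.1 v := by
  obtain ⟨x, ξ, -, hx⟩ := x
  by_contra h
  push Not at h
  have : ∑ v ∈ ξ, x v ≤ 0 := Finset.sum_nonpos fun v _ => h v
  have := hx.2.2
  linarith

theorem mem_of_pos {ξ : Finset V} {x : V → ℝ} (hx : x ∈ Smp ξ) {v : V} (hv : 0 < x v) : v ∈ ξ := by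
  by_contra h
  have := hx.2.1 v h
  linarith

theorem cob_of_contractible (K : Set (Finset V)) (hK : ContractibleSpace (Rl K)) {G : Type}
    [Group G] (g : V → V → G) (hg : Coc K g) : Cob K g := by
  classical
  let _ : TopologicalSpace G := ⊥
  have : DiscreteTopology G := ⟨rfl⟩
  have hcoc : ∀ (x : Rl K) u v w, 0 < x.1 u → 0 < x.1 v → 0 < x.1 w → g u v * g v w = g u w := by
    rintro ⟨x, ξ, hξ, hx⟩ u v w hu hv hw
    exact hg ξ hξ u (mem_of_pos hx hu) v (mem_of_pos hx hv) w (mem_of_pos hx hw)
  let Z : FiberBundleCore V (Rl K) G :=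
    { baseSet := fun v => {x | 0 < x.1 v}
      isOpen_baseSet := fun v => isOpen_lt continuous_const
        ((continuous_apply v).comp continuous_subtype_val)
      indexAt := fun x => (exists_pos x).choose
      mem_baseSet_at := fun x => (exists_pos x).choose_spec
      coordChange := fun u v _ a => a * g u v
      coordChange_self := fun u x hx a => by
        have := hcoc x u u u hx hx hx
        rw [mul_eq_left.1 this, mul_one]
      continuousOn_coordChange := fun u v =>
        ((continuous_of_discreteTopology (f := fun a : G => a * g u v)).comp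
          continuous_snd).continuousOn
      coordChange_comp := fun u v w x hx a => by
        rw [mul_assoc, hcoc x u v w hx.1.1 hx.1.2 hx.2] }
  have cov : IsCoveringMap Z.proj := FiberBundle.isCoveringMap (F := G) (E := Z.Fiber)
  obtain ⟨x0, ⟨H⟩⟩ := id_nullhomotopic (Rl K)
  let H' : C(I × Rl K, Rl K) := H.symm.toContinuousMap
  let e0 : Z.TotalSpace := ⟨x0, (1 : G)⟩
  let L := cov.liftHomotopy H' (ContinuousMap.const _ e0) (fun a => H.symm.apply_zero a)
  let s : Rl K → Z.TotalSpace := fun x => L (1, x)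
  have hs : Continuous s := L.continuous.comp (by fun_prop)
  have hp : ∀ x, (s x).1 = x := fun x =>
    (congrFun (cov.liftHomotopy_lifts H' (ContinuousMap.const _ e0)
      (fun a => H.symm.apply_zero a)) (1, x)).trans (H.symm.apply_one x)
  let φ : V → Rl K → G := fun v x => (Z.localTriv v (s x)).2
  have hφ : ∀ v, ContinuousOn (φ v) {x | 0 < x.1 v} := fun v =>
    continuous_snd.comp_continuousOn ((Z.localTriv v).continuousOn.comp hs.continuousOn (by
      intro x hx
      change (s x).1 ∈ Z.baseSet v
      rw [hp]; exact hx))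
  have hφ' : ∀ u v (x : Rl K), 0 < x.1 u → 0 < x.1 v → φ v x = φ u x * g u v := by
    intro u v x hu hv
    let a : G := (s x).2
    change a * g _ v = (a * g _ u) * g u v
    rw [mul_assoc, hcoc x _ u v _ hu hv]
    have := Z.mem_baseSet_at (s x).1
    rw [hp] at this ⊢
    exact this
  refine ⟨fun v => if h : pt v ∈ Rl K then φ v ⟨pt v, h⟩ else 1, fun ξ hξ u hu v hv => ?_⟩
  have mu : pt u ∈ Rl K := Smp_sub_Rl hξ (pt_mem hu)
  have mv : pt v ∈ Rl K := Smp_sub_Rl hξ (pt_mem hv)
  simp only [dif_pos mu, dif_pos mv]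
  have half : ∀ (a b : V) (ha : a ∈ ξ) (hb : b ∈ ξ), φ a ⟨pt a, Smp_sub_Rl hξ (pt_mem ha)⟩ =
      φ a ⟨seg (pt a) (pt b) (1 / 2), Smp_sub_Rl hξ
        (seg_mem (pt_mem ha) (pt_mem hb) (by norm_num) (by norm_num))⟩ := by
    intro a b ha hb
    let γ : I → Rl K := fun t => ⟨seg (pt a) (pt b) (t / 2), Smp_sub_Rl hξ
      (seg_mem (pt_mem ha) (pt_mem hb) (by have := t.2.1; linarith) (by have := t.2.2; linarith))⟩
    have hγ : Continuous γ := Continuous.subtype_mk (by fun_prop) _
    have hc : Continuous fun t => φ a (γ t) := (hφ a).comp_continuous hγ fun t => by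
      have h0 := t.2.1
      have h1 := t.2.2
      have h2 := (pt_mem hb).1 a
      change 0 < (1 - (t : ℝ) / 2) * pt a a + t / 2 * pt b a
      simp only [pt, if_true] at h2 ⊢
      have : 0 ≤ (t : ℝ) / 2 * (if a = b then 1 else 0) := mul_nonneg (by linarith) h2
      linarith
    have := (IsLocallyConstant.iff_continuous _).2 hc |>.apply_eq_of_preconnectedSpace 0 1
    convert this using 3 <;> simp
  have hmid : seg (pt v) (pt u) (1 / 2) = seg (pt u) (pt v) (1 / 2) := by
    rw [seg_symm]; norm_num
  have p1 : 0 < seg (pt u) (pt v) (1 / 2) u := by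
    have h2 := (pt_mem hv).1 u
    simp only [seg, pt, if_true] at h2 ⊢
    linarith
  have p2 : 0 < seg (pt u) (pt v) (1 / 2) v := by
    have h2 := (pt_mem hu).1 v
    simp only [seg, pt, if_true] at h2 ⊢
    linarith
  rw [half u v hu hv, half v u hv hu]
  simp only [hmid]
  rw [hφ' u v _ p1 p2]
  group

end H432Z
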