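import Pool.Agent.H432Z.Jug

set_option autoImplicit false
set_option linter.unusedSectionVars false

/-! Relabelling of vertices, and attaching discs along edge loops. -/

namespace H432Z

open Set Topology unitInterval

section Img

variable {V V' : Type} [DecidableEq V] [DecidableEq V']

/-- The image of a complex under a map of the vertices. -/
def Img (i : V → V') (K : Set (Finset V)) : Set (Finset V') := {s' | ∃ s ∈ K, s' = s.image i}

/-- Extension by zero. -/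
noncomputable def push (i : V → V') (x : V → ℝ) : V' → ℝ := Function.extend i x 0

variable {i : V → V'} {K : Set (Finset V)}

theorem Down_Img (hd : Down K) : Down (Img i K) := by
  rintro _ ⟨s, hs, rfl⟩ t ht
  obtain ⟨t', h1, h2⟩ := Finset.subset_image_iff.1 ht
  exact ⟨t', hd s hs t' h1, h2.symm⟩

theorem finite_Img (h : K.Finite) : (Img i K).Finite := by
  refine (h.image (Finset.image i)).subset ?_
  rintro _ ⟨s, hs, rfl⟩
  exact ⟨s, hs, rfl⟩

theorem push_apply (hi : Function.Injective i) (x : V → ℝ) (v : V) : push i x (i v) = x v :=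
  hi.extend_apply x 0 v

theorem push_of_not (x : V → ℝ) {w : V'} (h : ¬ ∃ v, i v = w) : push i x w = 0 :=
  Function.extend_apply' x (0 : V' → ℝ) w h

theorem continuous_push (hi : Function.Injective i) : Continuous (push i : (V → ℝ) → V' → ℝ) := by
  refine continuous_pi fun w => ?_
  by_cases h : ∃ v, i v = w
  · obtain ⟨v, rfl⟩ := h
    simp only [push_apply hi]; fun_prop
  · simp only [push_of_not _ h]; fun_prop

theorem push_pt (hi : Function.Injective i) (v : V) : push i (pt v) = pt (i v) := by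
  funext w
  by_cases h : ∃ u, i u = w
  · obtain ⟨u, rfl⟩ := h
    simp only [push_apply hi, pt, hi.eq_iff]
  · rw [push_of_not _ h, pt, if_neg fun h' => h ⟨v, h'.symm⟩]

theorem push_seg (hi : Function.Injective i) (x y : V → ℝ) (t : ℝ) :
    push i (seg x y t) = seg (push i x) (push i y) t := by
  funext w
  by_cases h : ∃ u, i u = w
  · obtain ⟨u, rfl⟩ := h
    simp only [push_apply hi, seg]
  · simp [seg, push_of_not _ h]

theorem push_mem (hi : Function.Injective i) {s : Finset V} {x : V → ℝ} (hx : x ∈ Smp s) :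
    push i x ∈ Smp (s.image i) := by
  refine ⟨fun w => ?_, fun w hw => ?_, ?_⟩
  · by_cases h : ∃ u, i u = w
    · obtain ⟨u, rfl⟩ := h
      rw [push_apply hi]; exact hx.1 u
    · rw [push_of_not _ h]
  · by_cases h : ∃ u, i u = w
    · obtain ⟨u, rfl⟩ := h
      rw [push_apply hi]
      exact hx.2.1 u fun hu => hw (Finset.mem_image_of_mem i hu)
    · rw [push_of_not _ h]
  · rw [Finset.sum_image fun a _ b _ h => hi h]
    simp only [push_apply hi]; exact hx.2.2

theorem pull_mem (hi : Function.Injective i) {s : Finset V} {z : V' → ℝ}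
    (hz : z ∈ Smp (s.image i)) : (fun v => z (i v)) ∈ Smp s := by
  refine ⟨fun v => hz.1 _, fun v hv => hz.2.1 _ fun h => hv ?_, ?_⟩
  · obtain ⟨u, hu, h'⟩ := Finset.mem_image.1 h
    rwa [← hi h']
  · have := hz.2.2
    rwa [Finset.sum_image fun a _ b _ h => hi h] at this

theorem push_pull (hi : Function.Injective i) {s : Finset V} {z : V' → ℝ}
    (hz : z ∈ Smp (s.image i)) : push i (fun v => z (i v)) = z := by
  funext w
  by_cases h : ∃ u, i u = w
  · obtain ⟨u, rfl⟩ := h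
    rw [push_apply hi]
  · rw [push_of_not _ h, hz.2.1 w]
    intro hw
    obtain ⟨u, -, h'⟩ := Finset.mem_image.1 hw
    exact h ⟨u, h'⟩

theorem push_Rl (hi : Function.Injective i) : MapsTo (push i) (Rl K) (Rl (Img i K)) :=
  fun _ ⟨s, hs, hx⟩ => ⟨_, ⟨s, hs, rfl⟩, push_mem hi hx⟩

theorem pull_Rl (hi : Function.Injective i) :
    MapsTo (fun (z : V' → ℝ) v => z (i v)) (Rl (Img i K)) (Rl K) := by
  rintro z ⟨_, ⟨s, hs, rfl⟩, hz⟩
  exact ⟨s, hs, pull_mem hi hz⟩

theorem push_pull_Rl (hi : Function.Injective i) {z : V' → ℝ} (hz : z ∈ Rl (Img i K)) :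
    push i (fun v => z (i v)) = z := by
  obtain ⟨_, ⟨s, hs, rfl⟩, hz⟩ := hz
  exact push_pull hi hz

/-- Relabelling does not change the realization. -/
noncomputable def imgHomeo (hi : Function.Injective i) (K : Set (Finset V)) :
    Rl K ≃ₜ Rl (Img i K) where
  toFun x := ⟨push i x, push_Rl hi x.2⟩
  invFun z := ⟨fun v => z.1 (i v), pull_Rl hi z.2⟩
  left_inv x := Subtype.ext (funext fun v => push_apply hi _ v)
  right_inv z := Subtype.ext (push_pull_Rl hi z.2)
  continuous_toFun := ((continuous_push hi).comp continuous_subtype_val).subtype_mk _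
  continuous_invFun := by
    have h : Continuous fun z : Rl (Img i K) => fun v => z.1 (i v) :=
      continuous_pi fun v => (continuous_apply (i v)).comp continuous_subtype_val
    exact h.subtype_mk _

end Img

section Cocycles

variable {V : Type} [DecidableEq V] {G : Type} [Group G] {K : Set (Finset V)} {g : V → V → G}

theorem Coc.self (hg : Coc K g) {ξ : Finset V} (hξ : ξ ∈ K) {a : V} (ha : a ∈ ξ) : g a a = 1 :=
  mul_eq_left.1 (hg ξ hξ a ha a ha a ha)

theorem Coc.inv (hg : Coc K g) {ξ : Finset V} (hξ : ξ ∈ K) {a b : V} (ha : a ∈ ξ) (hb : b ∈ ξ) :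
    g b a = (g a b)⁻¹ :=
  eq_inv_of_mul_eq_one_right (by rw [hg ξ hξ a ha b hb a ha, hg.self hξ ha])

theorem good_of_base (hg : Coc K g) {ξ : Finset V} (hξ : ξ ∈ K) {h : V → G} {a : V} (ha : a ∈ ξ)
    (hb : ∀ b ∈ ξ, h a * g a b = h b) : ∀ u ∈ ξ, ∀ v ∈ ξ, h u * g u v = h v := by
  intro u hu v hv
  rw [← hb u hu, mul_assoc, hg ξ hξ a ha u hu v hv, hb v hv]

theorem coc3 {a b d : V} (haa : g a a = 1) (hbb : g b b = 1) (hdd : g d d = 1)
    (hab : g b a = (g a b)⁻¹) (hbd : g d b = (g b d)⁻¹) (had : g d a = (g a d)⁻¹)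
    (h : g a b * g b d = g a d) {S : Finset V} (hS : S ⊆ {a, b, d}) :
    ∀ u ∈ S, ∀ v ∈ S, ∀ w ∈ S, g u v * g v w = g u w := by
  intro u hu v hv w hw
  have hu := hS hu
  have hv := hS hv
  have hw := hS hw
  simp only [Finset.mem_insert, Finset.mem_singleton] at hu hv hw
  rcases hu with rfl | rfl | rfl <;> rcases hv with rfl | rfl | rfl <;>
    rcases hw with rfl | rfl | rfl <;> simp only [haa, hbb, hdd, hab, hbd, had, ← h] <;> group

/-- Connectedness of a complex. -/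
def Conn (K : Set (Finset V)) (v0 : V) : Prop :=
  ∀ P : V → Prop, P v0 → (∀ a b, {a, b} ∈ K → P a → P b) → ∀ a, {a} ∈ K → P a

/-- The holonomy along a sequence of vertices. -/
def hol (g : V → V → G) (γ : ℕ → V) : ℕ → G
  | 0 => 1
  | n + 1 => hol g γ n * g (γ n) (γ (n + 1))

end Cocycles

section Att

variable {V J : Type} [DecidableEq V] [DecidableEq J]

/-- The centre of a disc. -/
def cc (V : Type) (j : J) : V ⊕ (J × Option ℕ) := Sum.inr (j, none)

/-- The vertices of the collar of a disc. -/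
def uu (V : Type) (j : J) (i : ℕ) : V ⊕ (J × Option ℕ) := Sum.inr (j, some i)

/-- The ordered triangles of a disc. -/
def DT (γ : ℕ → V) (L : ℕ) (j : J) (a b d : V ⊕ (J × Option ℕ)) : Prop :=
  (∃ i < L, (a = cc V j ∧ b = uu V j i ∧ d = uu V j (i + 1)) ∨
    (a = uu V j i ∧ b = uu V j (i + 1) ∧ d = .inl (γ (i + 1))) ∨
    (a = uu V j i ∧ b = .inl (γ i) ∧ d = .inl (γ (i + 1)))) ∨
  (a = cc V j ∧ b = uu V j 0 ∧ d = .inl (γ 0)) ∨ (a = cc V j ∧ b = uu V j L ∧ d = .inl (γ 0))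

/-- The disc along a loop. -/
def Dk (γ : ℕ → V) (L : ℕ) (j : J) : Set (Finset (V ⊕ (J × Option ℕ))) :=
  {S | ∃ a b d, DT γ L j a b d ∧ S ⊆ {a, b, d}}

/-- Attaching discs along loops. -/
def att (K : Set (Finset V)) (γ : J → ℕ → V) (L : J → ℕ) : Set (Finset (V ⊕ (J × Option ℕ))) :=
  {S | S ∈ Img Sum.inl K ∨ ∃ j, S ∈ Dk (γ j) (L j) j}

/-- Loops of edges. -/
structure Loops (K : Set (Finset V)) (γ : J → ℕ → V) (L : J → ℕ) : Prop where
  edge : ∀ j, ∀ i < L j, {γ j i, γ j (i + 1)} ∈ K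
  ne : ∀ j, ∀ i < L j, γ j i ≠ γ j (i + 1)
  base : ∀ j, {γ j 0} ∈ K
  close : ∀ j, γ j (L j) = γ j 0

variable {K : Set (Finset V)} {γ : J → ℕ → V} {L : J → ℕ}

theorem Down_att (hd : Down K) : Down (att K γ L) := by
  rintro s (hs | ⟨j, a, b, d, h, hs⟩) t ht
  · exact Or.inl (Down_Img hd s hs t ht)
  · exact Or.inr ⟨j, a, b, d, h, ht.trans hs⟩

theorem finite_Dk (γ : ℕ → V) (L : ℕ) (j : J) : (Dk γ L j).Finite := by
  let U : Finset (V ⊕ (J × Option ℕ)) := insert (cc V j)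
    ((Finset.range (L + 1)).image (uu V j) ∪ (Finset.range (L + 1)).image fun i => .inl (γ i))
  refine (Finset.finite_toSet U.powerset).subset ?_
  rintro S ⟨a, b, d, h, hS⟩
  refine Finset.mem_coe.2 (Finset.mem_powerset.2 (hS.trans ?_))
  have h1 : cc V j ∈ U := Finset.mem_insert_self _ _
  have h2 : ∀ i ≤ L, uu V j i ∈ U := fun i hi => Finset.mem_insert_of_mem
    (Finset.mem_union_left _ (Finset.mem_image_of_mem _ (Finset.mem_range.2 (by omega))))
  have h3 : ∀ i ≤ L, Sum.inl (γ i) ∈ U := fun i hi => Finset.mem_insert_of_mem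
    (Finset.mem_union_right _ (Finset.mem_image_of_mem (fun i => Sum.inl (γ i))
      (Finset.mem_range.2 (by omega))))
  simp only [Finset.insert_subset_iff, Finset.singleton_subset_iff]
  rcases h with ⟨i, hi, ⟨rfl, rfl, rfl⟩ | ⟨rfl, rfl, rfl⟩ | ⟨rfl, rfl, rfl⟩⟩ | ⟨rfl, rfl, rfl⟩ |
    ⟨rfl, rfl, rfl⟩
  · exact ⟨h1, h2 _ (by omega), h2 _ (by omega)⟩
  · exact ⟨h2 _ (by omega), h2 _ (by omega), h3 _ (by omega)⟩
  · exact ⟨h2 _ (by omega), h3 _ (by omega), h3 _ (by omega)⟩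
  · exact ⟨h1, h2 _ (by omega), h3 _ (by omega)⟩
  · exact ⟨h1, h2 _ (by omega), h3 _ (by omega)⟩

theorem finite_att [Finite J] (h : K.Finite) : (att K γ L).Finite := by
  refine ((finite_Img (i := Sum.inl) h).union (Set.finite_iUnion fun j => finite_Dk (γ j) (L j) j)).subset ?_
  rintro S (hS | ⟨j, hS⟩)
  · exact Or.inl hS
  · exact Or.inr (mem_iUnion.2 ⟨j, hS⟩)

theorem card_Dk {γ : ℕ → V} {L : ℕ} {j : J} {S : Finset (V ⊕ (J × Option ℕ))}
    (hS : S ∈ Dk γ L j) : S.card ≤ 3 := by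
  obtain ⟨a, b, d, -, hS⟩ := hS
  exact (Finset.card_le_card hS).trans Finset.card_le_three

theorem card_att {n : ℕ} (hn : 3 ≤ n) (h : ∀ s ∈ K, s.card ≤ n) :
    ∀ S ∈ att K γ L, S.card ≤ n := by
  rintro S (⟨s, hs, rfl⟩ | ⟨j, hS⟩)
  · exact Finset.card_image_le.trans (h s hs)
  · exact (card_Dk hS).trans hn

theorem mem_att_of_DT {j : J} {a b d : V ⊕ (J × Option ℕ)} (h : DT (γ j) (L j) j a b d) :
    {a, b, d} ∈ att K γ L := Or.inr ⟨j, a, b, d, h, subset_rfl⟩

theorem mem_att_inl {s : Finset V} (hs : s ∈ K) : s.image Sum.inl ∈ att K γ L :=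
  Or.inl ⟨s, hs, rfl⟩

theorem DT1 {j : J} {i : ℕ} (hi : i < L j) :
    DT (γ j) (L j) j (cc V j) (uu V j i) (uu V j (i + 1)) :=
  Or.inl ⟨i, hi, Or.inl ⟨rfl, rfl, rfl⟩⟩
theorem DT2 {j : J} {i : ℕ} (hi : i < L j) :
    DT (γ j) (L j) j (uu V j i) (uu V j (i + 1)) (.inl (γ j (i + 1))) :=
  Or.inl ⟨i, hi, Or.inr (Or.inl ⟨rfl, rfl, rfl⟩)⟩
theorem DT3 {j : J} {i : ℕ} (hi : i < L j) :
    DT (γ j) (L j) j (uu V j i) (.inl (γ j i)) (.inl (γ j (i + 1))) :=
  Or.inl ⟨i, hi, Or.inr (Or.inr ⟨rfl, rfl, rfl⟩)⟩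
theorem DT4 {j : J} : DT (γ j) (L j) j (cc V j) (uu V j 0) (.inl (γ j 0)) :=
  Or.inr (Or.inl ⟨rfl, rfl, rfl⟩)
theorem DT5 {j : J} : DT (γ j) (L j) j (cc V j) (uu V j (L j)) (.inl (γ j 0)) :=
  Or.inr (Or.inr ⟨rfl, rfl, rfl⟩)

theorem Conn_att (hd : Down K) (hL : Loops K γ L) {v0 : V} (hc : Conn K v0) :
    Conn (att K γ L) (.inl v0) := by
  intro P h0 hP
  have h1 : ∀ a, {a} ∈ K → P (.inl a) := hc (fun a => P (.inl a)) h0 fun a b hab =>
    hP _ _ (by simpa using mem_att_inl (γ := γ) (L := L) hab)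
  have hD := Down_att (γ := γ) (L := L) hd
  have h2 : ∀ j {a b d}, DT (γ j) (L j) j a b d → P d → P a ∧ P b := fun j a b d h hp =>
    ⟨hP _ _ (hD _ (mem_att_of_DT h) _ (pair_sub (by simp) (by simp))) hp,
      hP _ _ (hD _ (mem_att_of_DT h) _ (pair_sub (by simp) (by simp))) hp⟩
  have h3 : ∀ j, ∀ i < L j, P (.inl (γ j (i + 1))) := fun j i hi =>
    h1 _ (hd _ (hL.edge j i hi) _ (by simp))
  rintro a (⟨s, hs, ha⟩ | ⟨j, x, y, z, h, ha⟩)
  · have : a ∈ s.image Sum.inl := by rw [← ha]; simp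
    obtain ⟨b, hb, rfl⟩ := Finset.mem_image.1 this
    exact h1 b (hd s hs _ (Finset.singleton_subset_iff.2 hb))
  · have hz : P z := by
      rcases h with ⟨i, hi, ⟨-, -, rfl⟩ | ⟨-, -, rfl⟩ | ⟨-, -, rfl⟩⟩ | ⟨-, -, rfl⟩ | ⟨-, -, rfl⟩
      · exact (h2 j (DT2 hi) (h3 j i hi)).2
      · exact h3 j i hi
      · exact h3 j i hi
      · exact h1 _ (hL.base j)
      · exact h1 _ (hL.base j)
    have := Finset.singleton_subset_iff.1 ha
    simp only [Finset.mem_insert, Finset.mem_singleton] at this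
    rcases this with rfl | rfl | rfl
    · exact (h2 j h hz).1
    · exact (h2 j h hz).2
    · exact hz

variable {G : Type} [Group G]

theorem Coc.restrict {g : V ⊕ (J × Option ℕ) → V ⊕ (J × Option ℕ) → G}
    (hg : Coc (att K γ L) g) : Coc K fun a b => g (.inl a) (.inl b) :=
  fun _ hξ _ hu _ hv _ hw => hg _ (mem_att_inl hξ) _ (Finset.mem_image_of_mem _ hu) _
    (Finset.mem_image_of_mem _ hv) _ (Finset.mem_image_of_mem _ hw)

theorem Coc.dt {g : V ⊕ (J × Option ℕ) → V ⊕ (J × Option ℕ) → G} (hg : Coc (att K γ L) g)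
    {j : J} {a b d : V ⊕ (J × Option ℕ)} (h : DT (γ j) (L j) j a b d) : g a b * g b d = g a d :=
  hg _ (mem_att_of_DT h) a (by simp) b (by simp) d (by simp)

theorem Coc.hol_eq_one (hL : Loops K γ L) {g : V ⊕ (J × Option ℕ) → V ⊕ (J × Option ℕ) → G}
    (hg : Coc (att K γ L) g) (j : J) : hol (fun a b => g (.inl a) (.inl b)) (γ j) (L j) = 1 := by
  have key : ∀ i ≤ L j, g (cc V j) (uu V j i) * g (uu V j i) (.inl (γ j i)) =
      g (cc V j) (.inl (γ j 0)) * hol (fun a b => g (.inl a) (.inl b)) (γ j) i := by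
    intro i
    induction i with
    | zero => intro _; rw [hg.dt DT4, hol, mul_one]
    | succ i ih =>
      intro hi
      rw [hol, ← mul_assoc, ← ih (by omega), mul_assoc, hg.dt (DT3 hi), ← hg.dt (DT2 hi),
        ← mul_assoc, hg.dt (DT1 hi)]
  have := key (L j) le_rfl
  rw [hL.close j, hg.dt DT5] at this
  exact (left_eq_mul.1 this)

theorem Cob.att {g : V ⊕ (J × Option ℕ) → V ⊕ (J × Option ℕ) → G} (hL : Loops K γ L)
    (hg : Coc (att K γ L) g) (hb : Cob K fun a b => g (.inl a) (.inl b)) : Cob (att K γ L) g := by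
  obtain ⟨h, hh⟩ := hb
  let h' : V ⊕ (J × Option ℕ) → G := fun a => match a with
    | .inl a => h a
    | .inr (j, some i) => h (γ j i) * g (.inl (γ j i)) (uu V j i)
    | .inr (j, none) => h (γ j 0) * g (.inl (γ j 0)) (cc V j)
  have self : ∀ {j a b d}, DT (γ j) (L j) j a b d → h' a * g a a = h' a ∧ h' b * g b b = h' b ∧
      h' d * g d d = h' d := fun hT =>
    ⟨by rw [hg.self (mem_att_of_DT hT) (by simp), mul_one],
      by rw [hg.self (mem_att_of_DT hT) (by simp), mul_one],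
      by rw [hg.self (mem_att_of_DT hT) (by simp), mul_one]⟩
  have g3 : ∀ j, ∀ i < L j, ∀ u ∈ ({uu V j i, .inl (γ j i), .inl (γ j (i + 1))} : Finset _),
      ∀ v ∈ ({uu V j i, .inl (γ j i), .inl (γ j (i + 1))} : Finset _), h' u * g u v = h' v := by
    intro j i hi
    refine good_of_base hg (mem_att_of_DT (DT3 hi)) (a := .inl (γ j i)) (by simp) ?_
    simp only [Finset.mem_insert, Finset.mem_singleton]
    rintro b (rfl | rfl | rfl)
    · rfl
    · exact (self (DT3 hi)).2.1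
    · have := hh _ (hL.edge j i hi) (γ j i) (by simp) (γ j (i + 1)) (by simp)
      simp only at this
      simp only [h', this]; group
  have g2 : ∀ j, ∀ i < L j, ∀ u ∈ ({uu V j i, uu V j (i + 1), .inl (γ j (i + 1))} : Finset _),
      ∀ v ∈ ({uu V j i, uu V j (i + 1), .inl (γ j (i + 1))} : Finset _), h' u * g u v = h' v := by
    intro j i hi
    refine good_of_base hg (mem_att_of_DT (DT2 hi)) (a := .inl (γ j (i + 1))) (by simp) ?_
    simp only [Finset.mem_insert, Finset.mem_singleton]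
    rintro b (rfl | rfl | rfl)
    · exact g3 j i hi (.inl (γ j (i + 1))) (by simp) (uu V j i) (by simp)
    · rfl
    · exact (self (DT2 hi)).2.2
  have g4 : ∀ j, ∀ u ∈ ({cc V j, uu V j 0, .inl (γ j 0)} : Finset _),
      ∀ v ∈ ({cc V j, uu V j 0, .inl (γ j 0)} : Finset _), h' u * g u v = h' v := by
    intro j
    refine good_of_base hg (mem_att_of_DT DT4) (a := .inl (γ j 0)) (by simp) ?_
    simp only [Finset.mem_insert, Finset.mem_singleton]
    rintro b (rfl | rfl | rfl)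
    · rfl
    · rfl
    · exact (self DT4).2.2
  have g0 : ∀ j, ∀ i ≤ L j, h' (cc V j) * g (cc V j) (uu V j i) = h' (uu V j i) := by
    intro j i
    induction i with
    | zero => intro _; exact g4 j (cc V j) (by simp) (uu V j 0) (by simp)
    | succ i ih =>
      intro hi
      rw [← hg.dt (DT1 hi), ← mul_assoc, ih (by omega)]
      exact g2 j i hi (uu V j i) (by simp) (uu V j (i + 1)) (by simp)
  refine ⟨h', ?_⟩
  suffices H : ∀ ξ ∈ H432Z.att K γ L, ∀ u ∈ ξ, ∀ v ∈ ξ, h' u * g u v = h' v from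
    fun ξ hξ u hu v hv => by rw [← H ξ hξ u hu v hv]; group
  rintro ξ (⟨s, hs, rfl⟩ | ⟨j, x, y, z, hT, hξ⟩) u hu v hv
  · obtain ⟨a, ha, rfl⟩ := Finset.mem_image.1 hu
    obtain ⟨b, hb, rfl⟩ := Finset.mem_image.1 hv
    have := hh s hs a ha b hb
    simp only at this
    simp only [h', this]; group
  · have hu := hξ hu
    have hv := hξ hv
    rcases hT with ⟨i, hi, ⟨rfl, rfl, rfl⟩ | ⟨rfl, rfl, rfl⟩ | ⟨rfl, rfl, rfl⟩⟩ | ⟨rfl, rfl, rfl⟩ |
      ⟨rfl, rfl, rfl⟩
    · refine good_of_base hg (mem_att_of_DT (DT1 hi)) (a := cc V j) (by simp) ?_ u hu v hv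
      simp only [Finset.mem_insert, Finset.mem_singleton]
      rintro b (rfl | rfl | rfl)
      · exact (self (DT1 hi)).1
      · exact g0 j i hi.le
      · exact g0 j (i + 1) hi
    · exact g2 j i hi u hu v hv
    · exact g3 j i hi u hu v hv
    · exact g4 j u hu v hv
    · refine good_of_base hg (mem_att_of_DT DT5) (a := cc V j) (by simp) ?_ u hu v hv
      simp only [Finset.mem_insert, Finset.mem_singleton]
      rintro b (rfl | rfl | rfl)
      · exact (self DT5).1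
      · exact g0 j _ le_rfl
      · exact g4 j (cc V j) (by simp) (.inl (γ j 0)) (by simp)

/-- A function of two vertices of the new complex, from its values on the various edges. -/
def mkc (c : V → V → G) (N : J → ℕ → V → G) (R Q : J → ℕ → G) :
    V ⊕ (J × Option ℕ) → V ⊕ (J × Option ℕ) → G
  | .inl a, .inl b => c a b
  | .inr (j, some i), .inl b => N j i b
  | .inl b, .inr (j, some i) => (N j i b)⁻¹
  | .inr (_, none), .inl _ => 1
  | .inl _, .inr (_, none) => 1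
  | .inr (j, some i), .inr (j', some i') => (R j i)⁻¹ * R j' i'
  | .inr (_, none), .inr (j, some i) => Q j i
  | .inr (j, some i), .inr (_, none) => (Q j i)⁻¹
  | .inr (_, none), .inr (_, none) => 1

theorem Coc.extend (hL : Loops K γ L) {g : V → V → G} (hg : Coc K g)
    (h1 : ∀ j, hol g (γ j) (L j) = 1) : ∃ g' : V ⊕ (J × Option ℕ) → V ⊕ (J × Option ℕ) → G,
      Coc (att K γ L) g' ∧ ∀ a b, g' (.inl a) (.inl b) = g a b := by
  refine ⟨mkc g (fun j i b => g (γ j i) b) (fun j => hol g (γ j)) (fun j => hol g (γ j)), ?_,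
    fun _ _ => rfl⟩
  rintro ξ (⟨s, hs, rfl⟩ | ⟨j, x, y, z, hT, hξ⟩)
  · intro u hu v hv w hw
    obtain ⟨a, ha, rfl⟩ := Finset.mem_image.1 hu
    obtain ⟨b, hb, rfl⟩ := Finset.mem_image.1 hv
    obtain ⟨d, hd', rfl⟩ := Finset.mem_image.1 hw
    exact hg s hs a ha b hb d hd'
  · have e0 : g (γ j 0) (γ j 0) = 1 := hg.self (hL.base j) (by simp)
    rcases hT with ⟨i, hi, ⟨rfl, rfl, rfl⟩ | ⟨rfl, rfl, rfl⟩ | ⟨rfl, rfl, rfl⟩⟩ | ⟨rfl, rfl, rfl⟩ |
      ⟨rfl, rfl, rfl⟩
    · refine coc3 ?_ ?_ ?_ ?_ ?_ ?_ ?_ hξ <;> simp [mkc, cc, uu]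
    · have e1 : g (γ j (i + 1)) (γ j (i + 1)) = 1 := hg.self (hL.edge j i hi) (by simp)
      refine coc3 ?_ ?_ ?_ ?_ ?_ ?_ ?_ hξ <;> simp [mkc, uu, e1, hol]
    · have e1 : g (γ j (i + 1)) (γ j (i + 1)) = 1 := hg.self (hL.edge j i hi) (by simp)
      have e2 : g (γ j i) (γ j i) = 1 := hg.self (hL.edge j i hi) (by simp)
      have e3 : g (γ j (i + 1)) (γ j i) = (g (γ j i) (γ j (i + 1)))⁻¹ :=
        hg.inv (hL.edge j i hi) (by simp) (by simp)
      refine coc3 ?_ ?_ ?_ ?_ ?_ ?_ ?_ hξ <;> simp [mkc, uu, e1, e2, e3]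
    · refine coc3 ?_ ?_ ?_ ?_ ?_ ?_ ?_ hξ <;> simp [mkc, cc, uu, e0, hol]
    · refine coc3 ?_ ?_ ?_ ?_ ?_ ?_ ?_ hξ <;> simp [mkc, cc, uu, e0, h1, hL.close]

theorem solve_att (hL : Loops K γ L) {C : Type} [CommGroup C]
    (o : V ⊕ (J × Option ℕ) → V ⊕ (J × Option ℕ) → V ⊕ (J × Option ℕ) → C) :
    ∃ O : J → C, ∀ c : V → V → C, (∀ a b, c b a = (c a b)⁻¹) → (∀ j, hol c (γ j) (L j) = O j) →
      ∃ c' : V ⊕ (J × Option ℕ) → V ⊕ (J × Option ℕ) → C, (∀ a b, c' b a = (c' a b)⁻¹) ∧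
        (∀ a b, c' (.inl a) (.inl b) = c a b) ∧ ∀ ξ ∈ att K γ L, ξ ∉ Img Sum.inl K → ξ.card = 3 →
          ∃ u v w, ξ = {u, v, w} ∧ c' u v * c' v w = o u v w * c' u w := by
  let o1 : J → ℕ → C := fun j i => o (cc V j) (uu V j i) (uu V j (i + 1))
  let o2 : J → ℕ → C := fun j i => o (uu V j i) (uu V j (i + 1)) (.inl (γ j (i + 1)))
  let o3 : J → ℕ → C := fun j i => o (uu V j i) (.inl (γ j i)) (.inl (γ j (i + 1)))
  let o4 : J → C := fun j => o (cc V j) (uu V j 0) (.inl (γ j 0))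
  let o5 : J → C := fun j => o (cc V j) (uu V j (L j)) (.inl (γ j 0))
  refine ⟨fun j => o5 j * (o4 j * ∏ i ∈ Finset.range (L j), ((o1 j i)⁻¹ * o2 j i * (o3 j i)⁻¹))⁻¹,
    fun c hc hO => ?_⟩
  let X : J → ℕ → C := fun j i => (o3 j i)⁻¹ * c (γ j i) (γ j (i + 1))
  refine ⟨mkc c (fun j i b => if b = γ j i then 1 else X j i)
    (fun j n => ∏ i ∈ Finset.range n, (o2 j i * X j i))
    (fun j n => o4 j * (∏ i ∈ Finset.range n, ((o1 j i)⁻¹ * o2 j i * (o3 j i)⁻¹)) * hol c (γ j) n),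
    ?_, fun _ _ => rfl, ?_⟩
  · rintro (a | ⟨j, _ | i⟩) (b | ⟨j', _ | i'⟩)
    · exact hc a b
    all_goals simp [mkc]
  · rintro ξ (hξ | ⟨j, x, y, z, hT, hξ⟩) hn h3
    · exact absurd hξ hn
    · have he : ξ = {x, y, z} :=
        Finset.eq_of_subset_of_card_le hξ (by rw [h3]; exact Finset.card_le_three)
      refine ⟨x, y, z, he, ?_⟩
      rcases hT with ⟨i, hi, ⟨rfl, rfl, rfl⟩ | ⟨rfl, rfl, rfl⟩ | ⟨rfl, rfl, rfl⟩⟩ |
        ⟨rfl, rfl, rfl⟩ | ⟨rfl, rfl, rfl⟩
      · change _ = o1 j i * _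
        simp only [mkc, cc, uu, Finset.prod_range_succ, hol, X]
        apply Additive.ofMul.injective
        simp only [ofMul_mul, ofMul_inv]
        abel
      · change _ = o2 j i * _
        simp only [mkc, uu, Finset.prod_range_succ, if_true, if_neg (hL.ne j i hi).symm]
        group
      · change _ = o3 j i * _
        simp only [mkc, uu, if_true, if_neg (hL.ne j i hi).symm, X]
        group
      · change _ = o4 j * _
        simp [mkc, cc, uu, hol]
      · change _ = o5 j * _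
        simp only [mkc, cc, uu, hL.close, if_true, hO]
        apply Additive.ofMul.injective
        simp only [ofMul_mul, ofMul_inv, ofMul_one]
        abel

end Att

end H432Z
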