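import Pool.Agent.H432Z.Obs

set_option autoImplicit false
set_option linter.unusedSectionVars false

/-! Obstruction theory in dimensions one and two. -/

namespace H432Z

open Set Topology unitInterval

variable {V : Type} [DecidableEq V]

/-- Group valued cocycles. -/
def Coc {G : Type} [Group G] (K : Set (Finset V)) (g : V → V → G) : Prop :=
  ∀ ξ ∈ K, ∀ u ∈ ξ, ∀ v ∈ ξ, ∀ w ∈ ξ, g u v * g v w = g u w

/-- Group valued coboundaries. -/
def Cob {G : Type} [Group G] (K : Set (Finset V)) (g : V → V → G) : Prop :=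
  ∃ h : V → G, ∀ ξ ∈ K, ∀ u ∈ ξ, ∀ v ∈ ξ, g u v = (h u)⁻¹ * h v

/-- Every function on triangles is a coboundary. -/
def H2 (K : Set (Finset V)) : Prop :=
  ∀ (C : Type) [CommGroup C] (o : V → V → V → C), ∃ c : V → V → C, (∀ u v, c v u = (c u v)⁻¹) ∧
    ∀ ξ ∈ K, ξ.card = 3 → ∃ u v w, ξ = {u, v, w} ∧ c u v * c v w = o u v w * c u w

theorem ne_of_card_three {u v w : V} (h3 : ({u, v, w} : Finset V).card = 3) :
    u ≠ v ∧ u ≠ w ∧ v ≠ w := by
  refine ⟨?_, ?_, ?_⟩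
  · rintro rfl
    have := Finset.card_le_two (a := u) (b := w)
    simp only [Finset.mem_insert, true_or, Finset.insert_eq_of_mem] at h3
    omega
  · rintro rfl
    have := Finset.card_le_two (a := v) (b := u)
    rw [Finset.insert_eq_of_mem (by simp)] at h3
    omega
  · rintro rfl
    have := Finset.card_le_two (a := u) (b := v)
    rw [Finset.pair_eq_singleton] at h3
    omega

theorem pair_sub {ξ : Finset V} {u v : V} (hu : u ∈ ξ) (hv : v ∈ ξ) : ({u, v} : Finset V) ⊆ ξ := by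
  intro x hx
  simp only [Finset.mem_insert, Finset.mem_singleton] at hx
  rcases hx with rfl | rfl <;> assumption

variable {W : Type} [TopologicalSpace W] {w0 : W}

noncomputable instance (w0 : W) : CommGroup (Pi1 (Path.refl w0)) :=
  { (inferInstance : Group (Pi1 (Path.refl w0))) with mul_comm := loop_comm w0 }

/-- The image of an edge. -/
def ep {K : Set (Finset V)} {f : (V → ℝ) → W} (hf : ContinuousOn f (Rl K)) {u v : V}
    (h : {u, v} ∈ K) : Path (f (pt u)) (f (pt v)) :=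
  ⟨⟨fun t => f (seg (pt u) (pt v) t),
    hf.comp_continuous (by fun_prop) fun t => Smp_sub_Rl h (seg_pt_mem t.2.1 t.2.2)⟩,
    by simp, by simp⟩

/-- The chosen paths commute with the edges up to homotopy. -/
def Fillable (K : Set (Finset V)) (f : (V → ℝ) → W) (ε : ∀ v : V, Path (f (pt v)) w0) : Prop :=
  ∀ u v, {u, v} ∈ K → ∀ r : Path (f (pt u)) (f (pt v)),
    (∀ t, r t = f (seg (pt u) (pt v) t)) → (ε u).Homotopic (r.trans (ε v))

theorem make_fillable {K : Set (Finset V)} (hd : Down K) {f : (V → ℝ) → W}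
    (hf : ContinuousOn f (Rl K)) (ε : ∀ v : V, Path (f (pt v)) w0)
    (hK : ∀ g : V → V → Pi1 w0, Coc K g → Cob K g) :
    ∃ ε' : ∀ v : V, Path (f (pt v)) w0, Fillable K f ε' := by
  classical
  let g : V → V → Pi1 w0 := fun u v =>
    if h : {u, v} ∈ K then cls ((ε u).symm.trans ((ep hf h).trans (ε v))) else 1
  have hg : Coc K g := by
    intro ξ hξ u hu v hv w hw
    have h1 := hd ξ hξ _ (pair_sub hu hv)
    have h2 := hd ξ hξ _ (pair_sub hv hw)
    have h3 := hd ξ hξ _ (pair_sub hu hw)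
    simp only [g, dif_pos h1, dif_pos h2, dif_pos h3]
    have h4 := square (fun z => f (seg (seg (pt u) (pt v) z.1) (pt w) z.2))
      (hf.comp_continuous (by fun_prop) fun z => Smp_sub_Rl hξ (seg_mem
        (seg_mem (pt_mem hu) (pt_mem hv) z.1.2.1 z.1.2.2) (pt_mem hw) z.2.2.1 z.2.2.2))
      (ep hf h1) (ep hf h2) (ep hf h3) (Path.refl _) (fun t => by simp [ep]) (fun t => by simp [ep])
      (fun t => by simp [ep]) (fun t => by simp)
    have h5 := Path.Homotopic.Quotient.eq.2 h4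
    simp only [Path.Homotopic.Quotient.mk_trans, Path.Homotopic.Quotient.mk_refl,
      Path.Homotopic.Quotient.trans_refl] at h5
    change Path.Homotopic.Quotient.trans (Path.Homotopic.Quotient.mk _)
      (Path.Homotopic.Quotient.mk _) = Path.Homotopic.Quotient.mk _
    simp only [Path.Homotopic.Quotient.mk_trans, Path.Homotopic.Quotient.mk_symm,
      Path.Homotopic.Quotient.trans_assoc, ← h5]
    rw [← Path.Homotopic.Quotient.trans_assoc (Path.Homotopic.Quotient.mk (ε v)),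
      Path.Homotopic.Quotient.trans_symm, Path.Homotopic.Quotient.refl_trans]
  obtain ⟨h, hh⟩ := hK g hg
  choose η hη using fun v => cls_surj (h v)⁻¹
  refine ⟨fun v => (ε v).trans (η v), fun u v huv r hr => ?_⟩
  have e : r = ep hf huv := by ext t; exact hr t
  have h1 := hh _ huv u (by simp) v (by simp)
  simp only [g, dif_pos huv] at h1
  have h2 : cls ((ε u).symm.trans ((ep hf huv).trans (ε v))) * cls (η v) = cls (η u) := by
    rw [h1, hη, hη]; group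
  rw [← Path.Homotopic.Quotient.eq, e]
  have h3 : Path.Homotopic.Quotient.trans (Path.Homotopic.Quotient.mk _)
      (Path.Homotopic.Quotient.mk _) = Path.Homotopic.Quotient.mk _ := h2
  simp only [Path.Homotopic.Quotient.mk_trans, Path.Homotopic.Quotient.mk_symm,
      Path.Homotopic.Quotient.trans_assoc] at h3 ⊢
  rw [← h3, ← Path.Homotopic.Quotient.trans_assoc (Path.Homotopic.Quotient.mk (ε u)),
      Path.Homotopic.Quotient.trans_symm, Path.Homotopic.Quotient.refl_trans]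

/-- A function on the interval is a loop of loops in the given class. -/
def Rep (a : I → Path w0 w0) (x : Pi1 (Path.refl w0)) : Prop :=
  ∃ p : Path (Path.refl w0) (Path.refl w0), (∀ t, p t = a t) ∧ cls p = x

/-- The lift is carried by the simplices. -/
def Carried (w0 : W) (f : (V → ℝ) → W) (K : Set (Finset V)) (s : (V → ℝ) → (V → ℝ) × PW w0) : Prop :=
  ∀ ξ ∈ K, MapsTo s (Smp ξ) (EE w0 f (Smp ξ))

/-- Loops of loops realizing a cochain on the edges. -/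
theorem ext_loops (K0 K : Set (Finset V)) (hfin : K.Finite) (h0 : K0 ⊆ K) (hd0 : Down K0)
    (hd : Down K) (c : V → V → Pi1 (Path.refl w0)) (ζ0 : (V → ℝ) → Path w0 w0)
    (hc : ∀ u v, c v u = (c u v)⁻¹) (hζ : ContinuousOn ζ0 (Rl K0))
    (hζ0 : ∀ v, {v} ∈ K0 → ζ0 (pt v) = Path.refl w0)
    (hζ1 : ∀ u v, u ≠ v → {u, v} ∈ K0 → Rep (fun t => ζ0 (seg (pt u) (pt v) t)) (c u v)) :
    ∃ ζ : (V → ℝ) → Path w0 w0, ContinuousOn ζ (Rl (Sk K0 K 2)) ∧
      (∀ v, {v} ∈ K → ζ (pt v) = Path.refl w0) ∧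
      ∀ u v, u ≠ v → {u, v} ∈ K → Rep (fun t => ζ (seg (pt u) (pt v) t)) (c u v) := by
  obtain ⟨ζ1, a1, a2, a3⟩ := ext_vert K0 K hfin h0 hd0 hd ζ0 hζ fun _ => Path.refl w0
  have a4 : ∀ v, {v} ∈ K → ζ1 (pt v) = Path.refl w0 := by
    intro v hv
    by_cases h : {v} ∈ K0
    · rw [a2 (Smp_sub_Rl h (pt_mem (by simp))), hζ0 v h]
    · exact a3 v hv h
  obtain ⟨ζ2, b1, b2, b3⟩ := ext_edge K0 K hfin h0 hd0 hd ζ1 a1 (fun u v a => Rep a (c u v))
    (by
      rintro u v a ⟨p, hp, hp'⟩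
      exact ⟨p.symm, fun t => hp _, by rw [cls_symm, hp', hc u v]⟩)
    (by
      intro u v _ huv _
      obtain ⟨p, hp⟩ := cls_surj (c u v)
      exact ⟨p, p.continuous, by rw [a4 u (hd _ huv _ (by simp)), p.source],
        by rw [a4 v (hd _ huv _ (by simp)), p.target], p, fun _ => rfl, hp⟩)
  refine ⟨ζ2, b1, fun v hv => ?_, fun u v huv h => ?_⟩
  · rw [b2 (Smp_sub_Rl (s := {v}) (Or.inr ⟨hv, by simp⟩) (pt_mem (by simp))), a4 v hv]
  · by_cases h' : {u, v} ∈ K0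
    · obtain ⟨p, hp, hp'⟩ := hζ1 u v huv h'
      refine ⟨p, fun t => ?_, hp'⟩
      have m := Smp_sub_Rl h' (seg_pt_mem (u := u) (v := v) t.2.1 t.2.2)
      rw [hp]
      simp only
      rw [b2 (Rl_mono (sub_Sk 1) m), a2 m]
    · exact b3 u v huv h h'

theorem ext_main (K0 K : Set (Finset V)) (hfin : K.Finite) (h0 : K0 ⊆ K) (hd0 : Down K0)
    (hd : Down K) (h3 : ∀ ξ ∈ K, ξ ∉ K0 → ξ.card ≤ 3) (f : (V → ℝ) → W)
    (hf : ContinuousOn f (Rl K)) (s0 : (V → ℝ) → (V → ℝ) × PW w0) (hs0 : ContinuousOn s0 (Rl K0))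
    (hc0 : Carried w0 f K0 s0) (ε : ∀ v : V, Path (f (pt v)) w0) (hε : Fillable K f ε)
    (hε0 : ∀ v, {v} ∈ K0 → ∀ h : (s0 (pt v)).2.1 0 = f (pt v),
      (ofPW (s0 (pt v)).2 h).Homotopic (ε v))
    (h2 : ∀ o : V → V → V → Pi1 (Path.refl w0), ∃ (c : V → V → Pi1 (Path.refl w0))
      (ζ0 : (V → ℝ) → Path w0 w0), (∀ u v, c v u = (c u v)⁻¹) ∧ ContinuousOn ζ0 (Rl K0) ∧
      (∀ v, {v} ∈ K0 → ζ0 (pt v) = Path.refl w0) ∧
      (∀ u v, u ≠ v → {u, v} ∈ K0 → Rep (fun t => ζ0 (seg (pt u) (pt v) t)) (c u v)) ∧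
      ∀ ξ ∈ K, ξ ∉ K0 → ξ.card = 3 →
        ∃ u v w, ξ = {u, v, w} ∧ c u v * c v w = o u v w * c u w) :
    ∃ s : (V → ℝ) → (V → ℝ) × PW w0, ContinuousOn s (Rl K) ∧ Carried w0 f K s ∧
      ∀ v, {v} ∈ K → {v} ∉ K0 → s (pt v) = mu (pt v, toPW (ε v)) (Path.refl w0) := by
  classical
  obtain ⟨s1, a1, a2, a3⟩ := ext_vert K0 K hfin h0 hd0 hd s0 hs0 fun v => (pt v, toPW (ε v))
  have a4 : ∀ v, {v} ∈ K → ∃ p : Path (f (pt v)) w0, s1 (pt v) = (pt v, toPW p) ∧
      p.Homotopic (ε v) := by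
    intro v hv
    by_cases h : {v} ∈ K0
    · have m : pt v ∈ Smp {v} := pt_mem (by simp)
      have m1 := hc0 _ h m
      have e1 : (s0 (pt v)).1 = pt v := eq_pt m1.1
      have e2 : (s0 (pt v)).2.1 0 = f (pt v) := by rw [m1.2, e1]
      refine ⟨ofPW _ e2, ?_, hε0 v h e2⟩
      rw [a2 (Smp_sub_Rl h m)]
      exact Prod.ext e1 rfl
    · exact ⟨ε v, a3 v hv h, Path.Homotopic.refl _⟩
  have a5 : Carried w0 f (Sk K0 K 1) s1 := by
    rintro ξ (hξ | ⟨hξ, hc⟩) x hx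
    · rw [a2 (Smp_sub_Rl hξ hx)]; exact hc0 ξ hξ hx
    · rcases Nat.le_one_iff_eq_zero_or_eq_one.1 hc with h | h
      · rw [Finset.card_eq_zero.1 h, Smp_empty] at hx; exact hx.elim
      · obtain ⟨v, rfl⟩ := Finset.card_eq_one.1 h
        obtain ⟨p, hp, -⟩ := a4 v hξ
        rw [eq_pt hx, hp]
        exact ⟨pt_mem (by simp), p.source⟩
  obtain ⟨s2, b1, b2, b3⟩ := ext_edge K0 K hfin h0 hd0 hd s1 a1
    (fun u v a => ∀ t, a t ∈ EE w0 f (Smp {u, v}))
    (by intro u v a h t; rw [Finset.pair_comm]; exact h _)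
    (by
      intro u v _ huv _
      obtain ⟨p, hp, hp'⟩ := a4 u (hd _ huv _ (by simp))
      obtain ⟨q, hq, hq'⟩ := a4 v (hd _ huv _ (by simp))
      obtain ⟨γ, hγ⟩ := fill (w0 := w0) (hf.mono (Smp_sub_Rl huv)) (pt_mem (v := u) (by simp))
        (pt_mem (v := v) (by simp)) p q (ep hf huv) (fun _ => rfl)
        (hp'.trans ((hε u v huv (ep hf huv) fun _ => rfl).trans
          ((Path.Homotopic.refl _).hcomp hq'.symm)))
      exact ⟨γ, γ.continuous, by rw [hp, γ.source], by rw [hq, γ.target], hγ⟩)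
  have b4 : Carried w0 f (Sk K0 K 2) s2 := by
    intro ξ hξ x hx
    by_cases h : ξ ∈ Sk K0 K 1
    · rw [b2 (Smp_sub_Rl h hx)]; exact a5 ξ h hx
    · obtain ⟨c1, c2, c3⟩ := Sk_new hξ h
      obtain ⟨u, v, huv, rfl⟩ := Finset.card_eq_two.1 c3
      have := b3 u v huv c1 c2 ⟨x v, hx.1 v, le_one_of_mem hx v⟩
      simp only at this
      rwa [← eq_seg huv hx] at this
  have hp2 : ∀ ξ ∈ K, ∀ u ∈ ξ, ∀ v ∈ ξ, ({u, v} : Finset V) ∈ Sk K0 K 2 :=
    fun ξ hξ u hu v hv => Or.inr ⟨hd ξ hξ _ (pair_sub hu hv), Finset.card_le_two⟩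
  have hcont : ∀ ξ ∈ K, ∀ u ∈ ξ, ∀ v ∈ ξ, Continuous fun t : I => s2 (seg (pt u) (pt v) t) :=
    fun ξ hξ u hu v hv => b1.comp_continuous (by fun_prop) fun t =>
      Smp_sub_Rl (hp2 ξ hξ u hu v hv) (seg_pt_mem t.2.1 t.2.2)
  have hmem : ∀ ξ ∈ K, ∀ u ∈ ξ, ∀ v ∈ ξ, ∀ t : I, s2 (seg (pt u) (pt v) t) ∈ EE w0 f (Smp ξ) :=
    fun ξ hξ u hu v hv t => EE_mono (Smp_mono (pair_sub hu hv))
      (b4 _ (hp2 ξ hξ u hu v hv) (seg_pt_mem t.2.1 t.2.2))
  have hobs : ∀ u v w : V, ∃ o : Pi1 (Path.refl w0), ({u, v, w} : Finset V) ∈ K →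
      ∀ ωa ωb ωc : Path (Path.refl w0) (Path.refl w0),
      cls ωa * cls ωb = o * cls ωc → ∃ G : ℝ × ℝ → (V → ℝ) × PW w0, ContinuousOn G Tri ∧
        MapsTo G Tri (EE w0 f (Smp {u, v, w})) ∧
        ∀ t : I, G (t, 0) = mu (s2 (seg (pt u) (pt v) t)) (ωa t) ∧
          G (1 - t, t) = mu (s2 (seg (pt v) (pt w) t)) (ωb t) ∧
          G (0, t) = mu (s2 (seg (pt u) (pt w) t)) (ωc t) := by
    intro u v w
    by_cases h : ({u, v, w} : Finset V) ∈ K
    · obtain ⟨o, ho⟩ := obstruction (w0 := w0) (hf.mono (Smp_sub_Rl h)) _ _ _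
        (hcont _ h u (by simp) v (by simp)) (hcont _ h v (by simp) w (by simp))
        (hcont _ h u (by simp) w (by simp)) (hmem _ h u (by simp) v (by simp))
        (hmem _ h v (by simp) w (by simp)) (hmem _ h u (by simp) w (by simp))
        (by simp) (by simp) (by simp)
      exact ⟨o, fun _ => ho⟩
    · exact ⟨1, fun h' => absurd h' h⟩
  choose o ho using hobs
  obtain ⟨c, ζ0, c1, c2, c3, c4, c5⟩ := h2 o
  obtain ⟨ζ, d1, d2, d3⟩ := ext_loops K0 K hfin h0 hd0 hd c ζ0 c1 c2 c3 c4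
  obtain ⟨s3, e1, e2, e3⟩ := ext_tri K0 K hfin h0 hd0 hd (fun x => mu (s2 x) (ζ x))
    (continuous_mu.comp_continuousOn (b1.prodMk d1)) (fun ξ => EE w0 f (Smp ξ)) (by
      intro ξ hξ hξ0 hc
      obtain ⟨u, v, w, rfl, he⟩ := c5 ξ hξ hξ0 hc
      obtain ⟨n1, n2, n3⟩ := ne_of_card_three hc
      obtain ⟨pa, pa1, pa2⟩ := d3 u v n1 (hd _ hξ _ (pair_sub (by simp) (by simp)))
      obtain ⟨pb, pb1, pb2⟩ := d3 v w n3 (hd _ hξ _ (pair_sub (by simp) (by simp)))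
      obtain ⟨pc, pc1, pc2⟩ := d3 u w n2 (hd _ hξ _ (pair_sub (by simp) (by simp)))
      obtain ⟨G, g1, g2, g3⟩ := ho u v w hξ pa pb pc (by rw [pa2, pb2, pc2]; exact he)
      refine ⟨u, v, w, rfl, G, g1, g2, fun t => ?_⟩
      have := g3 t
      rwa [pa1, pb1, pc1] at this)
  have hK : Sk K0 K 3 = K := by
    refine Subset.antisymm (Sk_sub h0 3) fun ξ hξ => ?_
    by_cases h : ξ ∈ K0
    · exact Or.inl h
    · exact Or.inr ⟨hξ, h3 ξ hξ h⟩
  refine ⟨s3, hK ▸ e1, fun ξ hξ x hx => ?_, fun v hv hv0 => ?_⟩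
  · by_cases h : ξ ∈ Sk K0 K 2
    · rw [e2 (Smp_sub_Rl h hx)]; exact mu_mem (b4 ξ h hx) _
    · obtain ⟨n1, n2, n3⟩ := Sk_new (hK.symm ▸ hξ : ξ ∈ Sk K0 K 3) h
      exact e3 ξ n1 n2 n3 hx
  · have m : pt v ∈ Rl (Sk K0 K 1) := Smp_sub_Rl (s := {v}) (Or.inr ⟨hv, by simp⟩) (pt_mem (by simp))
    rw [e2 (Rl_mono (Sk_succ 1) m)]
    simp only
    rw [b2 m, a3 v hv hv0, d2 v hv]

/-- Maps from a two-dimensional complex without second cohomology are null-homotopic as soon as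
the edges can be filled. -/
theorem null_of_fillable (K : Set (Finset V)) (hfin : K.Finite) (he : ∅ ∈ K) (hd : Down K)
    (h3 : ∀ ξ ∈ K, ξ.card ≤ 3) (hH : H2 K) (f : (V → ℝ) → W) (hf : ContinuousOn f (Rl K))
    (ε : ∀ v : V, Path (f (pt v)) w0) (hε : Fillable K f ε) :
    ∃ H : (V → ℝ) → PW w0, ContinuousOn H (Rl K) ∧ (∀ x ∈ Rl K, (H x).1 0 = f x) ∧
      ∀ v, {v} ∈ K → ∀ h : (H (pt v)).1 0 = f (pt v), (ofPW (H (pt v)) h).Homotopic (ε v) := by
  have hne : ∀ v : V, ({v} : Finset V) ∉ ({∅} : Set (Finset V)) := fun v h => by simp at h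
  obtain ⟨s, h1, h2, h4⟩ := ext_main {∅} K hfin (by simpa using he)
    (fun s hs t ht => by
      rw [Set.mem_singleton_iff] at hs ⊢
      subst hs; exact Finset.subset_empty.1 ht) hd (fun ξ hξ _ => h3 ξ hξ) f hf
    (fun _ => (0, toPW (Path.refl w0))) continuousOn_const
    (fun ξ hξ x hx => by
      rw [Set.mem_singleton_iff.1 hξ, Smp_empty] at hx; exact hx.elim) ε hε
    (fun v hv => absurd hv (hne v)) (by
      intro o
      obtain ⟨c, c1, c2⟩ := hH (Pi1 (Path.refl w0)) o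
      exact ⟨c, fun _ => Path.refl w0, c1, continuousOn_const, fun _ _ => rfl,
        fun u v _ h => by simp at h, fun ξ hξ _ hc => c2 ξ hξ hc⟩)
  obtain ⟨H, g1, g2⟩ := straighten hf h1 h2
  refine ⟨H, g1, fun x hx => ?_, fun v hv h => ?_⟩
  · rw [g2 x hx, if_pos (by norm_num)]; simp
  · have : ofPW (H (pt v)) h = (Path.refl _).trans ((ε v).trans (Path.refl w0)) := by
      ext t
      change (H (pt v)).1 t = _
      rw [g2 _ (Smp_sub_Rl hv (pt_mem (by simp))), h4 v hv (hne v), trans_pj]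
      split_ifs
      · simp [mu]
      · rw [trans_pj]; rfl
    rw [this]
    exact (Path.Homotopic.refl_trans _).trans (Path.Homotopic.trans_refl _)

end H432Z
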