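import Pool.Agent.H520Z.Sel.Defs4
import Pool.Agent.Helper242.RK.Int5
import Pool.Agent.Helper242.KK.Gam2

set_option autoImplicit false

namespace Pool.Agent.H520Z.Sel

open MeasureTheory Set Filter Topology

namespace GamRB

open Complex

/-- The Stirling weight. -/
noncomputable def W (x v : ℝ) : ℝ := (1 + |v|) ^ (x - 1 / 2) * Real.exp (-(Real.pi / 2 * |v|))

theorem W_pos (x v : ℝ) : 0 < W x v := by unfold W; positivity

theorem up_far (n : ℕ) : ∀ x : ℝ, 1 / 2 - n ≤ x → ∃ C : ℝ, 0 < C ∧ ∀ v : ℝ, 1 ≤ |v| →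
    ‖Gamma ((x : ℂ) + v * I)‖ ≤ C * W x v := by
  induction n with
  | zero =>
    intro x hx
    obtain ⟨C, hC, h⟩ := Pool.Agent.Helper242.RK.Gamma_upper (σ := x) (by simpa using hx)
    exact ⟨C, hC, fun v _ => by unfold W; rw [← mul_assoc]; exact h v⟩
  | succ n ih =>
    intro x hx
    obtain ⟨C, hC, h⟩ := ih (x + 1) (by push_cast at hx; linarith)
    refine ⟨2 * C, by positivity, fun v hv => ?_⟩
    have h1 := h v hv
    have hz : ‖(x : ℂ) + v * I‖ ≥ |v| := by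
      have := Complex.abs_im_le_norm ((x : ℂ) + v * I)
      simpa using this
    have hz0 : (x : ℂ) + v * I ≠ 0 := by
      intro h0; rw [h0, norm_zero] at hz; linarith
    have h2 : (((x + 1 : ℝ) : ℂ) + v * I) = ((x : ℂ) + v * I) + 1 := by push_cast; ring
    rw [h2, Gamma_add_one _ hz0, norm_mul] at h1
    have h3 : W (x + 1) v = (1 + |v|) * W x v := by
      unfold W
      rw [show x + 1 - 1 / 2 = 1 + (x - 1 / 2) by ring, Real.rpow_add (by positivity), Real.rpow_one]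
      ring
    rw [h3] at h1
    have h4 := W_pos x v
    have h5 := norm_nonneg (Gamma ((x : ℂ) + v * I))
    have h6 : |v| * ‖Gamma ((x : ℂ) + v * I)‖ ≤ |v| * (2 * C * W x v) := by
      have h7 : |v| * ‖Gamma ((x : ℂ) + v * I)‖ ≤ C * ((1 + |v|) * W x v) :=
        le_trans (mul_le_mul_of_nonneg_right hz h5) h1
      have h8 : C * ((1 + |v|) * W x v) ≤ C * ((2 * |v|) * W x v) := by gcongr; linarith
      nlinarith
    exact le_of_mul_le_mul_left h6 (by linarith)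

theorem up_far' (x : ℝ) : ∃ C : ℝ, 0 < C ∧ ∀ v : ℝ, 1 ≤ |v| →
    ‖Gamma ((x : ℂ) + v * I)‖ ≤ C * W x v := by
  obtain ⟨n, hn⟩ := exists_nat_ge (1 / 2 - x)
  exact up_far n x (by linarith)

theorem sin_le (z : ℂ) : ‖Complex.sin z‖ ≤ Real.exp |z.im| := by
  have := Pool.Agent.Helper242.KK.ig_cos_bound (Real.pi / 2 - z)
  rw [show ((Real.pi : ℂ) / 2 - z) = (Real.pi : ℂ) / 2 - z from rfl, Complex.cos_pi_div_two_sub] at this
  simpa using this

theorem low_far (x : ℝ) : ∃ C : ℝ, 0 < C ∧ ∀ v : ℝ, 1 ≤ |v| →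
    W x v ≤ C * ‖Gamma ((x : ℂ) + v * I)‖ := by
  obtain ⟨C, hC, h⟩ := up_far' (1 - x)
  refine ⟨C, hC, fun v hv => ?_⟩
  have h1 := h (-v) (by rwa [abs_neg])
  have h2 : (((1 - x : ℝ) : ℂ) + ((-v : ℝ) : ℂ) * I) = 1 - ((x : ℂ) + v * I) := by push_cast; ring
  rw [h2] at h1
  set z : ℂ := (x : ℂ) + v * I with hz
  have h3 := Complex.Gamma_mul_Gamma_one_sub z
  have hs : Complex.sin (Real.pi * z) ≠ 0 := by
    intro h0
    rw [Complex.sin_eq_zero_iff] at h0
    obtain ⟨k, hk⟩ := h0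
    have h4 := congrArg Complex.im hk
    simp [hz] at h4
    rw [h4] at hv
    simp at hv
    linarith
  have h4 : ‖Gamma z‖ * ‖Gamma (1 - z)‖ * ‖Complex.sin (Real.pi * z)‖ = Real.pi := by
    rw [← norm_mul, ← norm_mul, h3, div_mul_cancel₀ _ hs]
    simp [abs_of_pos Real.pi_pos]
  have h5 : ‖Complex.sin (Real.pi * z)‖ ≤ Real.exp (Real.pi * |v|) := by
    have := sin_le (Real.pi * z)
    have h6 : ((Real.pi : ℂ) * z).im = Real.pi * v := by simp [hz]
    rwa [h6, abs_mul, abs_of_pos Real.pi_pos] at this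
  have h6 : W x v * (W (1 - x) (-v) * Real.exp (Real.pi * |v|)) = 1 := by
    unfold W
    rw [abs_neg]
    have e1 : (1 + |v|) ^ (x - 1 / 2) * (1 + |v|) ^ (1 - x - 1 / 2) = 1 := by
      rw [← Real.rpow_add (by positivity)]
      rw [show x - 1 / 2 + (1 - x - 1 / 2) = 0 by ring, Real.rpow_zero]
    have e2 : Real.exp (-(Real.pi / 2 * |v|)) * Real.exp (-(Real.pi / 2 * |v|)) *
        Real.exp (Real.pi * |v|) = 1 := by
      rw [← Real.exp_add, ← Real.exp_add]
      rw [show -(Real.pi / 2 * |v|) + -(Real.pi / 2 * |v|) + Real.pi * |v| = 0 by ring, Real.exp_zero]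
    calc _ = ((1 + |v|) ^ (x - 1 / 2) * (1 + |v|) ^ (1 - x - 1 / 2)) *
        (Real.exp (-(Real.pi / 2 * |v|)) * Real.exp (-(Real.pi / 2 * |v|)) *
        Real.exp (Real.pi * |v|)) := by ring
      _ = 1 := by rw [e1, e2, one_mul]
  have h7 : (1 : ℝ) ≤ ‖Gamma z‖ * (C * W (1 - x) (-v)) * Real.exp (Real.pi * |v|) := by
    have := Real.pi_gt_three
    calc (1 : ℝ) ≤ Real.pi := by linarith
      _ = ‖Gamma z‖ * ‖Gamma (1 - z)‖ * ‖Complex.sin (Real.pi * z)‖ := h4.symm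
      _ ≤ _ := by
        have := (W_pos (1 - x) (-v)).le
        gcongr
  have h8 := W_pos x v
  calc W x v = W x v * 1 := by ring
    _ ≤ W x v * (‖Gamma z‖ * (C * W (1 - x) (-v)) * Real.exp (Real.pi * |v|)) := by gcongr
    _ = C * ‖Gamma z‖ * (W x v * (W (1 - x) (-v) * Real.exp (Real.pi * |v|))) := by ring
    _ = _ := by rw [h6, mul_one]

theorem two_sided {x : ℝ} (hx : 0 < x) : ∃ C : ℝ, 0 < C ∧ ∀ v : ℝ,
    ‖Gamma ((x : ℂ) + v * I)‖ ≤ C * W x v ∧ W x v ≤ C * ‖Gamma ((x : ℂ) + v * I)‖ := by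
  obtain ⟨C1, hC1, h1⟩ := up_far' x
  obtain ⟨C2, hC2, h2⟩ := low_far x
  have hG : Continuous fun v : ℝ => ‖Gamma ((x : ℂ) + v * I)‖ := by
    refine continuous_iff_continuousAt.2 fun v => ContinuousAt.norm ?_
    refine ContinuousAt.comp (f := fun v : ℝ => (x : ℂ) + v * I) (g := Gamma) ?_ (by fun_prop)
    refine (Complex.differentiableAt_Gamma _ fun m h => ?_).continuousAt
    have := congrArg Complex.re h
    simp at this
    have : (0 : ℝ) ≤ m := Nat.cast_nonneg m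
    linarith
  have hG0 : ∀ v : ℝ, 0 < ‖Gamma ((x : ℂ) + v * I)‖ := fun v =>
    norm_pos_iff.2 (Complex.Gamma_ne_zero_of_re_pos (by simpa using hx))
  have hW : Continuous (W x) := by
    unfold W
    refine Continuous.mul (Continuous.rpow_const (by fun_prop) fun v => Or.inl ?_) (by fun_prop)
    positivity
  obtain ⟨C3, h3⟩ := (isCompact_Icc (a := (-1 : ℝ)) (b := 1)).exists_bound_of_continuousOn
    (hG.div hW fun v => (W_pos x v).ne').continuousOn
  obtain ⟨C4, h4⟩ := (isCompact_Icc (a := (-1 : ℝ)) (b := 1)).exists_bound_of_continuousOn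
    (hW.div hG fun v => (hG0 v).ne').continuousOn
  refine ⟨C1 + C2 + |C3| + |C4|, by positivity, fun v => ?_⟩
  have a1 := W_pos x v
  have a2 := hG0 v
  have a3 := abs_nonneg C3
  have a4 := abs_nonneg C4
  rcases le_total 1 |v| with hv | hv
  · refine ⟨(h1 v hv).trans ?_, (h2 v hv).trans ?_⟩ <;> gcongr <;> linarith
  · have hm : v ∈ Icc (-1 : ℝ) 1 := abs_le.1 hv
    have b3 := (le_abs_self _).trans ((h3 v hm).trans (le_abs_self C3))
    have b4 := (le_abs_self _).trans ((h4 v hm).trans (le_abs_self C4))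
    simp only [Pi.div_apply] at b3 b4
    rw [div_le_iff₀ a1] at b3
    rw [div_le_iff₀ a2] at b4
    refine ⟨b3.trans ?_, b4.trans ?_⟩ <;> gcongr <;> linarith

theorem rpow_cmp {a b : ℝ} (ha : 0 < a) (hb : 0 < b) (h1 : a ≤ 2 * b) (h2 : b ≤ 2 * a) (e : ℝ) :
    a ^ e ≤ 2 ^ |e| * b ^ e := by
  rcases le_total 0 e with he | he
  · rw [abs_of_nonneg he, ← Real.mul_rpow (by norm_num) hb.le]
    exact Real.rpow_le_rpow ha.le h1 he
  · rw [abs_of_nonpos he]
    have h3 : (2 * a) ^ e ≤ b ^ e := Real.rpow_le_rpow_of_nonpos hb h2 he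
    rw [Real.mul_rpow (by norm_num) ha.le] at h3
    have h4 : (2 : ℝ) ^ (-e) * 2 ^ e = 1 := by
      rw [← Real.rpow_add (by norm_num)]; simp
    calc a ^ e = (2 : ℝ) ^ (-e) * (2 ^ e * a ^ e) := by rw [← mul_assoc, h4, one_mul]
      _ ≤ _ := by gcongr

theorem norm_GR (x t : ℝ) : ‖Gammaℝ ((x : ℂ) + t * I)‖ =
    Real.pi ^ (-(x / 2)) * ‖Gamma (((x / 2 : ℝ) : ℂ) + ((t / 2 : ℝ) : ℂ) * I)‖ := by
  rw [Gammaℝ_def, norm_mul, Complex.norm_cpow_eq_rpow_re_of_pos Real.pi_pos]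
  congr 2
  · simp [neg_div]
  · congr 1
    push_cast; ring

theorem GR_two {x : ℝ} (hx : 0 < x) : ∃ C : ℝ, 0 < C ∧ ∀ t : ℝ,
    ‖Gammaℝ ((x : ℂ) + t * I)‖ ≤
      C * ((1 + |t|) ^ ((x - 1) / 2) * Real.exp (-(Real.pi / 4 * |t|))) ∧
    (1 + |t|) ^ ((x - 1) / 2) * Real.exp (-(Real.pi / 4 * |t|)) ≤
      C * ‖Gammaℝ ((x : ℂ) + t * I)‖ := by
  obtain ⟨C, hC, h⟩ := two_sided (x := x / 2) (by positivity)
  have hp : 0 < Real.pi ^ (-(x / 2)) := by positivity
  have hq : 0 < Real.pi ^ (x / 2) := by positivity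
  have hpq : Real.pi ^ (x / 2) * Real.pi ^ (-(x / 2)) = 1 := by
    rw [← Real.rpow_add Real.pi_pos]; simp
  refine ⟨C * 2 ^ |(x - 1) / 2| * (Real.pi ^ (-(x / 2)) + Real.pi ^ (x / 2)), by positivity,
    fun t => ?_⟩
  obtain ⟨h1, h2⟩ := h (t / 2)
  rw [norm_GR]
  have e1 : W (x / 2) (t / 2) = (1 + |t| / 2) ^ ((x - 1) / 2) * Real.exp (-(Real.pi / 4 * |t|)) := by
    unfold W
    rw [abs_div, abs_two]
    congr 2 <;> ring
  rw [e1] at h1 h2
  have ht := abs_nonneg t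
  have c1 := rpow_cmp (a := 1 + |t| / 2) (b := 1 + |t|) (by positivity) (by positivity)
    (by linarith) (by linarith) ((x - 1) / 2)
  have c2 := rpow_cmp (a := 1 + |t|) (b := 1 + |t| / 2) (by positivity) (by positivity)
    (by linarith) (by linarith) ((x - 1) / 2)
  set G := ‖Gamma (((x / 2 : ℝ) : ℂ) + ((t / 2 : ℝ) : ℂ) * I)‖ with hG
  have hG0 : 0 ≤ G := norm_nonneg _
  set E := Real.exp (-(Real.pi / 4 * |t|)) with hE
  have hE0 : 0 < E := Real.exp_pos _
  set A := (1 + |t| / 2) ^ ((x - 1) / 2) with hA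
  set B := (1 + |t|) ^ ((x - 1) / 2) with hB
  have hB0 : 0 < B := by positivity
  set T := (2 : ℝ) ^ |(x - 1) / 2| with hT
  have hT0 : 0 < T := by positivity
  set P := Real.pi ^ (-(x / 2))
  set Q := Real.pi ^ (x / 2)
  constructor
  · calc P * G ≤ P * (C * (A * E)) := by gcongr
      _ ≤ P * (C * ((T * B) * E)) := by gcongr
      _ = C * T * P * (B * E) := by ring
      _ ≤ _ := by gcongr; linarith
  · calc B * E ≤ (T * A) * E := by gcongr
      _ = T * (A * E) := by ring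
      _ ≤ T * (C * G) := by gcongr
      _ = C * T * Q * (P * G) := by
        rw [show C * T * Q * (P * G) = C * T * (Q * P) * G by ring, hpq]; ring
      _ ≤ _ := by gcongr; linarith

theorem GR_strip (a b : ℝ) (ha : 0 < a) : ∃ K : ℝ, 0 < K ∧ ∀ x t : ℝ, a ≤ x → x ≤ b →
    ‖Gammaℝ ((x : ℂ) + t * I)‖ ≤ K / (1 + |t|) ^ 3 ∧
    ‖(Gammaℝ ((x : ℂ) + t * I))⁻¹‖ ≤ K * Real.exp (2 * (1 + |t|)) := by
  have hcont : ContinuousOn Real.Gamma (Icc (a / 2) (b / 2)) := by
    intro y hy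
    refine (Real.differentiableAt_Gamma fun m h => ?_).continuousAt.continuousWithinAt
    have : (0 : ℝ) ≤ m := Nat.cast_nonneg m
    linarith [hy.1]
  obtain ⟨G, hG⟩ := isCompact_Icc.exists_bound_of_continuousOn hcont
  obtain ⟨N, hN⟩ := exists_nat_ge (b / 2)
  obtain ⟨C, hC, hinv⟩ := Pool.Agent.Helper242.KK.inv_Gamma_bound (ε := 1) one_pos
  have hpi := Real.pi_gt_three
  have hpi4 := Real.pi_lt_four
  refine ⟨Real.exp 2 * (|G| + 1) * 2 ^ N * ((N + 3).factorial * 2 ^ (N + 3)) +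
    Real.pi ^ N * C * Real.exp ((N : ℝ) ^ 2), by positivity, fun x t h1 h2 => ?_⟩
  have ht := abs_nonneg t
  have hx : 0 < x / 2 := by linarith
  have hxN : x / 2 ≤ N := by linarith
  constructor
  · rw [norm_GR, le_div_iff₀ (by positivity)]
    have b1 := Pool.Agent.Helper242.KK.norm_Gamma_le (t / 2) hx
    rw [abs_div, abs_two] at b1
    have b2 : Real.pi ^ (-(x / 2)) ≤ 1 :=
      Real.rpow_le_one_of_one_le_of_nonpos (by linarith) (by linarith)
    have b3 : Real.Gamma (x / 2) ≤ |G| + 1 := by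
      have := (le_abs_self _).trans ((hG (x / 2) ⟨by linarith, by linarith⟩).trans (le_abs_self G))
      linarith
    have b4 : (Real.pi / 2 * (1 + |t| / 2)) ^ (x / 2) ≤ 2 ^ N * (1 + |t|) ^ N := by
      rw [← mul_pow, ← Real.rpow_natCast]
      calc (Real.pi / 2 * (1 + |t| / 2)) ^ (x / 2) ≤ (2 * (1 + |t|)) ^ (x / 2) :=
            Real.rpow_le_rpow (by positivity) (by nlinarith) hx.le
        _ ≤ _ := Real.rpow_le_rpow_of_exponent_le (by linarith) hxN
    have b5 : (1 + |t|) ^ (N + 3) ≤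
        ((N + 3).factorial * 2 ^ (N + 3)) * Real.exp ((1 + |t|) / 2) := by
      have := Real.pow_div_factorial_le_exp ((1 + |t|) / 2) (by positivity) (N + 3)
      rw [div_le_iff₀ (by positivity), div_pow, div_le_iff₀ (by positivity)] at this
      linarith
    have b6 : Real.exp (1 - Real.pi / 2 * (|t| / 2)) * Real.exp ((1 + |t|) / 2) ≤ Real.exp 2 := by
      rw [← Real.exp_add]
      exact Real.exp_le_exp.2 (by nlinarith)
    have b7 : 0 < Real.Gamma (x / 2) := Real.Gamma_pos_of_pos hx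
    calc Real.pi ^ (-(x / 2)) * ‖Gamma (((x / 2 : ℝ) : ℂ) + ((t / 2 : ℝ) : ℂ) * I)‖ * (1 + |t|) ^ 3
        ≤ 1 * (Real.exp (1 - Real.pi / 2 * (|t| / 2)) * (|G| + 1) * (2 ^ N * (1 + |t|) ^ N)) *
          (1 + |t|) ^ 3 := by
          gcongr
          refine b1.trans ?_
          gcongr
      _ = Real.exp (1 - Real.pi / 2 * (|t| / 2)) * (|G| + 1) * 2 ^ N * (1 + |t|) ^ (N + 3) := by
          ring
      _ ≤ Real.exp (1 - Real.pi / 2 * (|t| / 2)) * (|G| + 1) * 2 ^ N *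
          (((N + 3).factorial * 2 ^ (N + 3)) * Real.exp ((1 + |t|) / 2)) := by gcongr
      _ = (Real.exp (1 - Real.pi / 2 * (|t| / 2)) * Real.exp ((1 + |t|) / 2)) * (|G| + 1) * 2 ^ N *
          ((N + 3).factorial * 2 ^ (N + 3)) := by ring
      _ ≤ Real.exp 2 * (|G| + 1) * 2 ^ N * ((N + 3).factorial * 2 ^ (N + 3)) := by gcongr
      _ ≤ _ := le_add_of_nonneg_right (by positivity)
  · rw [norm_inv, norm_GR, mul_inv, ← norm_inv, ← Real.rpow_neg Real.pi_pos.le, neg_neg]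
    have b1 := hinv (x / 2) (t / 2)
    rw [abs_div, abs_two] at b1
    have b2 : Real.pi ^ (x / 2) ≤ Real.pi ^ N := by
      rw [← Real.rpow_natCast]
      exact Real.rpow_le_rpow_of_exponent_le (by linarith) hxN
    have b3 : Real.exp (1 * (x / 2) ^ 2) ≤ Real.exp ((N : ℝ) ^ 2) :=
      Real.exp_le_exp.2 (by nlinarith)
    have b4 : (1 + |t| / 2) ^ (2 - x / 2) ≤ Real.exp |t| := by
      calc (1 + |t| / 2) ^ (2 - x / 2) ≤ (1 + |t| / 2) ^ (2 : ℝ) :=
            Real.rpow_le_rpow_of_exponent_le (by linarith) (by linarith)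
        _ ≤ (Real.exp (|t| / 2)) ^ (2 : ℝ) :=
            Real.rpow_le_rpow (by positivity) (by linarith [Real.add_one_le_exp (|t| / 2)])
              (by norm_num)
        _ = Real.exp |t| := by rw [← Real.exp_mul]; congr 1; ring
    have b5 : Real.exp |t| * Real.exp (Real.pi / 2 * (|t| / 2)) ≤ Real.exp (2 * (1 + |t|)) := by
      rw [← Real.exp_add]
      exact Real.exp_le_exp.2 (by nlinarith)
    calc Real.pi ^ (x / 2) * ‖(Gamma (((x / 2 : ℝ) : ℂ) + ((t / 2 : ℝ) : ℂ) * I))⁻¹‖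
        ≤ Real.pi ^ N * (C * Real.exp ((N : ℝ) ^ 2) * Real.exp |t| *
          Real.exp (Real.pi / 2 * (|t| / 2))) := by
          gcongr
          refine b1.trans ?_
          gcongr
      _ = Real.pi ^ N * C * Real.exp ((N : ℝ) ^ 2) *
          (Real.exp |t| * Real.exp (Real.pi / 2 * (|t| / 2))) := by ring
      _ ≤ Real.pi ^ N * C * Real.exp ((N : ℝ) ^ 2) * Real.exp (2 * (1 + |t|)) := by gcongr
      _ ≤ _ := by
          gcongr
          exact le_add_of_nonneg_left (by positivity)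

end GamRB

theorem gamR_bounds {m : ℕ} (hm : 1 ≤ m) (μ : Fin m → ℝ) (hμ : ∀ j, μ j ≤ 0) :
    (∀ σ : ℝ, 0 < σ → ∃ C : ℝ, 0 < C ∧ ∀ t : ℝ,
      ‖gamR μ (σ + t * Complex.I)‖ ≤
        C * ((1 + |t|) ^ ((m * σ - ∑ j, μ j - m) / 2) * Real.exp (-(Real.pi * m / 4 * |t|))) ∧
      (1 + |t|) ^ ((m * σ - ∑ j, μ j - m) / 2) * Real.exp (-(Real.pi * m / 4 * |t|)) ≤
        C * ‖gamR μ (σ + t * Complex.I)‖) ∧
    (∀ a b : ℝ, 0 < a → ∃ K : ℝ, ∀ s : ℂ, a ≤ s.re → s.re ≤ b →
      ‖gamR μ s‖ ≤ K / (1 + |s.im|) ^ 3 ∧ ‖(gamR μ s)⁻¹‖ ≤ K * Real.exp (K * (1 + |s.im|))) ∧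
    DifferentiableOn ℂ (gamR μ) {s : ℂ | 0 < s.re} ∧ Differentiable ℂ (fun s => (gamR μ s)⁻¹) ∧
    (∀ s : ℂ, 0 < s.re → gamR μ s ≠ 0) ∧
    ∀ s : ℂ, gamR μ (starRingEnd ℂ s) = starRingEnd ℂ (gamR μ s) := by
  have hne : ∀ s : ℂ, 0 < s.re → gamR μ s ≠ 0 := by
    intro s hs
    refine Finset.prod_ne_zero_iff.2 fun j _ => Complex.Gammaℝ_ne_zero_of_re_pos ?_
    have := hμ j
    simp
    linarith
  have hinv : Differentiable ℂ (fun s => (gamR μ s)⁻¹) := by
    have : (fun s => (gamR μ s)⁻¹) = fun s => ∏ j, (Complex.Gammaℝ (s - (μ j : ℂ)))⁻¹ := by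
      funext s; rw [gamR, Finset.prod_inv_distrib]
    rw [this]
    refine Differentiable.fun_finset_prod fun j _ => ?_
    exact Complex.differentiable_Gammaℝ_inv.comp (differentiable_id.sub_const _)
  have hsub : ∀ (σ t : ℝ) (j : Fin m), (σ : ℂ) + t * Complex.I - (μ j : ℂ) =
      ((σ - μ j : ℝ) : ℂ) + t * Complex.I := by
    intro σ t j; push_cast; ring
  refine ⟨?_, ?_, ?_, hinv, hne, ?_⟩
  · intro σ hσ
    choose C hC h using fun j => GamRB.GR_two (x := σ - μ j) (by linarith [hμ j])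
    refine ⟨∏ j, C j, Finset.prod_pos fun j _ => hC j, fun t => ?_⟩
    have e : (1 + |t|) ^ ((m * σ - ∑ j, μ j - m) / 2) * Real.exp (-(Real.pi * m / 4 * |t|)) =
        ∏ j, ((1 + |t|) ^ ((σ - μ j - 1) / 2) * Real.exp (-(Real.pi / 4 * |t|))) := by
      rw [Finset.prod_mul_distrib, ← Real.rpow_sum_of_pos (by positivity), ← Real.exp_sum]
      congr 2
      · rw [← Finset.sum_div, Finset.sum_sub_distrib, Finset.sum_sub_distrib]
        simp
      · simp; ring
    rw [e, gamR, norm_prod, ← Finset.prod_mul_distrib, ← Finset.prod_mul_distrib]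
    constructor
    · refine Finset.prod_le_prod (fun j _ => norm_nonneg _) fun j _ => ?_
      rw [hsub]; exact (h j t).1
    · refine Finset.prod_le_prod (fun j _ => by positivity) fun j _ => ?_
      rw [hsub]; exact (h j t).2
  · intro a b ha
    choose K hK h using fun j => GamRB.GR_strip a (b - μ j) ha
    have hP : 0 < ∏ j, K j := Finset.prod_pos fun j _ => hK j
    refine ⟨∏ j, K j + 2 * m, fun s h1 h2 => ?_⟩
    have hs : s = (s.re : ℂ) + s.im * Complex.I := (Complex.re_add_im s).symm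
    have ht := abs_nonneg s.im
    have hh : ∀ j, ‖Complex.Gammaℝ (s - (μ j : ℂ))‖ ≤ K j / (1 + |s.im|) ^ 3 ∧
        ‖(Complex.Gammaℝ (s - (μ j : ℂ)))⁻¹‖ ≤ K j * Real.exp (2 * (1 + |s.im|)) := by
      intro j
      have := h j (s.re - μ j) s.im (by linarith [hμ j]) (by linarith)
      rwa [← hsub, ← hs] at this
    constructor
    · rw [gamR, norm_prod]
      calc ∏ j, ‖Complex.Gammaℝ (s - (μ j : ℂ))‖ ≤ ∏ j, K j / (1 + |s.im|) ^ 3 :=
            Finset.prod_le_prod (fun j _ => norm_nonneg _) fun j _ => (hh j).1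
        _ = (∏ j, K j) / ((1 + |s.im|) ^ 3) ^ m := by
            rw [Finset.prod_div_distrib]; simp
        _ ≤ (∏ j, K j) / (1 + |s.im|) ^ 3 := by
            refine div_le_div_of_nonneg_left hP.le (by positivity) ?_
            exact le_self_pow₀ (one_le_pow₀ (by linarith)) (by omega)
        _ ≤ _ := by gcongr; exact le_add_of_nonneg_right (by positivity)
    · rw [gamR, ← Finset.prod_inv_distrib, norm_prod]
      calc ∏ j, ‖(Complex.Gammaℝ (s - (μ j : ℂ)))⁻¹‖ ≤ ∏ j, K j * Real.exp (2 * (1 + |s.im|)) :=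
            Finset.prod_le_prod (fun j _ => norm_nonneg _) fun j _ => (hh j).2
        _ = (∏ j, K j) * Real.exp (2 * m * (1 + |s.im|)) := by
            rw [Finset.prod_mul_distrib, ← Real.exp_sum]
            congr 2
            simp; ring
        _ ≤ _ := by
            gcongr
            · exact le_add_of_nonneg_right (by positivity)
            · exact le_add_of_nonneg_left hP.le
  · intro s hs
    have h1 : DifferentiableAt ℂ (fun s => ((gamR μ s)⁻¹)⁻¹) s :=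
      (hinv s).inv (inv_ne_zero (hne s hs))
    simp only [inv_inv] at h1
    exact h1.differentiableWithinAt
  · intro s
    rw [gamR, gamR, map_prod]
    refine Finset.prod_congr rfl fun j _ => ?_
    rw [Complex.Gammaℝ_def, Complex.Gammaℝ_def, map_mul, ← Complex.Gamma_conj]
    congr 1
    · have h1 := Complex.cpow_conj (Real.pi : ℂ) (-(s - (μ j : ℂ)) / 2) (by
        rw [Complex.arg_ofReal_of_nonneg Real.pi_pos.le]; exact Real.pi_pos.ne)
      rw [Complex.conj_ofReal] at h1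
      rw [← h1]
      congr 1
      simp [map_ofNat]
    · congr 1
      simp [map_ofNat]

end Pool.Agent.H520Z.Sel
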