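import Mathlib

set_option autoImplicit false

/-! Existence of HNN extensions and amalgams, with a free subgroup of rank two. -/

namespace H432Z

open Function

/-- The sign of a letter. -/
def sgU (ε : Bool) : ℤˣ := cond ε 1 (-1)

/-- Syllables of a word in two letters. -/
def conv : List (Bool × Bool) → ℤ × List (ℤˣ × ℤ)
  | [] => (0, [])
  | (true, ε) :: L => (sgU ε + (conv L).1, (conv L).2)
  | (false, ε) :: L => (0, (sgU ε, (conv L).1) :: (conv L).2)

theorem conv_prod {K K' : Type} [Group K] [Group K'] (i : K →* K') (d : K) (t : K')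
    (L : List (Bool × Bool)) : FreeGroup.lift (fun b : Bool => cond b (i d) t) (FreeGroup.mk L) =
      i (d ^ (conv L).1) * (((conv L).2.map fun x => (x.1, d ^ x.2)).map
        fun x => t ^ (x.1 : ℤ) * i x.2).prod := by
  induction L with
  | nil => simp [conv]
  | cons x L ih =>
    rw [← List.singleton_append, ← FreeGroup.mul_mk, map_mul, ih]
    rcases x with ⟨_ | _, _ | _⟩ <;> simp [conv, sgU, zpow_add, mul_assoc]

theorem conv_inv (L : List (Bool × Bool)) (h : FreeGroup.IsReduced L) :
    (conv L).2.IsChain (fun a b => a.2 = 0 → a.1 = b.1) ∧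
      (∀ ε L', L = (true, ε) :: L' → 0 < (sgU ε : ℤ) * (conv L).1) := by
  induction L with
  | nil => simp [conv]
  | cons x L ih =>
    have h' : FreeGroup.IsReduced L := List.IsChain.tail h
    obtain ⟨a1, a2⟩ := ih h'
    rcases x with ⟨_ | _, ε⟩
    · refine ⟨?_, by simp⟩
      simp only [conv]
      rcases L with _ | ⟨⟨_ | _, ε'⟩, L⟩
      · simp [conv]
      · have := (FreeGroup.isReduced_cons_cons.1 h).1 rfl
        simp only at this
        subst this
        simp only [conv] at a1 ⊢
        exact List.IsChain.cons_cons (fun _ => rfl) a1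
      · have := a2 ε' L rfl
        refine List.IsChain.cons a1 fun y _ h0 => ?_
        simp only at h0
        rw [h0] at this
        simp at this
    · refine ⟨a1, ?_⟩
      rintro ε' L' h0
      obtain ⟨rfl, rfl⟩ : ε = ε' ∧ L = L' := by simpa using h0
      have e : (sgU ε : ℤ) * sgU ε = 1 := by cases ε <;> simp [sgU]
      simp only [conv, mul_add, e]
      rcases L with _ | ⟨⟨_ | _, ε'⟩, L⟩
      · simp [conv]
      · simp [conv]
      · have := (FreeGroup.isReduced_cons_cons.1 h).1 rfl
        simp only at this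
        subst this
        have := a2 ε L rfl
        omega

theorem hnn {K H : Type} [Group K] [Group H] (α β : H →* K) (hα : Injective α)
    (hβ : Injective β) : ∃ (K' : Type) (_ : Group K') (i : K →* K') (t : K'), Injective i ∧
      (∀ h, t * i (α h) * t⁻¹ = i (β h)) ∧
      ∀ d : K, (∀ n : ℤ, n ≠ 0 → d ^ n ∉ α.range ∧ d ^ n ∉ β.range) →
        Injective (FreeGroup.lift fun b : Bool => cond b (i d) t) := by
  let φ : α.range ≃* β.range := (MonoidHom.ofInjective hα).symm.trans (MonoidHom.ofInjective hβ)
  refine ⟨HNNExtension K α.range β.range φ, inferInstance, HNNExtension.of, HNNExtension.t,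
    HNNExtension.of_injective φ, fun h => ?_, fun d hd => ?_⟩
  · have := HNNExtension.equiv_eq_conj (φ := φ) (MonoidHom.ofInjective hα h)
    rw [MonoidHom.ofInjective_apply] at this
    rw [← this]
    simp [φ, MonoidHom.ofInjective_apply]
  · rw [injective_iff_map_eq_one]
    intro x hx
    have hr := FreeGroup.isReduced_toWord (x := x)
    rw [← FreeGroup.mk_toWord (x := x)] at hx ⊢
    generalize x.toWord = L at hx hr
    obtain ⟨a1, a2⟩ := conv_inv L hr
    rw [conv_prod] at hx
    let w : HNNExtension.NormalWord.ReducedWord K α.range β.range :=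
      ⟨d ^ (conv L).1, (conv L).2.map fun x => (x.1, d ^ x.2), by
        rw [List.isChain_map]
        refine a1.imp fun a b h h' => h ?_
        by_contra hn
        rcases Int.units_eq_one_or a.1 with e | e
        · simp only [e, HNNExtension.toSubgroup_one] at h'; exact (hd _ hn).1 h'
        · simp only [e, HNNExtension.toSubgroup_neg_one] at h'; exact (hd _ hn).2 h'⟩
    have h1 := HNNExtension.ReducedWord.toList_eq_nil_of_mem_of_range φ w
      ⟨1, by rw [map_one]; exact hx.symm⟩
    simp only [w, List.map_eq_nil_iff] at h1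
    rw [h1] at hx
    simp only [List.map_nil, List.prod_nil, mul_one] at hx
    have h2 : d ^ (conv L).1 = 1 := HNNExtension.of_injective φ (by rw [hx, map_one])
    have h3 : (conv L).1 = 0 := by
      by_contra hn
      exact (hd _ hn).1 (h2 ▸ one_mem _)
    rcases L with _ | ⟨⟨_ | _, ε⟩, L⟩
    · rfl
    · simp [conv] at h1
    · have := a2 ε L rfl
      rw [h3] at this
      simp at this

theorem amalgam {G1 G2 H : Type} [Group G1] [Group G2] [Group H] (α : H →* G1) (β : H →* G2)
    (hα : Injective α) (hβ : Injective β) : ∃ (K : Type) (_ : Group K) (i1 : G1 →* K)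
      (i2 : G2 →* K), Injective i1 ∧ ∀ h, i1 (α h) = i2 (β h) := by
  obtain ⟨K, _, i, t, h1, h2, -⟩ := hnn ((MonoidHom.inl G1 G2).comp α) ((MonoidHom.inr G1 G2).comp β)
    (fun a b h => hα (congrArg Prod.fst h)) (fun a b h => hβ (congrArg Prod.snd h))
  refine ⟨K, inferInstance, (MulAut.conj t).toMonoidHom.comp (i.comp (MonoidHom.inl G1 G2)),
    i.comp (MonoidHom.inr G1 G2), fun a b h => ?_, fun h => h2 h⟩
  exact congrArg Prod.fst (h1 ((MulAut.conj t).injective h))

theorem sq_injective (P : Type) :
    Injective (FreeGroup.lift fun p : P => FreeGroup.of p * FreeGroup.of p) := by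
  classical
  rw [injective_iff_map_eq_one]
  intro x hx
  have hr := FreeGroup.isReduced_toWord (x := x)
  rw [← FreeGroup.mk_toWord (x := x)] at hx ⊢
  generalize x.toWord = L at hx hr
  have h1 : ∀ L : List (P × Bool), FreeGroup.lift (fun p : P => FreeGroup.of p * FreeGroup.of p)
      (FreeGroup.mk L) = FreeGroup.mk (L.flatMap fun x => [x, x]) := by
    intro L
    induction L with
    | nil => rfl
    | cons x L ih =>
      rw [← List.singleton_append, ← FreeGroup.mul_mk, map_mul, ih, List.flatMap_append,
        ← FreeGroup.mul_mk]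
      congr 1
      rcases x with ⟨p, _ | _⟩
      · simp only [FreeGroup.lift_mk, List.map_cons, List.map_nil, List.prod_cons, List.prod_nil,
          mul_one, cond_false, mul_inv_rev]
        rfl
      · simp only [FreeGroup.lift_mk, List.map_cons, List.map_nil, List.prod_cons, List.prod_nil,
          mul_one, cond_true]
        rfl
  have h2 : ∀ L : List (P × Bool), FreeGroup.IsReduced L →
      FreeGroup.IsReduced (L.flatMap fun x => [x, x]) := by
    intro L hL
    induction L with
    | nil => exact hL
    | cons x L ih =>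
      have := ih (List.IsChain.tail hL)
      rcases L with _ | ⟨y, L⟩
      · simp [FreeGroup.isReduced_cons_cons]
      · simp only [List.flatMap_cons, List.cons_append, List.nil_append,
          FreeGroup.isReduced_cons_cons] at this hL ⊢
        exact ⟨fun _ => trivial, hL.1, this⟩
  rw [h1] at hx
  have h3 := congrArg FreeGroup.toWord hx
  rw [FreeGroup.toWord_mk, (h2 L hr).reduce_eq, FreeGroup.toWord_one] at h3
  rcases L with _ | ⟨x, L⟩
  · rfl
  · simp at h3

/-- The group with `b a b⁻¹ = a²`, `c b c⁻¹ = b²` in which `c` and `a` are free. -/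
theorem model_Q : ∃ (Q : Type) (_ : Group Q) (a b c : Q), b * a * b⁻¹ = a * a ∧
    c * b * c⁻¹ = b * b ∧ Injective (FreeGroup.lift fun x : Bool => cond x a c) := by
  let a : Equiv.Perm ℚ := Equiv.addLeft 1
  let b : Equiv.Perm ℚ := Equiv.mulLeft₀ 2 two_ne_zero
  have ha : ∀ n : ℤ, (a ^ n) 0 = n := fun n => by simp [a]
  have hb : ∀ (n : ℤ) (q : ℚ), (b ^ n) q = 2 ^ n * q := by
    intro n
    induction n with
    | zero => simp
    | succ n ih =>
      intro q
      rw [zpow_add_one, Equiv.Perm.mul_apply, ih, zpow_add_one₀ two_ne_zero, mul_assoc]; rfl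
    | pred n ih =>
      intro q
      rw [zpow_sub_one, Equiv.Perm.mul_apply, ih, zpow_sub_one₀ two_ne_zero, mul_assoc]; rfl
  have hb' : ∀ n : ℤ, b ^ n = 1 → n = 0 := by
    intro n h
    have := hb n 1
    rw [h, Equiv.Perm.one_apply, mul_one] at this
    exact (zpow_eq_one_iff_right₀ (by norm_num) (by norm_num)).1 this.symm
  obtain ⟨Q, _, i, c, h1, h2, h3⟩ := hnn (zpowersHom _ b) (zpowersHom _ (b * b))
    ((injective_iff_map_eq_one _).2 fun n h => hb' _ h)
    ((injective_iff_map_eq_one _).2 fun n h => by
      have h' : (b * b) ^ n.toAdd = 1 := h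
      rw [← pow_two, ← zpow_natCast, ← zpow_mul] at h'
      have := hb' _ h'
      have h4 : n.toAdd = 0 := by omega
      exact h4)
  refine ⟨Q, inferInstance, i a, i b, c, ?_, ?_, h3 a fun n hn => ⟨?_, ?_⟩⟩
  · rw [← map_inv, ← map_mul, ← map_mul, ← map_mul]
    congr 1
    ext q
    simp [a, b]
    ring
  · simpa using h2 (Multiplicative.ofAdd 1)
  · rintro ⟨k, hk⟩
    have := ha n
    rw [← hk, zpowersHom_apply, hb, mul_zero] at this
    exact hn (by exact_mod_cast this.symm)
  · rintro ⟨k, hk⟩
    have := ha n
    rw [← hk, zpowersHom_apply, ← pow_two, ← zpow_natCast, ← zpow_mul, hb, mul_zero] at this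
    exact hn (by exact_mod_cast this.symm)

end H432Z
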