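import Pool.Agent.H432Z.Ext

set_option autoImplicit false
set_option linter.unusedSectionVars false

/-! Null-homotopies over the product of an acyclic complex with an interval. -/

namespace H432Z

open Set Topology unitInterval

variable {W : Type} [TopologicalSpace W] {w0 : W}

theorem joined_of_homotopic {p q : Path w0 w0} (h : p.Homotopic q) : Joined p q := by
  obtain ⟨H⟩ := h
  refine ⟨⟨⟨mkL (fun s t => H (s, t)) H.continuous H.source H.target, continuous_mkL _ _ _ _⟩,
    ?_, ?_⟩⟩
  · ext t; exact H.apply_zero t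
  · ext t; exact H.apply_one t

theorem juggle {X : Type} [TopologicalSpace X] {a b : X → W} (p : ∀ x, Path (a x) w0)
    (r : ∀ x, Path (a x) (b x)) (q : ∀ x, Path (b x) w0) (Kk : X → PW (Path.refl w0))
    (hK : Continuous Kk) (h0 : ∀ x, (Kk x).1 0 = (p x).symm.trans ((r x).trans (q x))) :
    ∃ sq : X × I → PW w0, Continuous sq ∧ (∀ x t, (sq (x, t)).1 0 = r x t) ∧
      (∀ x, sq (x, 0) = toPW (p x)) ∧ ∀ x, sq (x, 1) = toPW (q x) := by
  let lam : I → I → ℝ := fun t s => (1 - t) * (1 - s) / 2 + t * (3 / 4 + s / 4) +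
    s * (pj (3 * t - 1) - t)
  let nu : I → I → ℝ := fun t s => s * min 1 (min (3 * (t : ℝ)) (3 * (1 - t)))
  let F : X × I → I → W := fun z s => ((Kk z.1).1 (pj (nu z.2 s))) (pj (lam z.2 s))
  have hF : Continuous fun z : (X × I) × I => F z.1 z.2 := by
    refine Continuous.eval (continuous_evPW (hK.comp (by fun_prop)) ?_) ?_
    · simp only [nu]; fun_prop
    · simp only [lam]; fun_prop
  have hF1 : ∀ z, F z 1 = w0 := by
    rintro ⟨x, t⟩
    have e : lam t 1 = pj (3 * t - 1) := by simp only [lam, Icc.coe_one]; ring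
    simp only [F, e, pj_coe]
    rcases le_total (3 * (t : ℝ)) 1 with h | h
    · rw [pj_of_le (t := 3 * t - 1) (by linarith), Path.source]
    · rcases le_total (3 * (t : ℝ)) 2 with h' | h'
      · have : nu t 1 = 1 := by
          simp only [nu, Icc.coe_one, one_mul]
          exact min_eq_left (le_min h (by linarith))
        rw [this, pj_one, (Kk x).2]; rfl
      · rw [pj_of_ge (t := 3 * t - 1) (by linarith), Path.target]
  refine ⟨mkPW F hF hF1, continuous_mkPW F hF hF1, fun x t => ?_, fun x => PW_ext fun s => ?_,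
    fun x => PW_ext fun s => ?_⟩
  · change F (x, t) 0 = _
    have h1 := t.2.1
    have h2 := t.2.2
    have e1 : nu t 0 = 0 := by simp [nu]
    have e2 : lam t 0 = 1 / 2 + t / 4 := by simp only [lam, Icc.coe_zero]; ring
    simp only [F, e1, e2, pj_zero, h0]
    rw [trans_right _ _ (by linarith), trans_left _ _ (by linarith)]
    congr 1
    rw [← pj_coe t]; congr 1; simp only [pj_coe]; ring
  · change F (x, 0) s = p x s
    have h1 := s.2.1
    have h2 := s.2.2
    have e1 : nu 0 s = 0 := by simp [nu]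
    have e3 : pj (3 * 0 - 1) = 0 := pj_of_le (by norm_num)
    have e2 : lam 0 s = (1 - s) / 2 := by simp only [lam, Icc.coe_zero, e3]; ring
    simp only [F, e1, e2, pj_zero, h0]
    rw [trans_left _ _ (by linarith), Path.symm_apply]
    simp only [Function.comp]
    congr 1
    apply Subtype.ext
    rw [coe_symm_eq, coe_pj (by linarith) (by linarith)]; ring
  · change F (x, 1) s = q x s
    have h1 := s.2.1
    have h2 := s.2.2
    have e1 : nu 1 s = 0 := by simp [nu]
    have e3 : pj (3 * 1 - 1) = 1 := pj_of_ge (by norm_num)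
    have e2 : lam 1 s = 3 / 4 + s / 4 := by simp only [lam, Icc.coe_one, e3]; ring
    simp only [F, e1, e2, pj_zero, h0]
    rw [trans_right _ _ (by linarith), trans_right _ _ (by linarith)]
    congr 1
    rw [← pj_coe s]; congr 1; simp only [pj_coe]; ring

variable {V : Type} [DecidableEq V]

/-- Cocycles with commutative values are coboundaries. -/
def H1 (K : Set (Finset V)) : Prop :=
  ∀ (C : Type) [CommGroup C] (g : V → V → C), Coc K g → Cob K g

theorem vertex_mem {K : Set (Finset V)} (hd : Down K) {v : V} (h : pt v ∈ Rl K) : {v} ∈ K := by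
  obtain ⟨ξ, hξ, hx⟩ := h
  refine hd ξ hξ _ (Finset.singleton_subset_iff.2 ?_)
  by_contra hn
  have := hx.2.1 v hn
  simp [pt] at this

theorem edge_lift (K : Set (Finset V)) (hfin : K.Finite) (he : ∅ ∈ K) (hd : Down K)
    (h3 : ∀ ξ ∈ K, ξ.card ≤ 3) (hH1 : H1 K) (hH2 : H2 K) (H0 H1 : (V → ℝ) → PW w0)
    (c0 : ContinuousOn H0 (Rl K)) (c1 : ContinuousOn H1 (Rl K))
    (r : ∀ x : Rl K, Path ((H0 x).1 0) ((H1 x).1 0))
    (hr : Continuous fun z : Rl K × I => r z.1 z.2)
    (hv : ∀ v (h : pt v ∈ Rl K), (ofPW (H0 (pt v)) rfl).Homotopic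
      ((r ⟨pt v, h⟩).trans (ofPW (H1 (pt v)) rfl))) :
    ∃ sq : Rl K × I → PW w0, Continuous sq ∧ (∀ x t, (sq (x, t)).1 0 = r x t) ∧
      (∀ x, sq (x, 0) = H0 x) ∧ ∀ x, sq (x, 1) = H1 x := by
  have c0' : Continuous fun x : Rl K => H0 x := continuousOn_iff_continuous_domRestrict.1 c0
  have c1' : Continuous fun x : Rl K => H1 x := continuousOn_iff_continuous_domRestrict.1 c1
  let p : ∀ x : Rl K, Path ((H0 x).1 0) w0 := fun x => ofPW (H0 x) rfl
  let q : ∀ x : Rl K, Path ((H1 x).1 0) w0 := fun x => ofPW (H1 x) rfl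
  have hp : Continuous ↿p := continuous_evPW (c0'.comp continuous_fst) continuous_snd
  have hq : Continuous ↿q := continuous_evPW (c1'.comp continuous_fst) continuous_snd
  have hl : Continuous fun x : Rl K => (p x).symm.trans ((r x).trans (q x)) :=
    Path.continuous_uncurry_iff.1 (Path.trans_continuous_family _
      (Path.symm_continuous_family p hp) _ (Path.trans_continuous_family r hr q hq))
  obtain ⟨l, l1, l2, l3⟩ := exists_ext (Rl K) _ hl (Path.refl w0)
  have hj : ∀ v : V, Joined (l (pt v)) (Path.refl w0) := by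
    intro v
    by_cases h : pt v ∈ Rl K
    · rw [l2 _ h]
      exact joined_of_homotopic ((((Path.Homotopic.refl _).hcomp (hv v h)).symm).trans
        (Path.Homotopic.symm_trans _))
    · rw [l3 _ h]
  obtain ⟨ε, hε⟩ := make_fillable hd l1 (fun v => (hj v).somePath) (hH1 (Pi1 (Path.refl w0)))
  obtain ⟨Kk, k1, k2, -⟩ := null_of_fillable K hfin he hd h3 hH2 l l1 ε hε
  obtain ⟨sq, s1, s2, s3, s4⟩ := juggle p r q (fun x => Kk x)
    (continuousOn_iff_continuous_domRestrict.1 k1) (fun x => by rw [k2 x x.2, l2 x x.2])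
  exact ⟨sq, s1, s2, s3, s4⟩

end H432Z
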