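import Pool.Agent.H432Z.Paths

set_option autoImplicit false
set_option linter.unusedSectionVars false

/-! The space of paths to the base point, the action of loops on it, and the obstruction. -/

namespace H432Z

open Set Topology unitInterval

variable {W : Type} [TopologicalSpace W]

/-- Paths ending at the base point. -/
def PW (w0 : W) : Type := {γ : C(I, W) // γ 1 = w0}

instance (w0 : W) : TopologicalSpace (PW w0) := instTopologicalSpaceSubtype

variable {w0 : W}

theorem continuous_evPW {X : Type} [TopologicalSpace X] {γ : X → PW w0} {t : X → I}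
    (hγ : Continuous γ) (ht : Continuous t) : Continuous fun x => (γ x).1 (t x) :=
  (continuous_subtype_val.comp hγ).eval ht

theorem continuous_PW {X : Type} [TopologicalSpace X] {γ : X → PW w0}
    (h : Continuous fun p : X × I => (γ p.1).1 p.2) : Continuous γ :=
  Continuous.subtype_mk (f := fun x => (γ x).1)
    (ContinuousMap.continuous_of_continuous_uncurry _ h) (fun x => (γ x).2)

theorem PW_ext {γ δ : PW w0} (h : ∀ t, γ.1 t = δ.1 t) : γ = δ := Subtype.ext (ContinuousMap.ext h)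

/-- A continuous family of paths ending at the base point. -/
def mkPW {X : Type} [TopologicalSpace X] (F : X → I → W) (hF : Continuous fun p : X × I => F p.1 p.2)
    (h1 : ∀ x, F x 1 = w0) (x : X) : PW w0 :=
  ⟨⟨F x, hF.comp (Continuous.prodMk_right x)⟩, h1 x⟩

theorem continuous_mkPW {X : Type} [TopologicalSpace X] (F : X → I → W)
    (hF : Continuous fun p : X × I => F p.1 p.2) (h1 : ∀ x, F x 1 = w0) :
    Continuous (mkPW F hF h1) := continuous_PW hF

/-- A continuous family of loops. -/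
def mkL {X : Type} [TopologicalSpace X] (F : X → I → W) (hF : Continuous fun p : X × I => F p.1 p.2)
    (h0 : ∀ x, F x 0 = w0) (h1 : ∀ x, F x 1 = w0) (x : X) : Path w0 w0 :=
  ⟨⟨F x, hF.comp (Continuous.prodMk_right x)⟩, h0 x, h1 x⟩

theorem continuous_mkL {X : Type} [TopologicalSpace X] (F : X → I → W)
    (hF : Continuous fun p : X × I => F p.1 p.2) (h0 : ∀ x, F x 0 = w0) (h1 : ∀ x, F x 1 = w0) :
    Continuous (mkL F hF h0 h1) := Path.continuous_uncurry_iff.1 hF

/-- A path as an element of the path space. -/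
def toPW {a : W} (p : Path a w0) : PW w0 := ⟨p.toContinuousMap, p.target⟩

/-- An element of the path space as a path. -/
def ofPW (γ : PW w0) {a : W} (h : γ.1 0 = a) : Path a w0 := ⟨γ.1, h, γ.2⟩

/-- Concatenation, as a function. -/
noncomputable def catF (p : PW w0 × Path w0 w0) (t : I) : W :=
  if (t : ℝ) ≤ 1 / 2 then p.1.1 (pj (2 * t)) else p.2 (pj (2 * t - 1))

theorem continuous_catF : Continuous fun q : (PW w0 × Path w0 w0) × I => catF q.1 q.2 := by
  unfold catF
  refine Continuous.if_le (continuous_evPW (by fun_prop) (by fun_prop))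
    (Continuous.eval (by fun_prop) (by fun_prop)) (by fun_prop) continuous_const ?_
  intro q hq
  rw [hq, pj_of_ge (by norm_num), pj_of_le (by norm_num), q.1.1.2, q.1.2.source]

theorem catF_one (p : PW w0 × Path w0 w0) : catF p 1 = w0 := by
  unfold catF
  rw [if_neg (by norm_num), pj_of_ge (by norm_num), p.2.target]

/-- Concatenation of a path and a loop. -/
noncomputable def cat (γ : PW w0) (ω : Path w0 w0) : PW w0 :=
  mkPW catF continuous_catF catF_one (γ, ω)

theorem continuous_cat : Continuous fun p : PW w0 × Path w0 w0 => cat p.1 p.2 :=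
  continuous_mkPW catF continuous_catF catF_one

theorem cat_apply (γ : PW w0) (ω : Path w0 w0) (t : I) : (cat γ ω).1 t =
    if (t : ℝ) ≤ 1 / 2 then γ.1 (pj (2 * t)) else ω (pj (2 * t - 1)) := rfl

theorem cat_zero (γ : PW w0) (ω : Path w0 w0) : (cat γ ω).1 0 = γ.1 0 := by
  rw [cat_apply, if_pos (by norm_num)]; simp

variable {V : Type} [DecidableEq V]

/-- Points of `S` with a path from their image to the base point. -/
def EE (w0 : W) (f : (V → ℝ) → W) (S : Set (V → ℝ)) : Set ((V → ℝ) × PW w0) :=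
  {p | p.1 ∈ S ∧ p.2.1 0 = f p.1}

theorem EE_mono {f : (V → ℝ) → W} {S T : Set (V → ℝ)} (h : S ⊆ T) : EE w0 f S ⊆ EE w0 f T :=
  fun _ hp => ⟨h hp.1, hp.2⟩

/-- The action of the loops. -/
noncomputable def mu (p : (V → ℝ) × PW w0) (ω : Path w0 w0) : (V → ℝ) × PW w0 := (p.1, cat p.2 ω)

theorem continuous_mu : Continuous fun q : ((V → ℝ) × PW w0) × Path w0 w0 => mu q.1 q.2 :=
  (continuous_fst.comp continuous_fst).prodMk
    (continuous_cat.comp ((continuous_snd.comp continuous_fst).prodMk continuous_snd))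

theorem mu_mem {f : (V → ℝ) → W} {S : Set (V → ℝ)} {p : (V → ℝ) × PW w0} (hp : p ∈ EE w0 f S)
    (ω : Path w0 w0) : mu p ω ∈ EE w0 f S := ⟨hp.1, (cat_zero _ _).trans hp.2⟩

section Obs

variable {f : (V → ℝ) → W} {ξ : Finset V}

/-- The action restricted to a simplex. -/
noncomputable def muE (f : (V → ℝ) → W) (ξ : Finset V) :
    C(EE w0 f (Smp ξ) × Path w0 w0, EE w0 f (Smp ξ)) :=
  ⟨fun q => ⟨mu q.1.1 q.2, mu_mem q.1.2 q.2⟩, (continuous_mu.comp
    ((continuous_subtype_val.comp continuous_fst).prodMk continuous_snd)).subtype_mk _⟩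

/-- The long path: back along the path, to the point of `e` and along the path of `e`. -/
noncomputable def Lam (e p : EE w0 f (Smp ξ)) (r : ℝ) : W :=
  if r ≤ 1 then p.1.2.1 (pj (1 - r)) else
    if r ≤ 2 then f (seg p.1.1 e.1.1 (pj (r - 1))) else e.1.2.1 (pj (r - 2))

theorem continuous_fseg (hf : ContinuousOn f (Smp ξ)) {X : Type} [TopologicalSpace X]
    {x y : X → V → ℝ} {t : X → I} (hx : Continuous x) (hy : Continuous y) (ht : Continuous t)
    (hx' : ∀ a, x a ∈ Smp ξ) (hy' : ∀ a, y a ∈ Smp ξ) :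
    Continuous fun a => f (seg (x a) (y a) (t a)) :=
  hf.comp_continuous (by fun_prop) fun a => seg_mem (hx' a) (hy' a) (t a).2.1 (t a).2.2

theorem continuous_Lam (hf : ContinuousOn f (Smp ξ)) (e : EE w0 f (Smp ξ)) :
    Continuous fun q : EE w0 f (Smp ξ) × ℝ => Lam e q.1 q.2 := by
  unfold Lam
  refine Continuous.if_le (continuous_evPW (by fun_prop) (by fun_prop))
    (Continuous.if_le (continuous_fseg hf (by fun_prop) (by fun_prop) (by fun_prop)
      (fun a => a.1.2.1) (fun _ => e.2.1)) (continuous_evPW (by fun_prop) (by fun_prop))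
      (by fun_prop) continuous_const ?_) (by fun_prop) continuous_const ?_
  · intro q hq
    rw [hq, pj_of_ge (by norm_num), pj_of_le (by norm_num), e.2.2]; simp
  · intro q hq
    rw [hq, if_pos (by norm_num), pj_of_le (by norm_num), q.1.2.2]; simp

theorem Lam_le (e p : EE w0 f (Smp ξ)) {r : ℝ} (h : r ≤ 1) : Lam e p r = p.1.2.1 (pj (1 - r)) :=
  if_pos h

theorem Lam_mid (e p : EE w0 f (Smp ξ)) {r : ℝ} (h1 : 1 ≤ r) (h2 : r ≤ 2) :
    Lam e p r = f (seg p.1.1 e.1.1 (r - 1)) := by
  unfold Lam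
  split_ifs with h
  · have : r = 1 := le_antisymm h h1
    subst this
    simp [p.2.2]
  · rw [coe_pj (by linarith) (by linarith)]

theorem Lam_ge (e p : EE w0 f (Smp ξ)) {r : ℝ} (h : 2 ≤ r) : Lam e p r = e.1.2.1 (pj (r - 2)) := by
  unfold Lam
  rw [if_neg (by linarith)]
  split_ifs with h'
  · have : r = 2 := le_antisymm h' h
    subst this
    rw [pj_of_ge (by norm_num)]
    simp [e.2.2]
  · rfl

theorem exists_kill (hf : ContinuousOn f (Smp ξ)) (e : EE w0 f (Smp ξ)) (β : Path e e) :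
    ∃ ω : Path (Path.refl w0) (Path.refl w0), MQ (muE f ξ) (.mk β) (.mk ω) = .refl _ := by
  have hL := continuous_Lam hf e
  let ρ : C(EE w0 f (Smp ξ), Path w0 w0) := ⟨mkL (fun p t => Lam e p (3 * t))
    (hL.comp (by fun_prop : Continuous fun q : EE w0 f (Smp ξ) × I => (q.1, 3 * (q.2 : ℝ))))
    (fun p => by rw [Lam_le _ _ (by simp)]; simpa using p.1.2.2)
    (fun p => by
      rw [Lam_ge _ _ (by norm_num), pj_of_ge (by norm_num)]; exact e.1.2.2), continuous_mkL _ _ _ _⟩
  have hρ : ∀ p t, ρ p t = Lam e p (3 * t) := fun _ _ => rfl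
  let Γ2 : I × EE w0 f (Smp ξ) → PW w0 := mkPW
    (fun q t => Lam e q.2 ((1 - q.1) * max (1 - 2 * (t : ℝ)) (6 * t - 3) + q.1 * (2 + t)))
    (hL.comp (by fun_prop : Continuous fun q : (I × EE w0 f (Smp ξ)) × I =>
      (q.1.2, (1 - (q.1.1 : ℝ)) * max (1 - 2 * (q.2 : ℝ)) (6 * q.2 - 3) + q.1.1 * (2 + q.2))))
    (fun q => by
      have : (1 - (q.1 : ℝ)) * max (1 - 2 * ((1 : I) : ℝ)) (6 * (1 : I) - 3) + q.1 * (2 + (1 : I))
          = 3 := by
        simp only [Icc.coe_one]
        rw [max_eq_right (by norm_num)]; ring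
      rw [this, Lam_ge _ _ (by norm_num), pj_of_ge (by norm_num)]; exact e.1.2.2)
  have hΓ2 : ∀ q t, (Γ2 q).1 t =
      Lam e q.2 ((1 - q.1) * max (1 - 2 * (t : ℝ)) (6 * t - 3) + q.1 * (2 + t)) := fun _ _ => rfl
  let Γ : I × EE w0 f (Smp ξ) → EE w0 f (Smp ξ) := fun q => ⟨(seg q.2.1.1 e.1.1 q.1, Γ2 q),
    seg_mem q.2.2.1 e.2.1 q.1.2.1 q.1.2.2, by
      have h0 := q.1.2.1
      have h1 := q.1.2.2
      have : (1 - (q.1 : ℝ)) * max (1 - 2 * ((0 : I) : ℝ)) (6 * (0 : I) - 3) + q.1 * (2 + (0 : I))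
          = 1 + q.1 := by
        simp only [Icc.coe_zero]
        rw [max_eq_left (by norm_num)]; ring
      simp only
      rw [hΓ2, this, Lam_mid _ _ (by linarith) (by linarith)]
      simp⟩
  have hΓ : Continuous Γ := by
    refine Continuous.subtype_mk (Continuous.prodMk (by fun_prop) (continuous_mkPW _ _ _)) _
  have hΓ0 : ∀ p, Γ (0, p) = muE f ξ (p, ρ p) := by
    intro p
    refine Subtype.ext (Prod.ext (by simp [Γ, muE, mu]) (PW_ext fun t => ?_))
    change (Γ2 (0, p)).1 t = (cat p.1.2 (ρ p)).1 t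
    have h0 := t.2.1
    have h1 := t.2.2
    rw [hΓ2, cat_apply]
    simp only [Icc.coe_zero, sub_zero, one_mul, zero_mul, add_zero]
    split_ifs with h
    · rw [max_eq_left (by linarith), Lam_le _ _ (by linarith)]
      congr 2; ring
    · rw [max_eq_right (by linarith), hρ, coe_pj (by linarith) (by linarith)]
      congr 1; ring
  have hΓ1 : ∀ p, Γ (1, p) = e := by
    intro p
    refine Subtype.ext (Prod.ext (by simp [Γ]) (PW_ext fun t => ?_))
    change (Γ2 (1, p)).1 t = _
    have h0 := t.2.1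
    rw [hΓ2]
    simp only [Icc.coe_one, sub_self, one_mul, zero_mul, zero_add]
    rw [Lam_ge _ _ (by linarith)]
    simp
  let η : Path (Path.refl w0) (ρ e) :=
    { toFun := mkL (fun (s : I) t => e.1.2.1 (pj (max (1 - (s : ℝ)) (max (1 - 3 * (t : ℝ)) (3 * t - 2)))))
        (continuous_evPW continuous_const (by fun_prop))
        (fun s => by
          rw [pj_of_ge (le_max_of_le_right (le_max_of_le_left (by simp)))]; exact e.1.2.2)
        (fun s => by
          rw [pj_of_ge (le_max_of_le_right (le_max_of_le_right (by norm_num)))]; exact e.1.2.2)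
      continuous_toFun := continuous_mkL _ _ _ _
      source' := by
        ext t
        change e.1.2.1 _ = w0
        rw [pj_of_ge (le_max_of_le_left (by simp))]; exact e.1.2.2
      target' := by
        ext t
        change e.1.2.1 _ = _
        rw [hρ]
        simp only [Icc.coe_one, sub_self]
        rcases le_total (3 * (t : ℝ)) 1 with h | h
        · rw [Lam_le _ _ h, max_eq_left (a := 1 - 3 * (t : ℝ)) (by linarith),
            max_eq_right (by linarith)]
        · rcases le_total (3 * (t : ℝ)) 2 with h' | h'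
          · rw [Lam_mid _ _ h h', seg_self, max_eq_left (max_le (by linarith) (by linarith)),
              pj_zero, e.2.2]
          · rw [Lam_ge _ _ h', max_eq_right (a := 1 - 3 * (t : ℝ)) (by linarith),
              max_eq_right (by linarith)] }
  let τ : Path (muE f ξ (e, ρ e)) e :=
    ⟨⟨fun s => Γ (s, e), hΓ.comp (by fun_prop)⟩, hΓ0 e, hΓ1 e⟩
  have h1 : MQ (muE f ξ) (.mk β) (.mk (β.map ρ.continuous)) = .refl _ := by
    rw [MQ_mk]
    have h2 := square (fun z => Γ (z.2, β z.1)) (hΓ.comp (by fun_prop))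
      ((β.prod (β.map ρ.continuous)).map (muE f ξ).continuous) τ τ (Path.refl e)
      (fun t => (hΓ0 _).symm) (fun t => by simp [τ]) (fun t => by simp [τ])
      (fun t => (hΓ1 _).symm)
    have h3 := Path.Homotopic.Quotient.eq.2 h2
    rw [Path.Homotopic.Quotient.mk_trans, Path.Homotopic.Quotient.mk_trans] at h3
    have h4 := congrArg (fun P => Path.Homotopic.Quotient.trans P
      (Path.Homotopic.Quotient.mk τ).symm) h3
    simpa using h4
  refine ⟨(η.trans (β.map ρ.continuous)).trans η.symm, ?_⟩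
  have h5 : Path.Homotopic.Quotient.mk β = ((Path.Homotopic.Quotient.refl e).trans (.mk β)).trans
      (.refl e) := by simp
  rw [h5, Path.Homotopic.Quotient.mk_trans, Path.Homotopic.Quotient.mk_trans, MQ_trans, MQ_trans,
    h1, Path.Homotopic.Quotient.trans_refl, ← MQ_trans, Path.Homotopic.Quotient.mk_symm,
    Path.Homotopic.Quotient.trans_refl, Path.Homotopic.Quotient.trans_symm, MQ_refl]

/-- The obstruction to filling a triangle. -/
theorem obstruction (hf : ContinuousOn f (Smp ξ)) (a b c : I → (V → ℝ) × PW w0)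
    (ha : Continuous a) (hb : Continuous b) (hc : Continuous c) (ha' : ∀ t, a t ∈ EE w0 f (Smp ξ))
    (hb' : ∀ t, b t ∈ EE w0 f (Smp ξ)) (hc' : ∀ t, c t ∈ EE w0 f (Smp ξ))
    (h0 : c 0 = a 0) (h1 : b 0 = a 1) (h2 : c 1 = b 1) :
    ∃ o : Pi1 (Path.refl w0), ∀ ωa ωb ωc : Path (Path.refl w0) (Path.refl w0),
      cls ωa * cls ωb = o * cls ωc → ∃ G : ℝ × ℝ → (V → ℝ) × PW w0, ContinuousOn G Tri ∧
        MapsTo G Tri (EE w0 f (Smp ξ)) ∧ ∀ t : I, G (t, 0) = mu (a t) (ωa t) ∧
          G (1 - t, t) = mu (b t) (ωb t) ∧ G (0, t) = mu (c t) (ωc t) := by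
  let e0 : EE w0 f (Smp ξ) := ⟨a 0, ha' 0⟩
  let e1 : EE w0 f (Smp ξ) := ⟨a 1, ha' 1⟩
  let e2 : EE w0 f (Smp ξ) := ⟨b 1, hb' 1⟩
  let a' : Path e0 e1 := ⟨⟨fun t => ⟨a t, ha' t⟩, ha.subtype_mk _⟩, rfl, rfl⟩
  let b' : Path e1 e2 := ⟨⟨fun t => ⟨b t, hb' t⟩, hb.subtype_mk _⟩, Subtype.ext h1, rfl⟩
  let c' : Path e0 e2 := ⟨⟨fun t => ⟨c t, hc' t⟩, hc.subtype_mk _⟩, Subtype.ext h0, Subtype.ext h2⟩
  obtain ⟨ω, hω⟩ := exists_kill hf e0 ((a'.trans b').trans c'.symm)
  refine ⟨cls ω, fun ωa ωb ωc h => ?_⟩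
  have h3 : (Path.Homotopic.Quotient.mk ωa).trans (.mk ωb) =
    (Path.Homotopic.Quotient.mk ω).trans (.mk ωc) := h
  have h4 : (Path.Homotopic.Quotient.mk a').trans (.mk b') =
      (Path.Homotopic.Quotient.mk ((a'.trans b').trans c'.symm)).trans (.mk c') := by simp
  have h5 : (MQ (muE f ξ) (.mk a') (.mk ωa)).trans (MQ (muE f ξ) (.mk b') (.mk ωb)) =
      MQ (muE f ξ) (.mk c') (.mk ωc) := by
    rw [← MQ_trans, h3, h4, MQ_trans, hω, Path.Homotopic.Quotient.refl_trans]
  rw [MQ_mk, MQ_mk, MQ_mk, ← Path.Homotopic.Quotient.mk_trans, Path.Homotopic.Quotient.eq] at h5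
  obtain ⟨G, hG, hG'⟩ := tri_fill h5
  refine ⟨fun p => (G p).1, continuous_subtype_val.comp_continuousOn hG, fun p _ => (G p).2,
    fun t => ?_⟩
  obtain ⟨g1, g2, g3⟩ := hG' t
  exact ⟨by simp only [g1]; rfl, by simp only [g2]; rfl, by simp only [g3]; rfl⟩

/-- Edges can be filled when the triangle of paths commutes up to homotopy. -/
theorem fill (hf : ContinuousOn f (Smp ξ)) {x y : V → ℝ} (hx : x ∈ Smp ξ) (hy : y ∈ Smp ξ)
    (p : Path (f x) w0) (q : Path (f y) w0) (r : Path (f x) (f y))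
    (hr : ∀ t, r t = f (seg x y t)) (h : p.Homotopic (r.trans q)) :
    JoinedIn (EE w0 f (Smp ξ)) (x, toPW p) (y, toPW q) := by
  obtain ⟨H⟩ := h
  have j1 : JoinedIn (EE w0 f (Smp ξ)) (x, toPW p) (x, toPW (r.trans q)) := by
    refine ⟨⟨⟨fun s => (x, mkPW (fun s t => H (s, t)) H.continuous H.target s),
      continuous_const.prodMk (continuous_mkPW _ _ _)⟩, ?_, ?_⟩, fun s => ⟨hx, H.source s⟩⟩
    · exact Prod.ext rfl (PW_ext fun t => H.apply_zero t)
    · exact Prod.ext rfl (PW_ext fun t => H.apply_one t)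
  have j2 : JoinedIn (EE w0 f (Smp ξ)) (x, toPW (r.trans q)) (y, toPW q) := by
    let F : I → I → W := fun (s t : I) => (r.trans q) (pj (s / 2 + (1 - s / 2) * t))
    have hc : Continuous fun z : I × I => F z.1 z.2 := by simp only [F]; fun_prop
    have h1 : ∀ s : I, F s 1 = w0 :=
      fun s => by simp only [F]; rw [pj_of_ge (by simp)]; exact (r.trans q).target
    refine ⟨⟨⟨fun s : I => (seg x y s, mkPW F hc h1 s),
      Continuous.prodMk (by fun_prop) (continuous_mkPW F hc h1)⟩, ?_, ?_⟩,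
      fun s => ⟨seg_mem hx hy s.2.1 s.2.2, ?_⟩⟩
    · refine Prod.ext (by simp) (PW_ext fun t => ?_)
      change (r.trans q) _ = (r.trans q) t
      simp
    · refine Prod.ext (by simp) (PW_ext fun t => ?_)
      change (r.trans q) _ = q t
      have := t.2.1
      rw [trans_right _ _ (by simp only [Icc.coe_one]; linarith)]
      congr 1
      rw [← pj_coe t]; congr 1; simp only [Icc.coe_one, pj_coe]; ring
    · change (r.trans q) (pj (s / 2 + (1 - s / 2) * ((0 : I) : ℝ))) = f (seg x y s)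
      have := s.2.2
      rw [trans_left _ _ (by simp only [Icc.coe_zero]; linarith), ← hr]
      congr 1
      rw [← pj_coe s]; congr 1; simp only [Icc.coe_zero, pj_coe]; ring
  exact j1.trans j2

end Obs

/-- Straightening a carried lift. -/
theorem straighten {K : Set (Finset V)} {f : (V → ℝ) → W} (hf : ContinuousOn f (Rl K))
    {s : (V → ℝ) → (V → ℝ) × PW w0} (hs : ContinuousOn s (Rl K))
    (hs' : ∀ ξ ∈ K, MapsTo s (Smp ξ) (EE w0 f (Smp ξ))) :
    ∃ H : (V → ℝ) → PW w0, ContinuousOn H (Rl K) ∧ ∀ x ∈ Rl K, ∀ t : I, (H x).1 t =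
      if (t : ℝ) ≤ 1 / 2 then f (seg x (s x).1 (pj (2 * t))) else (s x).2.1 (pj (2 * t - 1)) := by
  have hs1 : Continuous fun x : Rl K => s x := continuousOn_iff_continuous_domRestrict.1 hs
  let F : Rl K → I → W := fun x t =>
    if (t : ℝ) ≤ 1 / 2 then f (seg x (s x).1 (pj (2 * t))) else (s x).2.1 (pj (2 * t - 1))
  have hF : Continuous fun p : Rl K × I => F p.1 p.2 := by
    refine Continuous.if_le (hf.comp_continuous (continuous_seg (by fun_prop)
      (hs1.fst.comp continuous_fst) (by fun_prop)) ?_)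
      (continuous_evPW (hs1.snd.comp continuous_fst) (by fun_prop)) (by fun_prop) continuous_const ?_
    · rintro ⟨⟨x, ξ, hξ, hx⟩, t⟩
      exact ⟨ξ, hξ, seg_mem hx (hs' ξ hξ hx).1 (pj _).2.1 (pj _).2.2⟩
    · rintro ⟨⟨x, ξ, hξ, hx⟩, t⟩ ht
      simp only at ht ⊢
      rw [ht, pj_of_ge (by norm_num), pj_of_le (by norm_num), (hs' ξ hξ hx).2]
      simp
  have hF1 : ∀ x, F x 1 = w0 := by
    intro x
    simp only [F]
    rw [if_neg (by norm_num), pj_of_ge (by norm_num)]
    exact (s x).2.2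
  obtain ⟨H, hH, hH', -⟩ := exists_ext (Rl K) (mkPW F hF hF1) (continuous_mkPW _ _ _)
    (toPW (Path.refl w0))
  exact ⟨H, hH, fun x hx t => by rw [hH' x hx]; rfl⟩

end H432Z
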