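import Pool.Agent.H432Z.Basic

set_option autoImplicit false
set_option linter.unusedSectionVars false

/-! Tools for paths: fundamental group, squares, triangles, loops of loops. -/

namespace H432Z

open Set Topology unitInterval

section General

variable {X : Type} [TopologicalSpace X]

/-- The fundamental group, with the product written in the order of the paths. -/
def Pi1 (x : X) : Type := Path.Homotopic.Quotient x x

noncomputable instance (x : X) : Group (Pi1 x) where
  mul p q := Path.Homotopic.Quotient.trans p q
  one := Path.Homotopic.Quotient.refl x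
  inv p := Path.Homotopic.Quotient.symm p
  mul_assoc := Path.Homotopic.Quotient.trans_assoc
  one_mul := Path.Homotopic.Quotient.refl_trans
  mul_one := Path.Homotopic.Quotient.trans_refl
  inv_mul_cancel := Path.Homotopic.Quotient.symm_trans

/-- The class of a loop. -/
def cls {x : X} (p : Path x x) : Pi1 x := Path.Homotopic.Quotient.mk p

theorem cls_trans {x : X} (p q : Path x x) : cls (p.trans q) = cls p * cls q := rfl
theorem cls_symm {x : X} (p : Path x x) : cls p.symm = (cls p)⁻¹ := rfl
theorem cls_refl {x : X} : cls (Path.refl x) = 1 := rfl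
theorem cls_eq {x : X} {p q : Path x x} : cls p = cls q ↔ p.Homotopic q :=
  Path.Homotopic.Quotient.eq
theorem cls_surj {x : X} (a : Pi1 x) : ∃ p, cls p = a := Path.Homotopic.Quotient.mk_surjective a

theorem homotopic_of_fun {x y : X} {p q : Path x y} (H : I × I → X) (hH : Continuous H)
    (h0 : ∀ s, H (0, s) = p s) (h1 : ∀ s, H (1, s) = q s) (hl : ∀ t, H (t, 0) = x)
    (hr : ∀ t, H (t, 1) = y) : p.Homotopic q :=
  ⟨{ toFun := H
     continuous_toFun := hH
     map_zero_left := h0
     map_one_left := h1
     prop' := by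
      intro t s hs
      rcases hs with rfl | hs
      · simpa using hl t
      · rw [Set.mem_singleton_iff] at hs
        subst hs
        simpa using hr t }⟩

theorem trans_pj {x y z : X} (p : Path x y) (q : Path y z) (s : I) :
    (p.trans q) s = if (s : ℝ) ≤ 1 / 2 then p (pj (2 * s)) else q (pj (2 * s - 1)) := by
  rw [Path.trans_apply]
  split_ifs with h
  · congr 1
    exact (pj_coe ⟨2 * s, _⟩).symm
  · congr 1
    exact (pj_coe ⟨2 * s - 1, _⟩).symm

theorem trans_left {x y z : X} (p : Path x y) (q : Path y z) {s : ℝ} (h : s ≤ 1 / 2) :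
    (p.trans q) (pj s) = p (pj (2 * s)) := p.extend_trans_of_le_half q h

theorem trans_right {x y z : X} (p : Path x y) (q : Path y z) {s : ℝ} (h : 1 / 2 ≤ s) :
    (p.trans q) (pj s) = q (pj (2 * s - 1)) := p.extend_trans_of_half_le q h

/-- The two ways around a square are homotopic. -/
theorem square {p q q' z : X} (S : I × I → X) (hS : Continuous S) (b : Path p q) (r : Path q z)
    (l : Path p q') (tp : Path q' z) (hb : ∀ t, b t = S (t, 0)) (hr : ∀ t, r t = S (1, t))
    (hl : ∀ t, l t = S (0, t)) (ht : ∀ t, tp t = S (t, 1)) :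
    (b.trans r).Homotopic (l.trans tp) := by
  refine homotopic_of_fun (fun a => S (pj ((1 - a.1) * pj (2 * a.2) + a.1 * pj (2 * a.2 - 1)),
    pj ((1 - a.1) * pj (2 * a.2 - 1) + a.1 * pj (2 * a.2)))) (by fun_prop) ?_ ?_ ?_ ?_
  · intro s
    simp only [Icc.coe_zero, sub_zero, one_mul, zero_mul, add_zero, pj_coe]
    rw [trans_pj]
    split_ifs with h
    · rw [hb, pj_of_le (t := 2 * s - 1) (by linarith)]
    · rw [hr, pj_of_ge (t := 2 * s) (by linarith)]
  · intro s
    simp only [Icc.coe_one, sub_self, one_mul, zero_mul, zero_add, pj_coe]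
    rw [trans_pj]
    split_ifs with h
    · rw [hl, pj_of_le (t := 2 * s - 1) (by linarith)]
    · rw [ht, pj_of_ge (t := 2 * s) (by linarith)]
  · intro t
    have : pj (0 - 1) = 0 := pj_of_le (by norm_num)
    simp only [Icc.coe_zero, this, mul_zero, pj_zero, add_zero]
    rw [← hb, b.source]
  · intro t
    have h1 : pj 2 = 1 := pj_of_ge (by norm_num)
    have h2 : pj (2 - 1) = 1 := pj_of_ge (by norm_num)
    simp only [Icc.coe_one, h1, h2, mul_one, sub_add_cancel, pj_one]
    rw [← hr, r.target]

theorem exists_ext {A Y : Type} [TopologicalSpace A] [TopologicalSpace Y] (S : Set A) (g : S → Y)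
    (hg : Continuous g) (y0 : Y) :
    ∃ G : A → Y, ContinuousOn G S ∧ (∀ x (hx : x ∈ S), G x = g ⟨x, hx⟩) ∧ ∀ x, x ∉ S → G x = y0 := by
  classical
  refine ⟨fun x => if h : x ∈ S then g ⟨x, h⟩ else y0, ?_, fun x hx => dif_pos hx,
    fun x hx => dif_neg hx⟩
  rw [continuousOn_iff_continuous_domRestrict]
  convert hg using 1
  funext x
  exact dif_pos x.2

/-- A homotopy from the composite of two sides to the third one fills the triangle. -/
theorem tri_fill {x y z : X} {a : Path x y} {b : Path y z} {c : Path x z}
    (h : (a.trans b).Homotopic c) : ∃ G : ℝ × ℝ → X, ContinuousOn G Tri ∧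
      ∀ t : I, G (t, 0) = a t ∧ G (1 - t, t) = b t ∧ G (0, t) = c t := by
  obtain ⟨H⟩ := h
  let A : I × I → ℝ := fun p => (1 - p.1) * (2 * min (p.2 : ℝ) (1 - p.2))
  have hA : ∀ p, 0 ≤ A p ∧ A p ≤ 2 * min (p.2 : ℝ) (1 - p.2) := by
    intro p
    have h1 : 0 ≤ min (p.2 : ℝ) (1 - p.2) := le_min p.2.2.1 (by have := p.2.2.2; linarith)
    have h2 := p.1.2.1
    have h3 := p.1.2.2
    constructor
    · exact mul_nonneg (by linarith) (by linarith)
    · simp only [A]; nlinarith
  let π : I × I → Tri := fun p => ⟨(A p, p.2 - A p / 2), (hA p).1, by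
      have := (hA p).2
      have := min_le_left (p.2 : ℝ) (1 - p.2)
      simp only; linarith, by
      have := (hA p).2
      have := min_le_right (p.2 : ℝ) (1 - p.2)
      simp only; linarith⟩
  have hπ : Continuous π := by
    refine Continuous.subtype_mk ?_ _
    simp only [A]
    fun_prop
  have hsurj : Function.Surjective π := by
    rintro ⟨⟨u, v⟩, hu, hv, huv⟩
    simp only at hu hv huv
    have hs : v + u / 2 ∈ I := ⟨by linarith, by linarith⟩
    have hm : u / 2 ≤ min (v + u / 2) (1 - (v + u / 2)) := le_min (by linarith) (by linarith)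
    by_cases h0 : min (v + u / 2) (1 - (v + u / 2)) = 0
    · refine ⟨(0, ⟨v + u / 2, hs⟩), Subtype.ext ?_⟩
      have : u = 0 := by linarith
      simp only [π, A, h0]
      subst this
      simp
    · have hpos : 0 < min (v + u / 2) (1 - (v + u / 2)) := lt_of_le_of_ne (by linarith) (Ne.symm h0)
      have ht : 1 - u / (2 * min (v + u / 2) (1 - (v + u / 2))) ∈ I := by
        constructor
        · rw [sub_nonneg, div_le_one (by linarith)]; linarith
        · have : 0 ≤ u / (2 * min (v + u / 2) (1 - (v + u / 2))) := by positivity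
          linarith
      refine ⟨(⟨_, ht⟩, ⟨v + u / 2, hs⟩), Subtype.ext ?_⟩
      have e : A (⟨_, ht⟩, ⟨v + u / 2, hs⟩) = u := by
        simp only [A]
        generalize min (v + u / 2) (1 - (v + u / 2)) = m at h0
        field_simp; ring
      simp only [π, e]
      congr 1; ring
  have hq : IsQuotientMap π := hπ.isClosedMap.isQuotientMap hπ hsurj
  have hfib : ∀ p p', π p = π p' → H p = H p' := by
    rintro ⟨t, s⟩ ⟨t', s'⟩ hpp
    have h1 : A (t, s) = A (t', s') := congrArg (fun q : Tri => q.1.1) hpp
    have h2 : (s : ℝ) - A (t, s) / 2 = s' - A (t', s') / 2 := congrArg (fun q : Tri => q.1.2) hpp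
    have h3 : s = s' := Subtype.ext (by linarith)
    subst h3
    by_cases h0 : min (s : ℝ) (1 - s) = 0
    · rcases min_eq_iff.1 h0 with h4 | h4
      · have : s = 0 := Subtype.ext h4.1
        rw [this, H.source, H.source]
      · have : s = 1 := Subtype.ext (by have := h4.1; simp only [Icc.coe_one]; linarith)
        rw [this, H.target, H.target]
    · simp only [A] at h1
      have : t = t' := Subtype.ext (by
        have := mul_right_cancel₀ (mul_ne_zero two_ne_zero h0) h1
        linarith)
      rw [this]
  let G' : Tri → X := fun q => H (Function.surjInv hsurj q)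
  have hG' : ∀ p, G' (π p) = H p := fun p => hfib _ _ (Function.surjInv_eq hsurj _)
  have hc : Continuous G' := by
    rw [hq.continuous_iff]
    have : G' ∘ π = H := funext hG'
    rw [this]
    exact H.continuous
  obtain ⟨G, hG, hG1, -⟩ := exists_ext Tri G' hc x
  have key : ∀ (p : I × I) (q : ℝ × ℝ), (π p).1 = q → G q = H p := by
    intro p q hq
    subst hq
    rw [hG1 _ (π p).2]
    exact hG' p
  refine ⟨G, hG, fun t => ⟨?_, ?_, ?_⟩⟩
  · have h0 := t.2.1
    have h1 := t.2.2
    rw [key (0, pj (t / 2)) (t, 0) (by
      simp only [π, A, coe_pj (t := t / 2) (by linarith) (by linarith), Icc.coe_zero]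
      rw [min_eq_left (by linarith)]
      congr 1 <;> ring)]
    rw [H.apply_zero]
    change (a.trans b) _ = _
    rw [trans_left _ _ (by linarith), show 2 * ((t : ℝ) / 2) = t by ring, pj_coe]
  · have h0 := t.2.1
    have h1 := t.2.2
    rw [key (0, pj ((1 + t) / 2)) (1 - t, t) (by
      simp only [π, A, coe_pj (t := (1 + t) / 2) (by linarith) (by linarith), Icc.coe_zero]
      rw [min_eq_right (by linarith)]
      congr 1 <;> ring)]
    rw [H.apply_zero]
    change (a.trans b) _ = _
    rw [trans_right _ _ (by linarith), show 2 * ((1 + (t : ℝ)) / 2) - 1 = t by ring, pj_coe]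
  · rw [key (1, t) (0, t) (by simp [π, A])]
    rw [H.apply_one]
    rfl

/-- The fundamental group of a loop space is commutative. -/
theorem loop_comm (w0 : X) (p q : Pi1 (Path.refl w0)) : p * q = q * p := by
  obtain ⟨a, rfl⟩ := cls_surj p
  obtain ⟨b, rfl⟩ := cls_surj q
  let a' : Path (Path.refl w0) (Path.refl w0) :=
    ⟨⟨fun t => (a t).trans (Path.refl w0), a.continuous.path_trans continuous_const⟩,
      by simp, by simp⟩
  let b' : Path (Path.refl w0) (Path.refl w0) :=
    ⟨⟨fun t => (Path.refl w0).trans (b t), continuous_const.path_trans b.continuous⟩,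
      by simp, by simp⟩
  have ha : cls a' = cls a := by
    refine cls_eq.2 (homotopic_of_fun (fun z => Path.delayReflRight z.1 (a z.2))
      (Path.continuous_delayReflRight.comp (continuous_fst.prodMk (a.continuous.comp continuous_snd)))
      (fun s => Path.delayReflRight_zero _) (fun s => Path.delayReflRight_one _) ?_ ?_)
    · intro t; simp only [Path.source]; rfl
    · intro t; simp only [Path.target]; rfl
  have hb : cls b' = cls b := by
    refine cls_eq.2 (homotopic_of_fun (fun z => Path.delayReflLeft z.1 (b z.2))
      (Path.continuous_delayReflLeft.comp (continuous_fst.prodMk (b.continuous.comp continuous_snd)))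
      (fun s => Path.delayReflLeft_zero _) (fun s => Path.delayReflLeft_one _) ?_ ?_)
    · intro t; simp only [Path.source]; rfl
    · intro t; simp only [Path.target]; rfl
  rw [← ha, ← hb, ← cls_trans, ← cls_trans, cls_eq]
  refine square (fun z => (a z.1).trans (b z.2))
    ((a.continuous.comp continuous_fst).path_trans (b.continuous.comp continuous_snd))
    a' b' b' a' ?_ ?_ ?_ ?_ <;> intro t <;> simp [a', b']

/-- Products of path classes pushed forward by a map of two variables. -/
noncomputable def MQ {A B : Type} [TopologicalSpace A] [TopologicalSpace B] (m : C(A × B, X))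
    {x y : A} {k l : B} (P : Path.Homotopic.Quotient x y) (Q : Path.Homotopic.Quotient k l) :
    Path.Homotopic.Quotient (m (x, k)) (m (y, l)) := (Path.Homotopic.prod P Q).map m

theorem MQ_mk {A B : Type} [TopologicalSpace A] [TopologicalSpace B] (m : C(A × B, X))
    {x y : A} {k l : B} (p : Path x y) (q : Path k l) :
    MQ m (.mk p) (.mk q) = .mk ((p.prod q).map m.continuous) := rfl

theorem MQ_trans {A B : Type} [TopologicalSpace A] [TopologicalSpace B] (m : C(A × B, X))
    {x y z : A} {k l n : B} (P : Path.Homotopic.Quotient x y) (P' : Path.Homotopic.Quotient y z)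
    (Q : Path.Homotopic.Quotient k l) (Q' : Path.Homotopic.Quotient l n) :
    MQ m (P.trans P') (Q.trans Q') = (MQ m P Q).trans (MQ m P' Q') := by
  induction P with | mk p =>
  induction P' with | mk p' =>
  induction Q with | mk q =>
  induction Q' with | mk q' =>
  rw [← Path.Homotopic.Quotient.mk_trans, ← Path.Homotopic.Quotient.mk_trans, MQ_mk, MQ_mk, MQ_mk,
    ← Path.Homotopic.Quotient.mk_trans, ← Path.trans_prod_eq_prod_trans, Path.map_trans]

theorem MQ_refl {A B : Type} [TopologicalSpace A] [TopologicalSpace B] (m : C(A × B, X))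
    (x : A) (k : B) : MQ m (.refl x) (.refl k) = .refl _ := rfl

end General

end H432Z
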