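import Pool.Agent.H432Z.Jug

set_option autoImplicit false
set_option linter.unusedSectionVars false

/-! The triangulated product of a complex with a graph. -/

namespace H432Z

open Set Topology unitInterval

variable {V Y : Type} [DecidableEq V] [DecidableEq Y]

/-- The simplices of the prism over an oriented edge. -/
def Pr (r : V → ℕ) (A : Set (Finset V)) (e : Y × Y) : Set (Finset (V × Y)) :=
  {S | ∃ ξ ∈ A, ∃ k : ℕ, ∀ p ∈ S, p.1 ∈ ξ ∧ ((p.2 = e.1 ∧ r p.1 ≤ k) ∨ (p.2 = e.2 ∧ k ≤ r p.1))}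

/-- The product of a complex and a graph. -/
def Tm (r : V → ℕ) (A : Set (Finset V)) (Ed : Set (Y × Y)) : Set (Finset (V × Y)) :=
  {S | ∃ e ∈ Ed, S ∈ Pr r A e}

/-- The graph as a complex. -/
def Gr (Ed : Set (Y × Y)) : Set (Finset Y) := {s | ∃ e ∈ Ed, s ⊆ {e.1, e.2}}

theorem Down_Gr (Ed : Set (Y × Y)) : Down (Gr Ed) :=
  fun _ ⟨e, he, hs⟩ _ ht => ⟨e, he, ht.trans hs⟩

theorem finite_Gr {Ed : Set (Y × Y)} (h : Ed.Finite) : (Gr Ed).Finite := by
  refine (h.biUnion (t := fun e => (({e.1, e.2} : Finset Y).powerset : Set (Finset Y)))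
    fun e _ => Finset.finite_toSet _).subset ?_
  rintro s ⟨e, he, hs⟩
  exact mem_biUnion he (Finset.mem_coe.2 (Finset.mem_powerset.2 hs))

theorem card_Gr {Ed : Set (Y × Y)} {s : Finset Y} (h : s ∈ Gr Ed) : s.card ≤ 2 := by
  obtain ⟨e, -, hs⟩ := h
  exact (Finset.card_le_card hs).trans Finset.card_le_two

variable {r : V → ℕ} {A : Set (Finset V)} {Ed : Set (Y × Y)} {U : Finset V}

theorem Down_Pr (e : Y × Y) : Down (Pr r A e) :=
  fun _ ⟨ξ, hξ, k, h⟩ _ ht => ⟨ξ, hξ, k, fun p hp => h p (ht hp)⟩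

theorem Down_Tm : Down (Tm r A Ed) := fun _ ⟨e, he, hs⟩ t ht => ⟨e, he, Down_Pr e _ hs t ht⟩

theorem finite_Pr (hU : ∀ ξ ∈ A, ξ ⊆ U) (e : Y × Y) : (Pr r A e).Finite := by
  refine (Finset.finite_toSet (U ×ˢ ({e.1, e.2} : Finset Y)).powerset).subset ?_
  rintro S ⟨ξ, hξ, k, h⟩
  simp only [Finset.coe_powerset, mem_preimage, mem_powerset_iff, Finset.coe_subset]
  intro p hp
  have := h p hp
  simp only [Finset.mem_product, Finset.mem_insert, Finset.mem_singleton]
  exact ⟨hU ξ hξ this.1, this.2.imp And.left And.left⟩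

theorem finite_Tm (hU : ∀ ξ ∈ A, ξ ⊆ U) (hE : Ed.Finite) : (Tm r A Ed).Finite := by
  refine (hE.biUnion (t := fun e => Pr r A e) fun e _ => finite_Pr hU e).subset ?_
  rintro s ⟨e, he, hs⟩
  exact mem_biUnion he hs

theorem card_Tm (hr : Function.Injective r) {n : ℕ} (hA : ∀ ξ ∈ A, ξ.card ≤ n)
    {S : Finset (V × Y)} (hS : S ∈ Tm r A Ed) : S.card ≤ n + 1 := by
  obtain ⟨e, -, ξ, hξ, k, h⟩ := hS
  have h1 : S ⊆ (ξ.filter (r · ≤ k)).image (·, e.1) ∪ (ξ.filter (k ≤ r ·)).image (·, e.2) := by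
    intro p hp
    obtain ⟨a, b⟩ := h p hp
    simp only [Finset.mem_union, Finset.mem_image, Finset.mem_filter]
    rcases b with b | b
    · exact Or.inl ⟨p.1, ⟨a, b.2⟩, Prod.ext rfl b.1.symm⟩
    · exact Or.inr ⟨p.1, ⟨a, b.2⟩, Prod.ext rfl b.1.symm⟩
  have h2 := Finset.card_union_add_card_inter (ξ.filter (r · ≤ k)) (ξ.filter (k ≤ r ·))
  have h3 : (ξ.filter (r · ≤ k) ∪ ξ.filter (k ≤ r ·)).card ≤ ξ.card :=
    Finset.card_le_card (Finset.union_subset (Finset.filter_subset _ _) (Finset.filter_subset _ _))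
  have h4 : (ξ.filter (r · ≤ k) ∩ ξ.filter (k ≤ r ·)).card ≤ 1 := by
    refine Finset.card_le_one.2 fun a ha b hb => hr ?_
    simp only [Finset.mem_inter, Finset.mem_filter] at ha hb
    omega
  have h5 := (Finset.card_le_card h1).trans ((Finset.card_union_le _ _).trans
    (add_le_add Finset.card_image_le Finset.card_image_le))
  have := hA ξ hξ
  omega

/-- The mass on the upper level. -/
noncomputable def top (r : V → ℕ) (U : Finset V) (x : V → ℝ) (t : ℝ) (a : V) : ℝ :=
  min (x a) (max 0 (t - ∑ b ∈ U.filter (r a < r ·), x b))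

/-- The parametrization of a prism. -/
noncomputable def Phi (r : V → ℕ) (U : Finset V) (e : Y × Y) (x : V → ℝ) (t : ℝ) : V × Y → ℝ :=
  fun p => if p.2 = e.2 then top r U x t p.1 else if p.2 = e.1 then x p.1 - top r U x t p.1 else 0

/-- A level of the product. -/
def emb (y : Y) (x : V → ℝ) : V × Y → ℝ := fun p => if p.2 = y then x p.1 else 0

theorem continuous_emb (y : Y) : Continuous (emb y : (V → ℝ) → V × Y → ℝ) := by
  refine continuous_pi fun p => ?_
  unfold emb
  split_ifs <;> fun_prop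

theorem continuous_Phi (e : Y × Y) : Continuous fun z : (V → ℝ) × ℝ => Phi r U e z.1 z.2 := by
  refine continuous_pi fun p => ?_
  unfold Phi top
  split_ifs <;> fun_prop

theorem emb_pt (y : Y) (a : V) : emb y (pt a) = pt (a, y) := by
  funext p
  simp only [emb, pt, Prod.ext_iff]
  by_cases h1 : p.2 = y <;> by_cases h2 : p.1 = a <;> simp [h1, h2]

theorem emb_seg (y : Y) (x x' : V → ℝ) (t : ℝ) :
    emb y (seg x x' t) = seg (emb y x) (emb y x') t := by
  funext p
  simp only [emb, seg]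
  split_ifs <;> simp

theorem Phi_zero {e : Y × Y} (he : e.1 ≠ e.2) {x : V → ℝ} (hx : ∀ a, 0 ≤ x a) :
    Phi r U e x 0 = emb e.1 x := by
  have h : ∀ a, top r U x 0 a = 0 := by
    intro a
    have : 0 ≤ ∑ b ∈ U.filter (r a < r ·), x b := Finset.sum_nonneg fun b _ => hx b
    unfold top
    rw [max_eq_left (by linarith), min_eq_right (hx a)]
  funext p
  simp only [Phi, emb, h, sub_zero]
  split_ifs with h1 h2
  · exact absurd (h2.symm.trans h1) he
  all_goals rfl

theorem sum_U {ξ : Finset V} (hξ : ξ ⊆ U) {x : V → ℝ} (hx : x ∈ Smp ξ) : ∑ b ∈ U, x b = 1 :=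
  (Smp_mono hξ hx).2.2

theorem Phi_one {e : Y × Y} {ξ : Finset V} (hξ : ξ ⊆ U) {x : V → ℝ} (hx : x ∈ Smp ξ) :
    Phi r U e x 1 = emb e.2 x := by
  have h : ∀ a, top r U x 1 a = x a := by
    intro a
    unfold top
    refine min_eq_left ?_
    by_cases ha : a ∈ U
    · refine le_max_of_le_right ?_
      have h1 : ∑ b ∈ insert a (U.filter (r a < r ·)), x b ≤ ∑ b ∈ U, x b :=
        Finset.sum_le_sum_of_subset_of_nonneg
          (Finset.insert_subset ha (Finset.filter_subset _ _)) fun b _ _ => hx.1 b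
      rw [Finset.sum_insert (by simp), sum_U hξ hx] at h1
      linarith
    · rw [hx.2.1 a fun h => ha (hξ h)]; exact le_max_left _ _
  funext p
  simp only [Phi, emb, h, sub_self]
  split_ifs <;> rfl

theorem top_nonneg {x : V → ℝ} (hx : ∀ a, 0 ≤ x a) (t : ℝ) (a : V) : 0 ≤ top r U x t a :=
  le_min (hx a) (le_max_left _ _)

theorem Phi_mem {e : Y × Y} (he : e.1 ≠ e.2) {ξ : Finset V} (hA : ξ ∈ A) (hξ : ξ ⊆ U)
    {x : V → ℝ} (hx : x ∈ Smp ξ) (t : ℝ) : Phi r U e x t ∈ Rl (Pr r A e) := by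
  classical
  have hz : ∀ a, a ∉ ξ → top r U x t a = 0 := fun a ha =>
    le_antisymm ((min_le_left _ _).trans (hx.2.1 a ha).le) (top_nonneg hx.1 t a)
  have h1 : Phi r U e x t ∈ Smp (ξ ×ˢ ({e.1, e.2} : Finset Y)) := by
    refine ⟨fun p => ?_, fun p hp => ?_, ?_⟩
    · unfold Phi
      split_ifs
      · exact top_nonneg hx.1 t _
      · exact sub_nonneg.2 (min_le_left _ _)
      · exact le_rfl
    · simp only [Finset.mem_product, Finset.mem_insert, Finset.mem_singleton, not_and_or, not_or] at hp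
      unfold Phi
      rcases hp with hp | hp
      · rw [hz _ hp, hx.2.1 _ hp]; simp
      · rw [if_neg hp.2, if_neg hp.1]
    · rw [Finset.sum_product, ← hx.2.2]
      refine Finset.sum_congr rfl fun a _ => ?_
      rw [Finset.sum_pair he]
      simp [Phi, he]
  have key : ∀ a a', top r U x t a ≠ 0 → x a' - top r U x t a' ≠ 0 → r a' ≤ r a := by
    intro a a' ha ha'
    by_contra hlt
    push Not at hlt
    have h2 : 0 < top r U x t a := lt_of_le_of_ne (top_nonneg hx.1 t a) (Ne.symm ha)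
    have h3 : 0 < t - ∑ b ∈ U.filter (r a < r ·), x b := by
      have := (lt_min_iff.1 h2).2
      simpa using this
    have h4 : a' ∈ U := by
      by_contra hn
      have : a' ∉ ξ := fun h => hn (hξ h)
      rw [hz a' this, hx.2.1 a' this] at ha'
      simp at ha'
    have h5 : ∑ b ∈ insert a' (U.filter (r a' < r ·)), x b ≤ ∑ b ∈ U.filter (r a < r ·), x b := by
      refine Finset.sum_le_sum_of_subset_of_nonneg (Finset.insert_subset (by simp [h4, hlt]) ?_)
        fun b _ _ => hx.1 b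
      intro b hb
      simp only [Finset.mem_filter] at hb ⊢
      exact ⟨hb.1, by omega⟩
    rw [Finset.sum_insert (by simp)] at h5
    apply ha'
    unfold top
    rw [min_eq_left (le_max_of_le_right (by linarith)), sub_self]
  refine ⟨(ξ ×ˢ ({e.1, e.2} : Finset Y)).filter (Phi r U e x t · ≠ 0), ⟨ξ, hA,
    (ξ.filter fun a => x a - top r U x t a ≠ 0).sup r, fun p hp => ?_⟩, mem_Smp_of_zero h1 ?_⟩
  · simp only [Finset.mem_filter, Finset.mem_product, Finset.mem_insert, Finset.mem_singleton] at hp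
    obtain ⟨⟨p1, p2⟩, p3⟩ := hp
    refine ⟨p1, ?_⟩
    by_cases h : p.2 = e.2
    · refine Or.inr ⟨h, Finset.sup_le fun a ha => key _ _ ?_ (Finset.mem_filter.1 ha).2⟩
      simpa [Phi, h] using p3
    · have h' : p.2 = e.1 := p2.resolve_right h
      refine Or.inl ⟨h', Finset.le_sup (f := r) (Finset.mem_filter.2 ⟨p1, ?_⟩)⟩
      unfold Phi at p3
      rwa [if_neg h, if_pos h'] at p3
  · intro p hp
    by_contra hn
    refine hp (Finset.mem_filter.2 ⟨?_, hn⟩)
    by_contra hn'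
    exact hn (h1.2.1 p hn')

/-- The first projection on a prism. -/
def prA (e : Y × Y) (z : V × Y → ℝ) : V → ℝ := fun a => z (a, e.1) + z (a, e.2)

/-- The mass of a level. -/
def prT (U : Finset V) (z : V × Y → ℝ) : Y → ℝ := fun y => ∑ a ∈ U, z (a, y)

theorem continuous_prA (e : Y × Y) : Continuous (prA e : (V × Y → ℝ) → V → ℝ) := by
  unfold prA; fun_prop

theorem continuous_prT : Continuous (prT U : (V × Y → ℝ) → Y → ℝ) := by
  unfold prT; fun_prop

theorem Pr_facts (hU : ∀ ξ ∈ A, ξ ⊆ U) {e : Y × Y} (he : e.1 ≠ e.2) {z : V × Y → ℝ}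
    (hz : z ∈ Rl (Pr r A e)) : ∃ ξ ∈ A, ∃ k : ℕ, prA e z ∈ Smp ξ ∧ (∀ p, 0 ≤ z p) ∧
      prT U z ∈ Smp ({e.1, e.2} : Finset Y) ∧
      ∀ p, z p ≠ 0 → p.1 ∈ ξ ∧ ((p.2 = e.1 ∧ r p.1 ≤ k) ∨ (p.2 = e.2 ∧ k ≤ r p.1)) := by
  obtain ⟨S, ⟨ξ, hξ, k, h⟩, hz⟩ := hz
  have h1 : ∀ p, z p ≠ 0 → p.1 ∈ ξ ∧ ((p.2 = e.1 ∧ r p.1 ≤ k) ∨ (p.2 = e.2 ∧ k ≤ r p.1)) := by
    intro p hp
    by_contra hn
    exact hp (hz.2.1 p fun hS => hn (h p hS))
  have h2 : ∀ W : Finset V, ξ ⊆ W → z ∈ Smp (W ×ˢ ({e.1, e.2} : Finset Y)) := by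
    intro W hW
    refine mem_Smp_of_zero hz fun p hp => ?_
    by_contra hn
    obtain ⟨a, b⟩ := h1 p hn
    apply hp
    simp only [Finset.mem_product, Finset.mem_insert, Finset.mem_singleton]
    exact ⟨hW a, b.imp And.left And.left⟩
  refine ⟨ξ, hξ, k, ⟨fun a => add_nonneg (hz.1 _) (hz.1 _), fun a ha => ?_, ?_⟩, hz.1,
    ⟨fun y => Finset.sum_nonneg fun a _ => hz.1 _, fun y hy => Finset.sum_eq_zero fun a _ => ?_,
      ?_⟩, h1⟩
  · have : ∀ y, z (a, y) = 0 := fun y => by
      by_contra hn; exact ha (h1 _ hn).1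
    simp [prA, this]
  · rw [← (h2 ξ subset_rfl).2.2, Finset.sum_product]
    exact Finset.sum_congr rfl fun a _ => by rw [Finset.sum_pair he]; rfl
  · by_contra hn
    apply hy
    simpa using (h1 _ hn).2.imp And.left And.left
  · rw [← (h2 U (hU ξ hξ)).2.2, Finset.sum_product_right]
    rfl

theorem Phi_pr (hr : Function.Injective r) (hU : ∀ ξ ∈ A, ξ ⊆ U) {e : Y × Y} (he : e.1 ≠ e.2)
    {z : V × Y → ℝ} (hz : z ∈ Rl (Pr r A e)) : Phi r U e (prA e z) (prT U z e.2) = z := by
  obtain ⟨ξ, hξ, k, h1, h0, -, h3⟩ := Pr_facts hU he hz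
  have z1 : ∀ a, k < r a → z (a, e.1) = 0 := by
    intro a ha
    by_contra hn
    rcases (h3 _ hn).2 with h | h
    · have := h.2; simp only at this; omega
    · exact he h.1
  have z2 : ∀ a, r a < k → z (a, e.2) = 0 := by
    intro a ha
    by_contra hn
    rcases (h3 _ hn).2 with h | h
    · exact he h.1.symm
    · have := h.2; simp only at this; omega
  have ht : ∀ a, top r U (prA e z) (prT U z e.2) a = z (a, e.2) := by
    intro a
    unfold top
    by_cases ha : a ∈ U
    · have s1 := Finset.sum_filter_add_sum_filter_not U (r a < r ·) fun b => z (b, e.2)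
      have s2 : ∑ b ∈ U.filter (r a < r ·), prA e z b = ∑ b ∈ U.filter (r a < r ·), z (b, e.1) +
          ∑ b ∈ U.filter (r a < r ·), z (b, e.2) := by
        simp only [prA, Finset.sum_add_distrib]
      have s3 : 0 ≤ ∑ b ∈ U.filter (r a < r ·), z (b, e.1) := Finset.sum_nonneg fun b _ => h0 _
      rw [s2]
      unfold prT
      rw [← s1]
      rcases lt_or_ge (r a) k with hk | hk
      · have s4 : ∑ b ∈ U.filter (fun b => ¬ r a < r b), z (b, e.2) = 0 :=
          Finset.sum_eq_zero fun b hb => z2 b (by have := (Finset.mem_filter.1 hb).2; omega)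
        rw [s4, max_eq_left (by linarith), z2 a hk, min_eq_right (h1.1 a)]
      · have s4 : ∑ b ∈ U.filter (r a < r ·), z (b, e.1) = 0 :=
          Finset.sum_eq_zero fun b hb => z1 b (by have := (Finset.mem_filter.1 hb).2; omega)
        have s5 := Finset.add_sum_erase (U.filter (fun b => ¬ r a < r b)) (fun b => z (b, e.2))
          (a := a) (by simp [ha])
        have s6 : 0 ≤ ∑ b ∈ (U.filter (fun b => ¬ r a < r b)).erase a, z (b, e.2) :=
          Finset.sum_nonneg fun b _ => h0 _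
        have s7 := h0 (a, e.2)
        have s8 := h0 (a, e.1)
        rw [s4, max_eq_right (by linarith)]
        rcases hk.eq_or_lt with hk | hk
        · have s9 : ∑ b ∈ (U.filter (fun b => ¬ r a < r b)).erase a, z (b, e.2) = 0 := by
            refine Finset.sum_eq_zero fun b hb => z2 b ?_
            simp only [Finset.mem_erase, Finset.mem_filter] at hb
            have : r b ≠ r a := fun h => hb.1 (hr h)
            omega
          rw [min_eq_right (by simp only [prA]; linarith)]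
          linarith
        · rw [min_eq_left (by simp only [prA, z1 a hk]; linarith)]
          simp [prA, z1 a hk]
    · have : ∀ y, z (a, y) = 0 := fun y => by
        by_contra hn; exact ha (hU ξ hξ (h3 _ hn).1)
      simp [prA, this]
  funext ⟨a, y⟩
  simp only [Phi, ht]
  split_ifs with h4 h5
  · rw [h4]
  · rw [h5]; simp [prA]
  · by_contra hn
    rcases (h3 _ (Ne.symm hn)).2 with h | h
    · exact h5 h.1
    · exact h4 h.1

theorem Phi_pt {e : Y × Y} (he : e.1 ≠ e.2) (a : V) {t : ℝ} (h0 : 0 ≤ t) (h1 : t ≤ 1) :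
    Phi r U e (pt a) t = seg (pt (a, e.1)) (pt (a, e.2)) t := by
  have ht : ∀ b, top r U (pt a) t b = t * pt a b := by
    intro b
    unfold top
    by_cases h : b = a
    · subst h
      have : ∑ c ∈ U.filter (r b < r ·), pt b c = 0 := Finset.sum_eq_zero fun c hc => by
        unfold pt
        rw [if_neg]
        rintro rfl
        simp at hc
      rw [this, sub_zero, max_eq_right h0]
      simp [pt, h1]
    · simp [pt, h]
  funext ⟨b, y⟩
  rw [← emb_pt, ← emb_pt]
  simp only [Phi, ht, seg, emb]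
  split_ifs with h2 h3 h3
  · exact absurd (h3.symm.trans h2) he
  all_goals ring

theorem prT_seg (z z' : V × Y → ℝ) (t : ℝ) : prT U (seg z z' t) = seg (prT U z) (prT U z') t := by
  funext y
  simp only [prT, seg, Finset.sum_add_distrib, Finset.mul_sum]

theorem prT_pt {a : V} (ha : a ∈ U) (y : Y) : prT U (pt (a, y)) = pt y := by
  funext y'
  simp only [prT, pt, Prod.mk.injEq]
  by_cases h : y' = y <;> simp [h, ha]

theorem isClosed_Rl {K : Set (Finset V)} (hK : K.Finite) : IsClosed (Rl K) := by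
  have e : Rl K = ⋃ s ∈ K, Smp s := by ext x; simp [Rl]
  rw [e]
  exact hK.isClosed_biUnion fun s _ => isClosed_Smp s

variable {W : Type} [TopologicalSpace W] {w0 : W}

theorem prism_lift (hr : Function.Injective r) (hU : ∀ ξ ∈ A, ξ ⊆ U) (hfin : A.Finite)
    (he : ∅ ∈ A) (hd : Down A) (h3 : ∀ ξ ∈ A, ξ.card ≤ 3) (hH1 : H1 A) (hH2 : H2 A)
    (hE : Ed.Finite) (hE1 : ∀ e ∈ Ed, e.1 ≠ e.2) (hE2 : ∀ e ∈ Ed, (e.2, e.1) ∉ Ed)
    (f : (V × Y → ℝ) → W) (hf : ContinuousOn f (Rl (Tm r A Ed)))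
    (ε : ∀ p : V × Y, Path (f (pt p)) w0) (hε : Fillable (Tm r A Ed) f ε) :
    ∃ H : (V × Y → ℝ) → PW w0, ContinuousOn H (Rl (Tm r A Ed)) ∧
      (∀ z ∈ Rl (Tm r A Ed), (H z).1 0 = f z) ∧
      ∀ p, {p} ∈ Tm r A Ed → ∀ h : (H (pt p)).1 0 = f (pt p),
        (ofPW (H (pt p)) h).Homotopic (ε p) := by
  have hsub : ∀ e ∈ Ed, Pr r A e ⊆ Tm r A Ed := fun e he S hS => ⟨e, he, hS⟩
  have hPhi : ∀ e ∈ Ed, ∀ x ∈ Rl A, ∀ t, Phi r U e x t ∈ Rl (Tm r A Ed) := by
    rintro e he x ⟨ξ, hξ, hx⟩ t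
    exact Rl_mono (hsub e he) (Phi_mem (hE1 e he) hξ (hU ξ hξ) hx t)
  have hP0 : ∀ e ∈ Ed, ∀ x ∈ Rl A, Phi r U e x 0 = emb e.1 x :=
    fun e he x ⟨ξ, _, hx⟩ => Phi_zero (hE1 e he) hx.1
  have hP1 : ∀ e ∈ Ed, ∀ x ∈ Rl A, Phi r U e x 1 = emb e.2 x :=
    fun e _ x ⟨ξ, hξ, hx⟩ => Phi_one (hU ξ hξ) hx
  have hlev : ∀ y : Y, ∃ Hy : (V → ℝ) → PW w0, (∃ e ∈ Ed, y = e.1 ∨ y = e.2) →
      ContinuousOn Hy (Rl A) ∧ (∀ x ∈ Rl A, (Hy x).1 0 = f (emb y x)) ∧
      ∀ a, {a} ∈ A → ∀ h : (Hy (pt a)).1 0 = f (pt (a, y)),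
        (ofPW (Hy (pt a)) h).Homotopic (ε (a, y)) := by
    intro y
    by_cases hy : ∃ e ∈ Ed, y = e.1 ∨ y = e.2
    · obtain ⟨e, heE, hy⟩ := hy
      have hm : MapsTo (emb y) (Rl A) (Rl (Tm r A Ed)) := by
        intro x hx
        rcases hy with rfl | rfl
        · rw [← hP0 e heE x hx]; exact hPhi e heE x hx 0
        · rw [← hP1 e heE x hx]; exact hPhi e heE x hx 1
      obtain ⟨Hy, a1, a2, a3⟩ := null_of_fillable (w0 := w0) A hfin he hd h3 hH2
        (fun x => f (emb y x)) (hf.comp (continuous_emb y).continuousOn hm)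
        (fun a => (ε (a, y)).cast (by rw [emb_pt]) rfl) (by
          intro u v huv ρ hρ
          have m : ({(u, y), (v, y)} : Finset (V × Y)) ∈ Tm r A Ed := by
            refine ⟨e, heE, _, huv, ?_⟩
            rcases hy with rfl | rfl
            · refine ⟨r u + r v, fun p hp => ?_⟩
              simp only [Finset.mem_insert, Finset.mem_singleton] at hp
              rcases hp with rfl | rfl <;> simp
            · refine ⟨0, fun p hp => ?_⟩
              simp only [Finset.mem_insert, Finset.mem_singleton] at hp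
              rcases hp with rfl | rfl <;> simp
          exact hε (u, y) (v, y) m (ρ.cast (by rw [← emb_pt]) (by rw [← emb_pt])) (fun t => by
            change ρ t = _
            rw [hρ t]
            simp only [emb_seg, emb_pt]))
      exact ⟨Hy, fun _ => ⟨a1, a2, fun a ha h => a3 a ha (by rw [emb_pt]; exact h)⟩⟩
    · exact ⟨fun _ => toPW (Path.refl w0), fun h => absurd h hy⟩
  choose Hy hHy using hlev
  have hedge : ∀ e : Y × Y, ∃ G : (V × Y → ℝ) → PW w0, e ∈ Ed →
      ContinuousOn G (Rl (Pr r A e)) ∧ (∀ z ∈ Rl (Pr r A e), (G z).1 0 = f z) ∧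
      ∀ z ∈ Rl (Pr r A e), ∀ y, (∀ p, z p ≠ 0 → p.2 = y) → G z = Hy y fun a => z (a, y) := by
    intro e
    by_cases heE : e ∈ Ed
    · obtain ⟨a1, a2, a3⟩ := hHy e.1 ⟨e, heE, Or.inl rfl⟩
      obtain ⟨b1, b2, b3⟩ := hHy e.2 ⟨e, heE, Or.inr rfl⟩
      have hc : Continuous fun z : Rl A × I => f (Phi r U e z.1 z.2) :=
        hf.comp_continuous ((continuous_Phi e).comp (by fun_prop :
          Continuous fun z : Rl A × I => (z.1.1, (z.2 : ℝ)))) fun z => hPhi e heE _ z.1.2 _
      let ρ : ∀ x : Rl A, Path ((Hy e.1 x).1 0) ((Hy e.2 x).1 0) := fun x =>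
        ⟨⟨fun t => f (Phi r U e x t), hc.comp (Continuous.prodMk_right x)⟩,
          by simp only [Icc.coe_zero]
             rw [hP0 e heE x x.2, a2 x x.2],
          by simp only [Icc.coe_one]
             rw [hP1 e heE x x.2, b2 x x.2]⟩
      obtain ⟨sq, s1, s2, s3, s4⟩ := edge_lift A hfin he hd h3 hH1 hH2 (Hy e.1) (Hy e.2) a1 b1 ρ hc
        (by
          intro v hv
          have hv' := vertex_mem hd hv
          have e1 : (Hy e.1 (pt v)).1 0 = f (pt (v, e.1)) := by rw [a2 _ hv, emb_pt]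
          have e2 : (Hy e.2 (pt v)).1 0 = f (pt (v, e.2)) := by rw [b2 _ hv, emb_pt]
          have m : ({(v, e.1), (v, e.2)} : Finset (V × Y)) ∈ Tm r A Ed := by
            refine ⟨e, heE, _, hv', r v, fun p hp => ?_⟩
            simp only [Finset.mem_insert, Finset.mem_singleton] at hp
            rcases hp with rfl | rfl <;> simp
          have h1 := hε _ _ m ((ρ ⟨pt v, hv⟩).cast e1.symm e2.symm) (fun t => by
            rw [← Phi_pt (r := r) (U := U) (hE1 e heE) v t.2.1 t.2.2]; rfl)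
          exact (a3 v hv' e1).trans (h1.trans ((Path.Homotopic.refl _).hcomp (b3 v hv' e2).symm)))
      have hA : ∀ z : Rl (Pr r A e), prA e z ∈ Rl A := fun z => by
        obtain ⟨ξ, hξ, k, h1, -⟩ := Pr_facts hU (hE1 e heE) z.2
        exact ⟨ξ, hξ, h1⟩
      obtain ⟨G, g1, g2, -⟩ := exists_ext (Rl (Pr r A e))
        (fun z => sq (⟨prA e z, hA z⟩, pj (prT U z e.2)))
        (s1.comp ((((continuous_prA e).comp continuous_subtype_val).subtype_mk _).prodMk
          (continuous_pj.comp ((continuous_apply e.2).comp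
            (continuous_prT.comp continuous_subtype_val))))) (toPW (Path.refl w0))
      refine ⟨G, fun _ => ⟨g1, fun z hz => ?_, fun z hz y hy => ?_⟩⟩
      · obtain ⟨ξ, hξ, k, -, -, h2, -⟩ := Pr_facts hU (hE1 e heE) hz
        rw [g2 z hz, s2]
        change f (Phi r U e (prA e z) (pj (prT U z e.2))) = _
        rw [coe_pj (h2.1 _) (le_one_of_mem h2 _), Phi_pr hr hU (hE1 e heE) hz]
      · obtain ⟨ξ, hξ, k, -, -, h2, -⟩ := Pr_facts hU (hE1 e heE) hz
        have hz0 : ∀ a y', y' ≠ y → z (a, y') = 0 := fun a y' h => by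
          by_contra hn; exact h (hy _ hn)
        have hT0 : ∀ y', y' ≠ y → prT U z y' = 0 := fun y' h =>
          Finset.sum_eq_zero fun a _ => hz0 a y' h
        have hs := h2.2.2
        rw [Finset.sum_pair (hE1 e heE)] at hs
        rw [g2 z hz]
        by_cases h1 : e.1 = y
        · have h4 : e.2 ≠ y := fun h => hE1 e heE (h1.trans h.symm)
          simp only [hT0 _ h4, pj_zero, s3]
          subst h1
          congr 1
          funext a
          simp [prA, hz0 a _ h4]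
        · have h4 : e.2 = y := by
            by_contra h4
            rw [hT0 _ h1, hT0 _ h4] at hs
            norm_num at hs
          rw [hT0 _ h1, zero_add] at hs
          simp only [hs, pj_one, s4]
          subst h4
          congr 1
          funext a
          simp [prA, hz0 a _ h1]
    · exact ⟨fun _ => toPW (Path.refl w0), fun h => absurd h heE⟩
  choose G hG using hedge
  obtain ⟨H, c1, c2⟩ := glue Ed hE (fun e => Rl (Pr r A e))
    (fun e _ => isClosed_Rl (finite_Pr hU e)) G (fun _ => toPW (Path.refl w0))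
    (fun e he => (hG e he).1) (by
      intro e he e' he' z hz hz'
      by_cases hne : e = e'
      · rw [hne]
      · obtain ⟨ξ, -, k, -, -, -, h2⟩ := Pr_facts hU (hE1 e he) hz
        obtain ⟨ξ', -, k', -, -, -, h2'⟩ := Pr_facts hU (hE1 e' he') hz'
        have hex : ∃ y, ∀ p, z p ≠ 0 → p.2 = y := by
          by_contra hn
          push Not at hn
          obtain ⟨p, p1, p2⟩ := hn e.1
          obtain ⟨q, q1, q2⟩ := hn e.2
          have p3 : p.2 = e.2 := ((h2 p p1).2.resolve_left fun h => p2 h.1).1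
          have q3 : q.2 = e.1 := ((h2 q q1).2.resolve_right fun h => q2 h.1).1
          rcases (h2' p p1).2 with h | h <;> rcases (h2' q q1).2 with h' | h'
          · exact hE1 e he (q3.symm.trans (h'.1.trans (h.1.symm.trans p3)))
          · refine hE2 e he ?_
            have : (e.2, e.1) = e' := Prod.ext (p3.symm.trans h.1) (q3.symm.trans h'.1)
            rw [this]; exact he'
          · exact hne (Prod.ext (q3.symm.trans h'.1) (p3.symm.trans h.1))
          · exact hE1 e he (q3.symm.trans (h'.1.trans (h.1.symm.trans p3)))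
        obtain ⟨y, hy⟩ := hex
        rw [(hG e he).2.2 z hz y hy, (hG e' he').2.2 z hz' y hy])
  refine ⟨H, c1.mono ?_, ?_, ?_⟩
  · rintro z ⟨S, ⟨e, he, hS⟩, hz⟩
    exact ⟨e, he, S, hS, hz⟩
  · rintro z ⟨S, ⟨e, he, hS⟩, hz⟩
    rw [c2 e he ⟨S, hS, hz⟩]
    exact (hG e he).2.1 z ⟨S, hS, hz⟩
  · rintro ⟨a, y⟩ ⟨e, heE, hS⟩ h
    have m : pt (a, y) ∈ Rl (Pr r A e) := ⟨_, hS, pt_mem (by simp)⟩
    obtain ⟨ξ, hξ, k, hk⟩ := hS
    obtain ⟨k1, k2⟩ := hk (a, y) (by simp)
    have e1 : H (pt (a, y)) = Hy y (pt a) := by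
      rw [c2 e heE m, (hG e heE).2.2 _ m y (fun p hp => by
        by_contra hn
        apply hp
        unfold pt
        rw [if_neg]
        rintro rfl
        exact hn rfl)]
      congr 1
      funext b
      simp [pt]
    have h4 := (hHy y ⟨e, heE, k2.imp And.left And.left⟩).2.2 a
      (hd ξ hξ _ (Finset.singleton_subset_iff.2 k1)) (e1 ▸ h)
    convert h4

end H432Z
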