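import Pool.Agent.H432Z.Words

set_option autoImplicit false
set_option linter.unusedSectionVars false

/-! Cocycles on the product of a complex and a graph. -/

namespace H432Z

open Set Topology unitInterval

variable {V Y : Type} [DecidableEq V] [DecidableEq Y] {r : V → ℕ} {A : Set (Finset V)}
  {Ed : Set (Y × Y)} {G : Type} [Group G] {g : V × Y → V × Y → G}

theorem mem_Tm3 {ξ : Finset V} (hξ : ξ ∈ A) {e : Y × Y} (he : e ∈ Ed) (k : ℕ) {p q w : V × Y}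
    (hp : p.1 ∈ ξ ∧ ((p.2 = e.1 ∧ r p.1 ≤ k) ∨ (p.2 = e.2 ∧ k ≤ r p.1)))
    (hq : q.1 ∈ ξ ∧ ((q.2 = e.1 ∧ r q.1 ≤ k) ∨ (q.2 = e.2 ∧ k ≤ r q.1)))
    (hw : w.1 ∈ ξ ∧ ((w.2 = e.1 ∧ r w.1 ≤ k) ∨ (w.2 = e.2 ∧ k ≤ r w.1))) :
    {p, q, w} ∈ Tm r A Ed := by
  refine ⟨e, he, ξ, hξ, k, fun x hx => ?_⟩
  simp only [Finset.mem_insert, Finset.mem_singleton] at hx
  rcases hx with rfl | rfl | rfl <;> assumption

theorem mem_Tm_level {ξ : Finset V} (hξ : ξ ∈ A) {y : Y} (hy : {y} ∈ Gr Ed) :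
    ξ.image (·, y) ∈ Tm r A Ed := by
  obtain ⟨e, he, hy⟩ := hy
  have hy := Finset.singleton_subset_iff.1 hy
  simp only [Finset.mem_insert, Finset.mem_singleton] at hy
  rcases hy with rfl | rfl
  · refine ⟨e, he, ξ, hξ, ξ.sup r, fun p hp => ?_⟩
    obtain ⟨a, ha, rfl⟩ := Finset.mem_image.1 hp
    exact ⟨ha, Or.inl ⟨rfl, Finset.le_sup (f := r) ha⟩⟩
  · refine ⟨e, he, ξ, hξ, 0, fun p hp => ?_⟩
    obtain ⟨a, ha, rfl⟩ := Finset.mem_image.1 hp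
    exact ⟨ha, Or.inr ⟨rfl, Nat.zero_le _⟩⟩

theorem mem_Tm_fib {a : V} (ha : {a} ∈ A) {η : Finset Y} (hη : η ∈ Gr Ed) :
    η.image (a, ·) ∈ Tm r A Ed := by
  obtain ⟨e, he, hη⟩ := hη
  refine ⟨e, he, _, ha, r a, fun p hp => ?_⟩
  obtain ⟨y, hy, rfl⟩ := Finset.mem_image.1 hp
  have := hη hy
  simp only [Finset.mem_insert, Finset.mem_singleton] at this
  simpa using this

theorem Tm_fst {S : Finset (V × Y)} (hS : S ∈ Tm r A Ed) : ∃ ξ ∈ A, ∀ p ∈ S, p.1 ∈ ξ := by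
  obtain ⟨e, -, ξ, hξ, k, h⟩ := hS
  exact ⟨ξ, hξ, fun p hp => (h p hp).1⟩

theorem Tm_snd {S : Finset (V × Y)} (hS : S ∈ Tm r A Ed) : ∃ η ∈ Gr Ed, ∀ p ∈ S, p.2 ∈ η := by
  obtain ⟨e, he, ξ, -, k, h⟩ := hS
  refine ⟨_, mem_Gr (a := e.1) (b := e.2) he, fun p hp => ?_⟩
  simpa using (h p hp).2.imp And.left And.left

theorem Coc.level (hg : Coc (Tm r A Ed) g) {y : Y} (hy : {y} ∈ Gr Ed) :
    Coc A fun a b => g (a, y) (b, y) :=
  fun _ hξ _ hu _ hv _ hw => hg _ (mem_Tm_level hξ hy) _ (Finset.mem_image_of_mem _ hu) _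
    (Finset.mem_image_of_mem _ hv) _ (Finset.mem_image_of_mem _ hw)

theorem Coc.fib (hg : Coc (Tm r A Ed) g) {a : V} (ha : {a} ∈ A) :
    Coc (Gr Ed) fun y y' => g (a, y) (a, y') :=
  fun _ hξ _ hu _ hv _ hw => hg _ (mem_Tm_fib ha hξ) _ (Finset.mem_image_of_mem _ hu) _
    (Finset.mem_image_of_mem _ hv) _ (Finset.mem_image_of_mem _ hw)

theorem Gr_left {e : Y × Y} (he : e ∈ Ed) : {e.1} ∈ Gr Ed := ⟨e, he, by simp⟩
theorem Gr_right {e : Y × Y} (he : e ∈ Ed) : {e.2} ∈ Gr Ed := ⟨e, he, by simp⟩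

theorem Coc.sq0 (hg : Coc (Tm r A Ed) g) {ξ : Finset V} (hξ : ξ ∈ A) {a b : V} (ha : a ∈ ξ)
    (hb : b ∈ ξ) {e : Y × Y} (he : e ∈ Ed) (hab : r a ≤ r b) :
    g (a, e.1) (b, e.1) * g (b, e.1) (b, e.2) = g (a, e.1) (a, e.2) * g (a, e.2) (b, e.2) := by
  rw [hg _ (mem_Tm3 hξ he (r b) (p := (a, e.1)) (q := (b, e.1)) (w := (b, e.2)) (by simp [*])
      (by simp [*]) (by simp [*])) _ (by simp) _ (by simp) _ (by simp),
    hg _ (mem_Tm3 hξ he (r a) (p := (a, e.1)) (q := (a, e.2)) (w := (b, e.2)) (by simp [*])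
      (by simp [*]) (by simp [*])) _ (by simp) _ (by simp) _ (by simp)]

theorem Coc.sq (hg : Coc (Tm r A Ed) g) {ξ : Finset V} (hξ : ξ ∈ A) {a b : V} (ha : a ∈ ξ)
    (hb : b ∈ ξ) {e : Y × Y} (he : e ∈ Ed) :
    g (a, e.2) (b, e.2) = (g (a, e.1) (a, e.2))⁻¹ * g (a, e.1) (b, e.1) * g (b, e.1) (b, e.2) := by
  rcases le_total (r a) (r b) with h | h
  · rw [mul_assoc, hg.sq0 hξ ha hb he h]; group
  · have h1 := hg.sq0 hξ hb ha he h
    have h2 := (hg.level (Gr_left he)).inv hξ ha hb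
    have h3 := (hg.level (Gr_right he)).inv hξ ha hb
    rw [h2, h3, inv_mul_eq_iff_eq_mul] at h1
    rw [h1]; group

theorem Conn_Tm (hd : Down A) {a0 : V} {y0 : Y} (hA : Conn A a0) (hE : Conn (Gr Ed) y0)
    (h0 : {a0} ∈ A) : Conn (Tm r A Ed) (a0, y0) := by
  rintro P h hP ⟨a, y⟩ hp
  obtain ⟨ξ, hξ, h1⟩ := Tm_fst hp
  obtain ⟨η, hη, h2⟩ := Tm_snd hp
  have ha : {a} ∈ A := hd ξ hξ _ (Finset.singleton_subset_iff.2 (h1 (a, y) (by simp)))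
  have hy : {y} ∈ Gr Ed := Down_Gr _ η hη _ (Finset.singleton_subset_iff.2 (h2 (a, y) (by simp)))
  refine hA (fun a => P (a, y)) (hE (fun y => P (a0, y)) h (fun y y' hy => hP _ _ ?_) y hy)
    (fun a b hab => hP _ _ ?_) a ha
  · simpa using mem_Tm_fib (r := r) h0 hy
  · simpa using mem_Tm_level (r := r) hab hy

theorem cob_Tm (hd : Down A) {a0 : V} {y0 : Y} (hA : Conn A a0) (hE : Conn (Gr Ed) y0)
    (hg : Coc (Tm r A Ed) g) (h1 : Cob A fun a b => g (a, y0) (b, y0))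
    (h2 : Cob (Gr Ed) fun y y' => g (a0, y) (a0, y')) : Cob (Tm r A Ed) g := by
  obtain ⟨k, hk⟩ := h2
  have c1 : ∀ y, {y} ∈ Gr Ed → Cob A fun a b => g (a, y) (b, y) := by
    refine hE _ h1 ?_
    rintro y y' ⟨e, he, hy⟩ ⟨h, hh⟩
    have m1 : y ∈ ({e.1, e.2} : Finset Y) := hy (by simp)
    have m2 : y' ∈ ({e.1, e.2} : Finset Y) := hy (by simp)
    simp only [Finset.mem_insert, Finset.mem_singleton] at m1 m2
    rcases m1 with rfl | rfl <;> rcases m2 with rfl | rfl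
    · exact ⟨h, hh⟩
    · refine ⟨fun a => h a * g (a, e.1) (a, e.2), fun ξ hξ a ha b hb => ?_⟩
      have := hh ξ hξ a ha b hb
      simp only at this ⊢
      rw [hg.sq hξ ha hb he, this]; group
    · refine ⟨fun a => h a * (g (a, e.1) (a, e.2))⁻¹, fun ξ hξ a ha b hb => ?_⟩
      have := hh ξ hξ a ha b hb
      simp only at this ⊢
      rw [hg.sq hξ ha hb he] at this
      have e1 : g (a, e.1) (b, e.1) = g (a, e.1) (a, e.2) * ((g (a, e.1) (a, e.2))⁻¹ *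
        g (a, e.1) (b, e.1) * g (b, e.1) (b, e.2)) * (g (b, e.1) (b, e.2))⁻¹ := by group
      rw [e1, this]; group
    · exact ⟨h, hh⟩
  have c2 : ∀ y, ∃ h : V → G, {y} ∈ Gr Ed → h a0 = k y ∧
      ∀ ξ ∈ A, ∀ a ∈ ξ, ∀ b ∈ ξ, g (a, y) (b, y) = (h a)⁻¹ * h b := by
    intro y
    by_cases hy : {y} ∈ Gr Ed
    · obtain ⟨h, hh⟩ := c1 y hy
      refine ⟨fun a => k y * (h a0)⁻¹ * h a, fun _ => ⟨by simp, fun ξ hξ a ha b hb => ?_⟩⟩
      have := hh ξ hξ a ha b hb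
      simp only at this
      rw [this]; group
    · exact ⟨fun _ => 1, fun h => absurd h hy⟩
  choose h hh using c2
  have c3 : ∀ e ∈ Ed, ∀ a, {a} ∈ A → h e.1 a * g (a, e.1) (a, e.2) = h e.2 a := by
    intro e he
    refine hA _ ?_ fun a b hab ih => ?_
    · have := hk _ (mem_Gr (a := e.1) (b := e.2) he) e.1 (by simp) e.2 (by simp)
      simp only at this
      rw [(hh _ (Gr_left he)).1, (hh _ (Gr_right he)).1, this]; group
    · have e1 := hg.sq hab (a := a) (b := b) (by simp) (by simp) he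
      rw [(hh _ (Gr_left he)).2 _ hab a (by simp) b (by simp),
        (hh _ (Gr_right he)).2 _ hab a (by simp) b (by simp), ← ih] at e1
      have e2 : h e.2 b = h e.1 a * g (a, e.1) (a, e.2) *
        ((h e.1 a * g (a, e.1) (a, e.2))⁻¹ * h e.2 b) := by group
      rw [e2, e1]; group
  refine ⟨fun p => h p.2 p.1, ?_⟩
  have c4 : ∀ e ∈ Ed, ∀ ξ ∈ A, ∀ a ∈ ξ, ∀ b ∈ ξ, r a ≤ r b →
      g (a, e.1) (b, e.2) = (h e.1 a)⁻¹ * h e.2 b := by
    intro e he ξ hξ a ha b hb hab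
    rw [← hg _ (mem_Tm3 hξ he (r a) (p := (a, e.1)) (q := (a, e.2)) (w := (b, e.2)) (by simp [*])
      (by simp [*]) (by simp [*])) _ (by simp) (a, e.2) (by simp) _ (by simp),
      (hh _ (Gr_right he)).2 _ hξ a ha b hb,
      ← c3 e he a (hd ξ hξ _ (Finset.singleton_subset_iff.2 ha))]
    group
  rintro S hS ⟨a, y⟩ hp ⟨b, y'⟩ hq
  have hS' := hS
  obtain ⟨e, he, ξ, hξ, n, hn⟩ := hS
  obtain ⟨p1, ⟨rfl, p2⟩ | ⟨rfl, p2⟩⟩ := hn _ hp <;> obtain ⟨q1, ⟨rfl, q2⟩ | ⟨rfl, q2⟩⟩ := hn _ hq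
  · exact (hh _ (Gr_left he)).2 _ hξ a p1 b q1
  · exact c4 e he ξ hξ a p1 b q1 (p2.trans q2)
  · rw [hg.inv hS' hq hp, c4 e he ξ hξ b q1 a p1 (q2.trans p2)]; group
  · exact (hh _ (Gr_right he)).2 _ hξ a p1 b q1

theorem tg_conj {α : Type} {a0 : V} {lam : α → Bool → V} (hl : Tl A a0 lam)
    (hg : Coc (Tm r A Ed) g) {e : Y × Y} (he : e ∈ Ed) (i : α) :
    tg (fun a b => g (a, e.1) (b, e.1)) a0 lam i * g (a0, e.1) (a0, e.2) =
      g (a0, e.1) (a0, e.2) * tg (fun a b => g (a, e.2) (b, e.2)) a0 lam i := by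
  simp only [tg]
  rw [hg.sq (hl.e0 i false) (a := a0) (b := lam i false) (by simp) (by simp) he,
    hg.sq (hl.e1 i) (a := lam i false) (b := lam i true) (by simp) (by simp) he,
    hg.sq (hl.e0 i true) (a := lam i true) (b := a0) (by simp) (by simp) he]
  group

end H432Z
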