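import Mathlib

set_option autoImplicit false

namespace H432Z

/-- The linear extension of a permutation to the permutation module: the basis vector at `a` goes
to the basis vector at `σ a`. -/
def permLin {Ω : Type} (σ : Equiv.Perm Ω) : (Ω → ℝ) →ₗ[ℝ] (Ω → ℝ) :=
  LinearMap.funLeft ℝ ℝ σ.symm

/-- The real closure: permutations mapping every invariant subspace onto itself. -/
def realClosure {Ω : Type} (G : Subgroup (Equiv.Perm Ω)) : Set (Equiv.Perm Ω) :=
  {σ | ∀ W : Submodule ℝ (Ω → ℝ), (∀ g ∈ G, W.map (permLin g) ≤ W) → W.map (permLin σ) = W}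

/-- The orbit of a finite subset. -/
def setOrbit {Ω : Type} [DecidableEq Ω] (G : Subgroup (Equiv.Perm Ω)) (s : Finset Ω) :
    Set (Finset Ω) := {t | ∃ g ∈ G, t = s.image g}

/-- The strong 2-closure: permutations mapping every orbit on 2-subsets onto itself. -/
def strongTwoClosure {Ω : Type} [DecidableEq Ω] (G : Subgroup (Equiv.Perm Ω)) :
    Set (Equiv.Perm Ω) :=
  {σ | ∀ s : Finset Ω, s.card = 2 → (fun t : Finset Ω => t.image σ) '' setOrbit G s = setOrbit G s}

end H432Z
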