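import Pool.Agent.H432Z.RCDefs

set_option autoImplicit false
set_option linter.unusedSectionVars false

/-! The real closure and the strong 2-closure of a finite permutation group. -/

namespace H432Z

open Equiv

variable {Ω : Type} [Fintype Ω] [DecidableEq Ω] {G : Subgroup (Perm Ω)} {σ : Perm Ω}

/-- The symmetrized orbital of a pair. -/
def SOrb (G : Subgroup (Perm Ω)) (a b x y : Ω) : Prop :=
  ∃ g ∈ G, (x = g a ∧ y = g b) ∨ (x = g b ∧ y = g a)

theorem permLin_apply (σ : Perm Ω) (x : Ω → ℝ) (a : Ω) : permLin σ x a = x (σ.symm a) := rfl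

theorem permLin_single (σ : Perm Ω) (b : Ω) : permLin σ (Pi.single b 1) = Pi.single (σ b) 1 := by
  funext a
  simp only [permLin_apply, Pi.single_apply, Equiv.symm_apply_eq]

theorem permLin_inj (σ : Perm Ω) : Function.Injective (permLin σ) := fun x y h => by
  funext a
  simpa [permLin_apply] using congrFun h (σ a)

theorem mulVec_perm (M : Matrix Ω Ω ℝ) (h : ∀ a b, M (σ a) (σ b) = M a b) (x : Ω → ℝ) :
    M.mulVec (permLin σ x) = permLin σ (M.mulVec x) := by
  funext a
  simp only [permLin_apply, Matrix.mulVec, dotProduct]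
  rw [← Equiv.sum_comp σ]
  refine Finset.sum_congr rfl fun b _ => ?_
  rw [← h (σ.symm a) b]
  simp

theorem sorb_of_real (h : σ ∈ realClosure G) (a b : Ω) : SOrb G a b (σ a) (σ b) := by
  classical
  let M : Matrix Ω Ω ℝ := fun x y => if SOrb G a b x y then 1 else 0
  have hM : M.IsHermitian := by
    ext x y
    rw [Matrix.conjTranspose_apply, star_trivial]
    simp only [M]
    congr 1
    exact propext ⟨fun ⟨g, hg, h⟩ => ⟨g, hg, by tauto⟩, fun ⟨g, hg, h⟩ => ⟨g, hg, by tauto⟩⟩
  have hG : ∀ g ∈ G, ∀ x y, M (g x) (g y) = M x y := by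
    intro g hg x y
    simp only [M]
    congr 1
    refine propext ⟨fun ⟨k, hk, h⟩ => ⟨g⁻¹ * k, G.mul_mem (G.inv_mem hg) hk, ?_⟩,
      fun ⟨k, hk, h⟩ => ⟨g * k, G.mul_mem hg hk, ?_⟩⟩
    · simpa only [Perm.mul_apply, Perm.eq_inv_iff_eq] using h
    · simpa only [Perm.mul_apply, EmbeddingLike.apply_eq_iff_eq] using h
  have key : M.mulVecLin ∘ₗ permLin σ = permLin σ ∘ₗ M.mulVecLin := by
    refine (hM.eigenvectorBasis.toBasis.map (WithLp.linearEquiv 2 ℝ (Ω → ℝ))).ext fun j => ?_
    have h1 := hM.mulVec_eigenvectorBasis j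
    have h2 := h (Module.End.eigenspace M.mulVecLin (hM.eigenvalues j)) (by
      rintro g hg _ ⟨x, hx, rfl⟩
      have hx := Module.End.mem_eigenspace_iff.1 hx
      rw [Module.End.mem_eigenspace_iff, Matrix.mulVecLin_apply, mulVec_perm M (hG g hg),
        ← map_smul, ← hx]
      rfl)
    have h3 : permLin σ (hM.eigenvectorBasis j).ofLp ∈
        Module.End.eigenspace M.mulVecLin (hM.eigenvalues j) := by
      rw [← h2]
      exact ⟨_, Module.End.mem_eigenspace_iff.2 h1, rfl⟩
    change M.mulVecLin (permLin σ (hM.eigenvectorBasis j).ofLp) =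
      permLin σ (M.mulVec (hM.eigenvectorBasis j).ofLp)
    rw [Module.End.mem_eigenspace_iff.1 h3, h1, map_smul]
  have h1 := congrFun (LinearMap.congr_fun key (Pi.single b 1)) (σ a)
  simp only [LinearMap.comp_apply, permLin_single, permLin_apply, Matrix.mulVecLin_apply,
    Matrix.mulVec_single_one, symm_apply_apply, Matrix.col_apply] at h1
  have h2 : SOrb G a b a b := ⟨1, G.one_mem, Or.inl ⟨rfl, rfl⟩⟩
  by_contra hn
  simp [M, h2, hn] at h1

theorem real_of_sorb (h : ∀ a b, SOrb G a b (σ a) (σ b)) : σ ∈ realClosure G := by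
  intro W hW
  let e := WithLp.linearEquiv 2 ℝ (Ω → ℝ)
  let W' : Submodule ℝ (EuclideanSpace ℝ Ω) := W.comap e.toLinearMap
  let p : (Ω → ℝ) →ₗ[ℝ] (Ω → ℝ) :=
    e.toLinearMap ∘ₗ W'.starProjection.toLinearMap ∘ₗ e.symm.toLinearMap
  have p1 : ∀ x, p x ∈ W := fun x => W'.starProjection_apply_mem _
  have p2 : ∀ x ∈ W, p x = x := fun x hx => by
    have : W'.starProjection (e.symm x) = e.symm x :=
      Submodule.starProjection_eq_self_iff.2 (by simpa [W'] using hx)
    change e (W'.starProjection (e.symm x)) = x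
    rw [this, e.apply_symm_apply]
  have p3 : ∀ g ∈ G, ∀ x, p (permLin g x) = permLin g (p x) := by
    intro g hg x
    have : W'.starProjection (e.symm (permLin g x)) = e.symm (permLin g (p x)) := by
      refine Submodule.eq_starProjection_of_mem_orthogonal
        (by simpa [W'] using hW g hg ⟨_, p1 x, rfl⟩) fun w hw => ?_
      have h1 : e.symm (permLin g⁻¹ (e w)) ∈ W' := by
        simpa [W'] using hW _ (G.inv_mem hg) ⟨_, hw, rfl⟩
      have h2 := W'.sub_starProjection_mem_orthogonal (e.symm x) _ h1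
      rw [← h2]
      simp only [PiLp.inner_apply]
      rw [← Equiv.sum_comp g]
      refine Finset.sum_congr rfl fun b _ => ?_
      simp [e, p, permLin_apply, Perm.inv_def]
    change e (W'.starProjection (e.symm (permLin g x))) = _
    rw [this, e.apply_symm_apply]
  let M := LinearMap.toMatrix' p
  have m1 : ∀ a b, M a b = p (Pi.single b 1) a := fun a b => by simp [M]
  have m2 : ∀ a b, M a b = M b a := fun a b => by
    have := W'.inner_starProjection_left_eq_right (EuclideanSpace.single a 1)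
      (EuclideanSpace.single b 1)
    simp only [EuclideanSpace.inner_single_left, EuclideanSpace.inner_single_right, map_one,
      one_mul, conj_trivial] at this
    rw [m1, m1]
    exact this.symm
  have m3 : ∀ g ∈ G, ∀ a b, M (g a) (g b) = M a b := fun g hg a b => by
    rw [m1, m1, ← permLin_single, p3 g hg, permLin_apply, symm_apply_apply]
  have m4 : ∀ a b, M (σ a) (σ b) = M a b := fun a b => by
    obtain ⟨g, hg, ⟨h1, h2⟩ | ⟨h1, h2⟩⟩ := h a b
    · rw [h1, h2, m3 g hg]
    · rw [h1, h2, m3 g hg, m2]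
  have m5 : ∀ x, M.mulVec x = p x := fun x => by simp [M]
  refine Submodule.eq_of_le_of_finrank_eq ?_ (Submodule.equivMapOfInjective _ (permLin_inj σ)
    W).finrank_eq.symm
  rintro _ ⟨x, hx, rfl⟩
  rw [← p2 x hx, ← m5, ← mulVec_perm M m4, m5]
  exact p1 _

theorem strong_iff : σ ∈ strongTwoClosure G ↔ ∀ a b, a ≠ b → SOrb G a b (σ a) (σ b) := by
  constructor
  · intro h a b hab
    have h1 : ({a, b} : Finset Ω).image σ ∈ setOrbit G {a, b} := by
      rw [← h _ (Finset.card_pair hab)]
      exact ⟨_, ⟨1, G.one_mem, by simp⟩, rfl⟩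
    obtain ⟨g, hg, h1⟩ := h1
    simp only [Finset.image_insert, Finset.image_singleton] at h1
    refine ⟨g, hg, ?_⟩
    have h2 : σ a ∈ ({g a, g b} : Finset Ω) := by rw [← h1]; simp
    have h3 : σ b ∈ ({g a, g b} : Finset Ω) := by rw [← h1]; simp
    have h4 : σ a ≠ σ b := σ.injective.ne hab
    simp only [Finset.mem_insert, Finset.mem_singleton] at h2 h3
    rcases h2 with h2 | h2 <;> rcases h3 with h3 | h3
    · exact absurd (h2.trans h3.symm) h4
    · exact Or.inl ⟨h2, h3⟩
    · exact Or.inr ⟨h2, h3⟩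
    · exact absurd (h2.trans h3.symm) h4
  · intro h s hs
    obtain ⟨a, b, hab, rfl⟩ := Finset.card_eq_two.1 hs
    refine ((Set.toFinite _).injOn_iff_bijOn_of_mapsTo ?_).1
      (Finset.image_injective σ.injective).injOn |>.image_eq
    rintro _ ⟨g, hg, rfl⟩
    obtain ⟨k, hk, h1⟩ := h (g a) (g b) (g.injective.ne hab)
    refine ⟨k * g, G.mul_mem hk hg, ?_⟩
    simp only [Finset.image_insert, Finset.image_singleton, Perm.mul_apply]
    rcases h1 with ⟨h1, h2⟩ | ⟨h1, h2⟩
    · rw [h1, h2]
    · rw [h1, h2, Finset.pair_comm]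

theorem closure_eq_iff (G : Subgroup (Perm Ω)) :
    realClosure G = strongTwoClosure G ↔ ¬ (Fintype.card Ω = 2 ∧ G = ⊥) := by
  constructor
  · rintro h ⟨h2, rfl⟩
    obtain ⟨a, b, hab, hu⟩ := Finset.card_eq_two.1 (Finset.card_univ.trans h2)
    have hu' : ∀ x, x = a ∨ x = b := fun x => by
      have := Finset.mem_univ x
      rw [hu] at this
      simpa using this
    have h1 : swap a b ∈ strongTwoClosure (⊥ : Subgroup (Perm Ω)) := by
      refine strong_iff.2 fun x y hxy => ⟨1, Subgroup.one_mem _, Or.inr ?_⟩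
      rcases hu' x with rfl | rfl <;> rcases hu' y with rfl | rfl <;> simp at hxy ⊢
    rw [← h] at h1
    obtain ⟨g, hg, h3⟩ := sorb_of_real h1 a a
    rw [Subgroup.mem_bot.1 hg] at h3
    simp [hab.symm] at h3
  · intro h
    ext σ
    refine ⟨fun hσ => strong_iff.2 fun a b _ => sorb_of_real hσ a b,
      fun hσ => real_of_sorb fun a b => ?_⟩
    have hs := strong_iff.1 hσ
    by_cases hab : a = b
    · subst hab
      by_contra hn
      have hn' : ∀ g ∈ G, σ a ≠ g a := fun g hg e => hn ⟨g, hg, Or.inl ⟨e, e⟩⟩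
      have h1 : ∀ g ∈ G, g a = a := by
        intro g hg
        by_contra hne
        obtain ⟨k, hk, ⟨h1, -⟩ | ⟨h1, -⟩⟩ := hs a (g a) (Ne.symm hne)
        · exact hn' k hk h1
        · exact hn' (k * g) (G.mul_mem hk hg) h1
      have h2 : ∀ x, x ≠ a → x = σ.symm a := by
        intro x hx
        obtain ⟨k, hk, ⟨h2, -⟩ | ⟨-, h2⟩⟩ := hs a x hx.symm
        · exact absurd h2 (hn' k hk)
        · rw [h1 k hk] at h2
          exact σ.eq_symm_apply.2 h2
      have h3 : σ.symm a ≠ a := fun e => hn' 1 G.one_mem (σ.symm_apply_eq.1 e).symm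
      refine h ⟨?_, (Subgroup.eq_bot_iff_forall G).2 fun g hg => Equiv.ext fun x => ?_⟩
      · rw [← Finset.card_univ, ← Finset.card_pair h3]
        congr 1
        ext x
        by_cases hx : x = a
        · simp [hx]
        · simp [h2 x hx]
      · by_cases hx : x = a
        · rw [hx, h1 g hg]; rfl
        · have : g x ≠ a := fun e => hx (g.injective (e.trans (h1 g hg).symm))
          rw [h2 _ this, ← h2 x hx]; rfl
    · exact hs a b hab

end H432Z
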