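import Pool.Agent.H432Z.Prod
import Pool.Agent.H432Z.Cover

set_option autoImplicit false
set_option linter.unusedSectionVars false
set_option synthInstance.maxSize 2048

/-! The three-dimensional complex of a presentation is contractible iff the group is trivial. -/

namespace H432Z

open Set Topology unitInterval

/-- The vertices of the product. -/
abbrev VT (ι J : Type) : Type := VA ι × Option (J × Bool)

/-- The vertices of the final complex. -/
abbrev VX (ι J : Type) : Type := VT ι J ⊕ (J × Option ℕ)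

/-- The loops in the product. -/
def lamT (ι J : Type) : ι ⊕ J → Bool → VT ι J
  | .inl i, ε => (.inl (bl ι i ε), none)
  | .inr j, ε => (.inl none, bl J j ε)

variable {ι J : Type} [DecidableEq ι] [DecidableEq J]

/-- The attaching words. -/
def wd (rel : J → List (ι × Bool)) (j : J) : List ((ι ⊕ J) × Bool) :=
  (.inr j, false) :: (rel j).map fun x => (.inl x.1, x.2)

/-- The product of the acyclic complex and a bouquet. -/
def TT (J : Type) [DecidableEq J] (r : VA ι → ℕ) (s : ι → List (ι × Bool)) :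
    Set (Finset (VT ι J)) := Tm r (AA s) (BE J)

/-- The final complex. -/
def XX (r : VA ι → ℕ) (s : ι → List (ι × Bool)) (rel : J → List (ι × Bool)) :
    Set (Finset (VX ι J)) :=
  att (TT J r s) (fun j => lp (.inl none, none) (lamT ι J) (wd rel j)) fun j => 3 * (wd rel j).length

/-- The presented group is trivial. -/
def Triv (s : ι → List (ι × Bool)) (rel : J → List (ι × Bool)) : Prop :=
  ∀ (G : Type) [Group G] (φ : FreeGroup ι →* G), (∀ i, φ (FreeGroup.mk (s i)) = 1) →
    (∀ j, φ (FreeGroup.mk (rel j)) = 1) → ∀ x, φ x = 1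

variable {r : VA ι → ℕ} {s : ι → List (ι × Bool)} {rel : J → List (ι × Bool)}
  {G : Type} [Group G]

theorem lift_wd (t : ι ⊕ J → G) (j : J) : FreeGroup.lift t (FreeGroup.mk (wd rel j)) =
    (t (.inr j))⁻¹ * FreeGroup.lift (fun i => t (.inl i)) (FreeGroup.mk (rel j)) := by
  simp [wd, FreeGroup.lift_mk, Function.comp_def]

theorem Down_TT : Down (TT J r s) := Down_Tm

theorem Down_XX : Down (XX r s rel) := Down_att Down_TT

theorem card_XX (hr : Function.Injective r) : ∀ ξ ∈ XX r s rel, ξ.card ≤ 4 :=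
  card_att (by norm_num) fun _ h => card_Tm hr card_AA h

theorem exists_U {V : Type} [DecidableEq V] {K : Set (Finset V)} (h : K.Finite) :
    ∃ U : Finset V, ∀ ξ ∈ K, ξ ⊆ U :=
  ⟨h.toFinset.biUnion id, fun _ hξ => Finset.subset_biUnion_of_mem id (h.mem_toFinset.2 hξ)⟩

theorem finite_TT [Finite ι] [Finite J] : (TT J r s).Finite := by
  obtain ⟨U, hU⟩ := exists_U (finite_AA (s := s))
  exact finite_Tm hU finite_BE

theorem finite_XX [Finite ι] [Finite J] : (XX r s rel).Finite := finite_att finite_TT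

variable [Nonempty ι] [Nonempty J]

theorem Tl_TT : Tl (TT J r s) (.inl none, none) (lamT ι J) where
  e0 := by
    rintro (i | j) ε
    · simpa [TT, lamT] using mem_Tm_level (r := r) ((Tl_AA (s := s)).e0 i ε) (Tl_bq (ι := J)).b
    · simpa [TT, lamT] using mem_Tm_fib (r := r) (Tl_AA (s := s)).b ((Tl_bq (ι := J)).e0 j ε)
  e1 := by
    rintro (i | j)
    · simpa [TT, lamT] using mem_Tm_level (r := r) ((Tl_AA (s := s)).e1 i) (Tl_bq (ι := J)).b
    · simpa [TT, lamT] using mem_Tm_fib (r := r) (Tl_AA (s := s)).b ((Tl_bq (ι := J)).e1 j)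
  n0 := by rintro (i | j) ε <;> simp [lamT, bl]
  n1 := by rintro (i | j) <;> simp [lamT, bl]
  b := by simpa [TT] using mem_Tm_level (r := r) (Tl_AA (s := s)).b (Tl_bq (ι := J)).b

theorem loops_XX : Loops (TT J r s) (fun j => lp (.inl none, none) (lamT ι J) (wd rel j))
    fun j => 3 * (wd rel j).length := Tl_TT.loops _

theorem Conn_XX : Conn (XX r s rel) (.inl (.inl none, none)) :=
  Conn_att Down_TT loops_XX (Conn_Tm Down_AA Conn_AA Conn_bq Tl_AA.b)

theorem triv_of_contractible (h : ContractibleSpace (Rl (XX r s rel))) : Triv s rel := by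
  intro G _ φ h1 h2
  obtain ⟨g, g1, g2⟩ := coc_AA φ h1
  have g3 : Coc (TT J r s) fun p q => g p.1 q.1 := by
    intro S hS p hp q hq w hw
    obtain ⟨ξ, hξ, h⟩ := Tm_fst hS
    exact g1 ξ hξ _ (h p hp) _ (h q hq) _ (h w hw)
  have e : FreeGroup.lift (fun i => φ (FreeGroup.of i)) = φ := by ext i; simp
  have g0 : g (.inl none) (.inl none) = 1 := g1.self Tl_AA.b (by simp)
  obtain ⟨g', g4, g5⟩ := Coc.extend (loops_XX (rel := rel)) g3 (fun j => by
    rw [g3.hol_lp Tl_TT, lift_wd]
    have e1 : (fun i => tg (fun p q : VT ι J => g p.1 q.1) (.inl none, none) (lamT ι J) (.inl i)) =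
      fun i => φ (FreeGroup.of i) := funext g2
    rw [e1, e, h2]
    simp [tg, lamT, g0])
  have g6 := cob_of_contractible _ h g' g4
  have g7 : ∀ i, φ (FreeGroup.of i) = 1 := fun i => by
    have := g6.tg Tl_TT.att (.inl i)
    rw [← g2, ← this]
    simp only [tg, g5, lamT]
  intro x
  rw [show φ = 1 from FreeGroup.ext_hom _ _ g7]; rfl

theorem cob_of_triv (hs : Perf s) (h : Triv s rel) {g : VX ι J → VX ι J → G}
    (hg : Coc (XX r s rel) g) : Cob (XX r s rel) g := by
  have g1 := hg.restrict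
  let g0 : VT ι J → VT ι J → G := fun a b => g (.inl a) (.inl b)
  let ξ : Option (J × Bool) → ι → G := fun y =>
    tg (fun a b => g0 (a, y) (b, y)) (.inl none) fun i ε => .inl (bl ι i ε)
  let τ : J → G := tg (fun y y' => g0 (.inl none, y) (.inl none, y')) none (bl J)
  let φ := FreeGroup.lift (ξ none)
  have h1 : ∀ i, φ (FreeGroup.mk (s i)) = 1 := rel_AA (g1.level Tl_bq.b)
  have h2 : ∀ j, φ (FreeGroup.mk (rel j)) = τ j := by
    intro j
    have := hg.hol_eq_one loops_XX j
    rw [g1.hol_lp Tl_TT, lift_wd, inv_mul_eq_one] at this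
    exact this.symm
  have h3 : ∀ j i, Commute (ξ none i) (τ j) := by
    intro j i
    have a1 := tg_conj Tl_AA g1 (BE1 j) i
    have a2 := tg_conj Tl_AA g1 (BE2 j) i
    have a3 := tg_conj Tl_AA g1 (BE3 j) i
    have aux : ∀ x0 x1 x2 p q w : G, x0 * p = p * x1 → x1 * q = q * x2 → x2 * w = w * x0 →
        x0 * (p * q * w) = p * q * w * x0 := by
      intro x0 x1 x2 p q w b1 b2 b3
      rw [← mul_assoc, ← mul_assoc, b1, mul_assoc p, b2, mul_assoc, mul_assoc, b3]
      simp only [mul_assoc]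
    exact aux _ _ _ _ _ _ a1 a2 a3
  have h4 : ∀ j x, Commute (φ x) (τ j) := by
    intro j x
    induction x using FreeGroup.induction_on with
    | C1 => simp
    | of i => simpa [φ] using h3 j i
    | inv_of i ih => rw [map_inv]; exact ih.inv_left
    | mul x y hx hy => rw [map_mul]; exact hx.mul_left hy
  have h5 := h _ ((MulAut.conj (G := φ.range)).comp φ.rangeRestrict) (fun i => by
      have : φ.rangeRestrict (FreeGroup.mk (s i)) = 1 := Subtype.ext (h1 i)
      rw [MonoidHom.comp_apply, this, map_one]) (fun j => by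
      ext ⟨_, x, rfl⟩
      simp [h2, (h4 j x).symm.eq])
  have h6 : ∀ x y, Commute (φ x) (φ y) := by
    intro x y
    have := congrArg (fun a : MulAut φ.range => (a (φ.rangeRestrict y) : G)) (h5 x)
    simp only [MonoidHom.comp_apply, MulAut.conj_apply, Subgroup.coe_mul, MonoidHom.coe_rangeRestrict,
      Subgroup.coe_inv, MulAut.one_apply] at this
    exact mul_inv_eq_iff_eq_mul.1 this
  have h7 : ∀ i, ξ none i = 1 := fun i => by
    have := hs.eq φ h6 i
    rw [h1, FreeGroup.lift_apply_of] at this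
    exact this.symm
  have h8 : ∀ j, τ j = 1 := fun j => by
    rw [← h2, show φ = 1 from FreeGroup.ext_hom _ _ fun i => by simpa [φ] using h7 i]; rfl
  exact Cob.att loops_XX hg (cob_Tm Down_AA Conn_AA Conn_bq g1 (cob_AA (g1.level Tl_bq.b) h7)
    (cob_bq (g1.fib Tl_AA.b) h8))

theorem contractible_of_triv [Finite ι] [Finite J] (hr : Function.Injective r) (hs : Perf s)
    (h : Triv s rel) : ContractibleSpace (Rl (XX r s rel)) := by
  have hi : Function.Injective (Sum.inl : VT ι J → VX ι J) := Sum.inl_injective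
  let w0 : Rl (XX r s rel) := ⟨pt (.inl (.inl none, none)),
    Smp_sub_Rl (Tl_TT (r := r) (s := s)).att.b (pt_mem (by simp))⟩
  obtain ⟨f, f1, f2, f3⟩ := exists_ext (Rl (XX r s rel)) id continuous_id w0
  have hj : ∀ v, Joined (f (pt v)) w0 := by
    intro v
    by_cases hv : pt v ∈ Rl (XX r s rel)
    · refine Conn_XX (fun v => Joined (f (pt v)) w0) ?_ (fun a b hab ha => ?_) v
        (vertex_mem Down_XX hv)
      · rw [f2 _ w0.2]; rfl
      · exact (Joined.symm ⟨ep f1 hab⟩).trans ha
    · rw [f3 _ hv]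
  obtain ⟨ε, hε⟩ := make_fillable Down_XX f1 (fun v => (hj v).somePath)
    fun g hg => cob_of_triv hs h hg
  obtain ⟨U, hU⟩ := exists_U (finite_AA (s := s))
  have hsub : Img Sum.inl (TT J r s) ⊆ XX r s rel := fun _ h => Or.inl h
  obtain ⟨H, H1, H2, H3⟩ := prism_lift (w0 := w0) (Ed := BE J) hr hU finite_AA
    (Down_AA _ Tl_AA.b _ (by simp)) Down_AA card_AA (H1_AA hs) (H2_AA hs) finite_BE BE_ne BE_asymm
    (fun z => f (push Sum.inl z))
    (f1.comp (continuous_push hi).continuousOn ((push_Rl hi).mono_right (Rl_mono hsub)))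
    (fun p => (ε (.inl p)).cast (by rw [push_pt hi]) rfl) (by
      intro u v huv ρ hρ
      exact hε (.inl u) (.inl v) (by simpa [XX, TT] using mem_att_inl huv)
        (ρ.cast (by rw [← push_pt hi]) (by rw [← push_pt hi])) (fun t => by
          change ρ t = _
          rw [hρ t]
          simp only [push_seg hi, push_pt hi]))
  have cpull : Continuous fun (z : VX ι J → ℝ) v => z (Sum.inl v) := by fun_prop
  have hpt : ∀ p : VT ι J, (fun v => pt (Sum.inl p : VX ι J) (Sum.inl v)) = pt p := by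
    intro p; funext v; simp [pt]
  have hvert : ∀ {S : Finset (VT ι J)} {v : VX ι J}, v ∈ S.image Sum.inl → ∃ p ∈ S, v = .inl p :=
    fun h => by obtain ⟨p, hp, rfl⟩ := Finset.mem_image.1 h; exact ⟨p, hp, rfl⟩
  obtain ⟨s1, a1, a2, -⟩ := ext_main (Img Sum.inl (TT J r s)) (XX r s rel) finite_XX hsub
    (Down_Img Down_TT) Down_XX
    (fun ξ hξ hn => by
      rcases hξ with hξ | ⟨j, hξ⟩
      · exact absurd hξ hn
      · exact card_Dk hξ) f f1
    (fun z => (z, H fun v => z (Sum.inl v)))
    (continuousOn_id.prodMk (H1.comp cpull.continuousOn (pull_Rl hi)))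
    (fun ξ hξ z hz => ⟨hz, by
      have m : z ∈ Rl (Img Sum.inl (TT J r s)) := ⟨ξ, hξ, hz⟩
      simp only
      rw [H2 _ (pull_Rl hi m), push_pull_Rl hi m]⟩) ε hε
    (by
      rintro v ⟨S, hS, hv⟩ h
      obtain ⟨p, hp, rfl⟩ := hvert (S := S) (v := v) (by rw [← hv]; simp)
      have m := Down_TT _ hS _ (Finset.singleton_subset_iff.2 hp)
      simp only [hpt] at h ⊢
      exact H3 p m (by rw [push_pt hi]; exact h))
    (by
      intro o
      obtain ⟨O, hO⟩ := solve_att (loops_XX (r := r) (s := s) (rel := rel)) o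
      let cΘ := bc fun j => (O j)⁻¹
      obtain ⟨c, c1, c2, c3⟩ := hO (fun p q => cΘ p.2 q.2) (fun _ _ => bc_anti _ _ _) (fun j => by
        rw [hol_lp (g := fun p q : VT ι J => cΘ p.2 q.2) (fun _ _ => bc_anti _ _ _)
          (fun _ => bc_anti _ _ _), lift_wd]
        have e1 : (fun i => tg (fun p q : VT ι J => cΘ p.2 q.2) (.inl none, none) (lamT ι J)
            (.inl i)) = fun _ => 1 := by
          funext i; simp [tg, lamT, cΘ, bc_self]
        have e2 : tg (fun p q : VT ι J => cΘ p.2 q.2) (.inl none, none) (lamT ι J) (.inr j) =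
          (O j)⁻¹ := congrFun (bc_tg fun j => (O j)⁻¹) j
        rw [e1, e2, show FreeGroup.lift (fun _ : ι => (1 : Pi1 (Path.refl w0))) = 1 from
          FreeGroup.ext_hom _ _ fun i => by simp]
        simp)
      obtain ⟨ζ, z1, z2, z3⟩ := ext_loops {∅} (Gr (BE J)) (finite_Gr finite_BE)
        (by simpa using Down_Gr _ _ (Tl_bq (ι := J)).b ∅ (by simp))
        (fun s hs t ht => by
          rw [Set.mem_singleton_iff] at hs ⊢
          subst hs; exact Finset.subset_empty.1 ht) (Down_Gr _) cΘ (fun _ => Path.refl w0)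
        (bc_anti _) continuousOn_const (fun _ _ => rfl) (fun u v _ h => by simp at h)
      have hT : MapsTo (prT U) (Rl (TT J r s)) (Rl (Sk {∅} (Gr (BE J)) 2)) := by
        rintro z ⟨S, ⟨e, he, hS⟩, hz⟩
        obtain ⟨-, -, -, -, -, h2, -⟩ := Pr_facts hU (BE_ne e he) ⟨S, hS, hz⟩
        exact ⟨_, Or.inr ⟨mem_Gr he, Finset.card_le_two⟩, h2⟩
      have hU' : ∀ S ∈ TT J r s, ∀ p ∈ S, p.1 ∈ U := by
        intro S hS p hp
        obtain ⟨ξ, hξ, h⟩ := Tm_fst hS
        exact hU ξ hξ (h p hp)
      refine ⟨c, fun z => ζ (prT U fun v => z (Sum.inl v)), c1,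
        z1.comp (continuous_prT.comp cpull).continuousOn (hT.comp (pull_Rl hi)), ?_, ?_, c3⟩
      · rintro v ⟨S, hS, hv⟩
        obtain ⟨⟨a, y⟩, hp, rfl⟩ := hvert (S := S) (v := v) (by rw [← hv]; simp)
        obtain ⟨η, hη, h⟩ := Tm_snd hS
        simp only [hpt]
        rw [prT_pt (hU' S hS _ hp)]
        exact z2 y (Down_Gr _ η hη _ (Finset.singleton_subset_iff.2 (h _ hp)))
      · rintro u v - ⟨S, hS, huv⟩
        obtain ⟨⟨a, y⟩, hp, rfl⟩ := hvert (S := S) (v := u) (by rw [← huv]; simp)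
        obtain ⟨⟨b, y'⟩, hq, rfl⟩ := hvert (S := S) (v := v) (by rw [← huv]; simp)
        obtain ⟨η, hη, h⟩ := Tm_snd hS
        have e : ∀ t : ℝ, prT U (fun v => seg (pt (Sum.inl (a, y) : VX ι J)) (pt (.inl (b, y'))) t
            (Sum.inl v)) = seg (pt y) (pt y') t := by
          intro t
          rw [← prT_pt (hU' S hS _ hp) y, ← prT_pt (hU' S hS _ hq) y', ← prT_seg, ← hpt, ← hpt]
          rfl
        simp only [e, c2]
        by_cases hy : y = y'
        · subst hy
          refine ⟨Path.refl _, fun t => ?_, by rw [cls_refl]; exact (bc_self _ _).symm⟩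
          simp only [seg_self]
          exact (z2 y (Down_Gr _ η hη _ (Finset.singleton_subset_iff.2 (h _ hp)))).symm
        · exact z3 y y' hy (Down_Gr _ η hη _ (pair_sub (h _ hp) (h _ hq))))
  obtain ⟨H', b1, b2⟩ := straighten f1 a1 a2
  rw [contractible_iff_id_nullhomotopic]
  refine ⟨w0, ⟨⟨⟨fun z => (H' z.2).1 z.1, continuous_evPW
    ((continuousOn_iff_continuous_domRestrict.1 b1).comp continuous_snd) continuous_fst⟩,
    fun x => ?_, fun x => (H' x).2⟩⟩⟩
  change (H' x).1 0 = x
  rw [b2 x x.2, if_pos (by norm_num)]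
  simpa using f2 x x.2

end H432Z
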