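import Pool.Agent.H432Z.Hnn
import Pool.Agent.H432Z.Top
import Pool.Agent.Helper446.LS.WPB

set_option autoImplicit false
set_option synthInstance.maxSize 2048

/-! Triviality of groups is undecidable, in a family with a fixed perfect part. -/

namespace H432Z

open Function

/-- A group with the old generators and a commutator of infinite order. -/
theorem model_Gamma {G : Type} [Group G] {w : G} (hw : w ≠ 1) :
    ∃ (Γ : Type) (_ : Group Γ) (i : G →* Γ) (e : Γ),
      ∀ n : ℤ, (i w * e * (i w)⁻¹ * e⁻¹) ^ n = 1 → n = 0 := by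
  classical
  let i : G →* Equiv.Perm (G → ℤ) :=
    { toFun := fun g => ⟨fun f h => f (g⁻¹ * h), fun f h => f (g * h),
        fun f => by funext h; simp, fun f => by funext h; simp⟩
      map_one' := by ext f h; simp
      map_mul' := fun a b => by ext f h; simp [mul_assoc] }
  let δ : G → ℤ := Pi.single 1 1
  refine ⟨_, inferInstance, i, Equiv.addLeft δ, fun n hn => ?_⟩
  have e : i w * Equiv.addLeft δ * (i w)⁻¹ * (Equiv.addLeft δ)⁻¹ =
      Equiv.addLeft ((fun h => δ (w⁻¹ * h)) - δ) := by
    rw [← map_inv]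
    ext f h
    simp [i]
    ring
  rw [e, Equiv.zsmul_addLeft] at hn
  have := congrFun (congrArg (fun p : Equiv.Perm (G → ℤ) => p 0) hn) 1
  simpa [δ, hw] using this

/-- Conjugating a translation. -/
theorem model_K0 (Γ : Type) [Group Γ] : ∃ (K : Type) (_ : Group K) (i : Γ →* K) (x p0 : K)
    (p : Γ → K), Injective i ∧ p0 * x * p0⁻¹ = x * x ∧ ∀ y, p y * x * (p y)⁻¹ = i y * x := by
  let i : Γ →* Equiv.Perm (Γ × ℚ) :=
    { toFun := fun g => (Equiv.mulLeft g).prodCongr (Equiv.refl ℚ)
      map_one' := by ext z <;> simp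
      map_mul' := fun a b => by ext z <;> simp [mul_assoc] }
  refine ⟨_, inferInstance, i, (Equiv.refl Γ).prodCongr (Equiv.addLeft 1),
    (Equiv.refl Γ).prodCongr (Equiv.mulLeft₀ 2 two_ne_zero),
    fun y => ⟨fun z => (y ^ ⌊z.2⌋ * z.1, z.2), fun z => (y ^ (-⌊z.2⌋) * z.1, z.2),
      fun z => by simp, fun z => by simp⟩, fun a b h => ?_, ?_, fun y => ?_⟩
  · simpa [i] using congrArg (fun p : Equiv.Perm (Γ × ℚ) => (p (1, 0)).1) h
  · rw [mul_inv_eq_iff_eq_mul]
    ext z
    · simp
    · simp; ring
  · rw [mul_inv_eq_iff_eq_mul]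
    ext z
    · simp [i, add_comm (1 : ℚ), zpow_add_one, ← mul_assoc, (Commute.refl y).zpow_left _ |>.eq]
    · simp [i]

/-- The old generators and two more. -/
abbrev GY (m : ℕ) : Type := Fin m ⊕ Bool

/-- The generators of the new group. -/
abbrev Gn (m : ℕ) : Type := GY m ⊕ (Option (GY m) ⊕ Option Bool)

variable {m : ℕ}

/-- The conjugated generator. -/
def gu : Gn m → Gn m
  | .inl _ => .inr (.inr none)
  | .inr a => .inr a

/-- The conjugating generator. -/
def gv : Gn m → Gn m
  | .inl y => .inr (.inl (some y))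
  | .inr (.inl _) => .inr (.inr (some false))
  | .inr (.inr none) => .inr (.inl none)
  | .inr (.inr (some false)) => .inr (.inr (some true))
  | .inr (.inr (some true)) => .inl (.inr true)

/-- The balanced part of the presentation. -/
def gs (i : Gn m) : List (Gn m × Bool) :=
  [(i, true), (gu i, true), (gv i, true), (gu i, false), (gv i, false)]

theorem map_gs {G : Type} [Group G] (φ : FreeGroup (Gn m) →* G) (i : Gn m) :
    φ (FreeGroup.mk (gs i)) = φ (.of i) * φ (.of (gu i)) *
      (φ (.of (gv i)) * φ (.of (gu i)) * (φ (.of (gv i)))⁻¹)⁻¹ := by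
  have e : FreeGroup.lift (fun i => φ (FreeGroup.of i)) = φ := by ext i; simp
  conv_lhs => rw [← e]
  simp [gs, mul_assoc]

theorem Perf_gs : Perf (gs (m := m)) := by
  intro i
  rw [← Abelianization.ker_of, MonoidHom.mem_ker, map_mul, map_gs, map_inv]
  simp

/-- Old words as new words. -/
def gw (w : List (Fin m × Bool)) : List (Gn m × Bool) := w.map fun x => (.inl (.inl x.1), x.2)

/-- The variable relator. -/
def gr (w : List (Fin m × Bool)) : List (Gn m × Bool) :=
  (.inl (.inr true), false) :: (gw w ++ (.inl (.inr false), true) ::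
    (gw (FreeGroup.invRev w) ++ [(.inl (.inr false), false)]))

theorem mk_gw (w : List (Fin m × Bool)) : FreeGroup.mk (gw w) =
    FreeGroup.map (fun a => (.inl (.inl a) : Gn m)) (FreeGroup.mk w) := rfl

theorem mk_gr (w : List (Fin m × Bool)) : FreeGroup.mk (gr w) = (FreeGroup.of (.inl (.inr true)))⁻¹ *
    (FreeGroup.mk (gw w) * FreeGroup.of (.inl (.inr false)) * (FreeGroup.mk (gw w))⁻¹ *
      (FreeGroup.of (.inl (.inr false)))⁻¹) := by
  have : (FreeGroup.mk (gw w))⁻¹ = FreeGroup.mk (gw (FreeGroup.invRev w)) := by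
    rw [mk_gw, mk_gw, ← map_inv, FreeGroup.inv_mk]
  rw [this]
  simp only [FreeGroup.of, FreeGroup.inv_mk, FreeGroup.mul_mk, gr]
  simp [FreeGroup.invRev]

/-- All the other relators. -/
def grel {k : ℕ} (R : Fin k → List (Fin m × Bool)) (w : List (Fin m × Bool)) :
    Option (Fin k) → List (Gn m × Bool)
  | none => gr w
  | some j => gw (R j)

theorem triv_iff {k : ℕ} (R : Fin k → List (Fin m × Bool)) (w : List (Fin m × Bool)) :
    Triv gs (grel R w) ↔
      FreeGroup.mk w ∈ Subgroup.normalClosure (Set.range fun j => FreeGroup.mk (R j)) := by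
  constructor
  · intro h
    by_contra hw
    let N := Subgroup.normalClosure (Set.range fun j => FreeGroup.mk (R j))
    let π := QuotientGroup.mk' N
    have hw' : π (FreeGroup.mk w) ≠ 1 := fun h => hw ((QuotientGroup.eq_one_iff _).1 h)
    obtain ⟨Γ, _, i0, e, he⟩ := model_Gamma hw'
    set d := i0 (π (FreeGroup.mk w)) * e * (i0 (π (FreeGroup.mk w)))⁻¹ * e⁻¹ with hd
    let y : GY m → Γ := Sum.elim (fun a => i0 (π (.of a))) fun b => cond b d e
    obtain ⟨K0, _, i1, x, p0, p, k1, k2, k3⟩ := model_K0 Γ
    let q : Option (GY m) → K0 × FreeGroup (Option (GY m)) := fun j =>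
      (j.elim p0 fun a => p (y a), .of j)
    have hq : ∀ f, (FreeGroup.lift q f).2 = f := by
      intro f
      have : (MonoidHom.snd _ _).comp (FreeGroup.lift q) = MonoidHom.id _ := by ext j; simp [q]
      exact DFunLike.congr_fun this f
    have hq' : Injective (FreeGroup.lift q) := LeftInverse.injective (g := Prod.snd) hq
    obtain ⟨K2, _, i2, s, k4, k5, k6⟩ := hnn (FreeGroup.lift q) ((FreeGroup.lift q).comp
      (FreeGroup.lift fun p => FreeGroup.of p * FreeGroup.of p)) hq' (hq'.comp (sq_injective _))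
    have k7 : ∀ n : ℤ, n ≠ 0 → ((i1 d, 1) : K0 × FreeGroup (Option (GY m))) ^ n ∉
        (FreeGroup.lift q).range := by
      rintro n hn ⟨f, hf⟩
      have h1 := hq f
      rw [hf] at h1
      simp only [Prod.pow_snd, one_zpow] at h1
      subst h1
      have h2 := congrArg Prod.fst hf
      simp only [map_one, Prod.fst_one, Prod.pow_fst] at h2
      rw [← map_zpow, ← map_one i1] at h2
      exact hn (he n (k1 h2).symm)
    have k8 := k6 (i1 d, 1) fun n hn => ⟨k7 n hn, fun ⟨f, hf⟩ => k7 n hn ⟨_, hf⟩⟩
    obtain ⟨Q, _, a, b, c, q1, q2, q3⟩ := model_Q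
    obtain ⟨K, _, j1, j2, k9, k10⟩ := amalgam _ ((FreeGroup.lift fun x : Bool => cond x a c).comp
      (FreeGroup.map not)) k8 (q3.comp (FreeGroup.map_injective Bool.not_injective))
    have e1 : j1 (i2 (i1 d, 1)) = j2 c := by simpa using k10 (.of true)
    have e2 : j1 s = j2 a := by simpa using k10 (.of false)
    let j0 : K0 →* K := j1.comp (i2.comp (MonoidHom.inl _ _))
    let t : Gn m → K := Sum.elim (fun a => j0 (i1 (y a))) (Sum.elim (fun j => j1 (i2 (q j)))
      fun o => o.elim (j0 x) fun β => cond β (j2 b) (j1 s))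
    have ht : ∀ v, FreeGroup.lift t (FreeGroup.mk (gw v)) = j0 (i1 (i0 (π (FreeGroup.mk v)))) := by
      intro v
      have : (FreeGroup.lift t).comp (FreeGroup.map fun a => (.inl (.inl a) : Gn m)) =
          j0.comp (i1.comp (i0.comp π)) := by ext a; simp [t, y]
      exact DFunLike.congr_fun this (FreeGroup.mk v)
    have h1 := h K (FreeGroup.lift t) (fun i => by
      rw [map_gs, mul_inv_eq_one]
      simp only [FreeGroup.lift_apply_of]
      rcases i with a | j | _ | _ | _
      · simp only [t, gu, gv, Sum.elim_inl, Sum.elim_inr, Option.elim, j0, q,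
          MonoidHom.comp_apply, MonoidHom.inl_apply, ← map_inv, ← map_mul, Prod.mk_mul_mk,
          Prod.inv_mk, mul_one, mul_inv_cancel, k3]
      · have := congrArg j1 (k5 (.of j))
        simp only [map_mul, map_inv, FreeGroup.lift_apply_of, MonoidHom.comp_apply] at this
        exact this.symm
      · simp only [t, gu, gv, Sum.elim_inl, Sum.elim_inr, Option.elim, j0, q,
          MonoidHom.comp_apply, MonoidHom.inl_apply, ← map_inv, ← map_mul, Prod.mk_mul_mk,
          Prod.inv_mk, mul_one, mul_inv_cancel, k2]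
      · simp only [t, gu, gv, Sum.elim_inr, Option.elim, cond_false, cond_true, e2, ← map_inv,
          ← map_mul, q1]
      · have e3 : j0 (i1 d) = j2 c := e1
        simp only [t, gu, gv, y, Sum.elim_inl, Sum.elim_inr, Option.elim, cond_true, e3, ← map_inv,
          ← map_mul, q2]) (fun j => by
      rcases j with _ | j
      · simp only [grel, mk_gr, map_mul, map_inv, ht, FreeGroup.lift_apply_of]
        simp only [t, y, Sum.elim_inl, Sum.elim_inr, cond_true, cond_false, hd, map_mul, map_inv,
          inv_mul_cancel]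
      · have : π (FreeGroup.mk (R j)) = 1 := (QuotientGroup.eq_one_iff _).2
          (Subgroup.subset_normalClosure ⟨j, rfl⟩)
        simp only [grel, ht, this, map_one]) (.of (.inl (.inr true)))
    rw [FreeGroup.lift_apply_of] at h1
    have h2 : j1 (i2 (i1 d, 1)) = j1 (i2 1) := by rw [map_one, map_one]; exact h1
    have h3 := congrArg Prod.fst (k4 (k9 h2))
    have h4 : d = 1 := k1 (by rw [map_one]; exact h3)
    exact one_ne_zero (he 1 (by rw [zpow_one, h4]))
  · intro hw G _ φ h1 h2
    have h3 : Subgroup.normalClosure (Set.range fun j => FreeGroup.mk (R j)) ≤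
        (φ.comp (FreeGroup.map fun a => (.inl (.inl a) : Gn m))).ker := by
      refine Subgroup.normalClosure_le_normal ?_
      rintro _ ⟨j, rfl⟩
      exact h2 (some j)
    have h4 : φ (FreeGroup.mk (gw w)) = 1 := h3 hw
    have h5 : ∀ i, φ (.of (gv i)) = 1 → φ (.of i) = 1 := by
      intro i hi
      have := h1 i
      rw [map_gs, hi] at this
      simpa using this
    have hd : φ (.of (.inl (.inr true))) = 1 := by
      have := h2 none
      simp only [grel, mk_gr, map_mul, map_inv, h4] at this
      simpa using this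
    have hb := h5 (.inr (.inr (some true))) hd
    have hs := h5 (.inr (.inr (some false))) hb
    have hp := fun j => h5 (.inr (.inl j)) hs
    have h6 : ∀ i, φ (.of i) = 1 := by
      rintro (a | j | _ | _ | _)
      · exact h5 _ (hp _)
      · exact hp j
      · exact h5 _ (hp _)
      · exact hs
      · exact hb
    intro x
    rw [show φ = 1 from FreeGroup.ext_hom _ _ h6]; rfl

theorem adian_rabin : ∃ (m k : ℕ) (R : Fin k → List (Fin m × Bool)) (W : ℕ → List (Fin m × Bool)),
    Computable W ∧ ¬ ComputablePred fun n => Triv gs (grel R (W n)) := by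
  obtain ⟨m, R, W, h1, h2⟩ := Pool.Agent.Helper446.LS.WP.word_problem
  refine ⟨m, R.card, fun j => (R.equivFin.symm j).1.toWord, W, h1, ?_⟩
  have e : (Set.range fun j => FreeGroup.mk (R.equivFin.symm j).1.toWord) = R := by
    ext x
    simp only [FreeGroup.mk_toWord, Set.mem_range, Finset.mem_coe]
    exact ⟨fun ⟨j, hj⟩ => hj ▸ (R.equivFin.symm j).2, fun hx => ⟨R.equivFin ⟨x, hx⟩, by simp⟩⟩
  simp only [triv_iff, e]
  exact h2

end H432Z
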