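import Pool.Agent.H432Z.Disk
import Pool.Agent.H432Z.Prism

set_option autoImplicit false
set_option linter.unusedSectionVars false

/-! Loops spelled by words, bouquets and acyclic presentation complexes. -/

namespace H432Z

open Set Topology unitInterval

section Lp

variable {V α : Type} [DecidableEq V]

/-- A family of triangular loops. -/
structure Tl (K : Set (Finset V)) (v0 : V) (lam : α → Bool → V) : Prop where
  e0 : ∀ a ε, {v0, lam a ε} ∈ K
  e1 : ∀ a, {lam a false, lam a true} ∈ K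
  n0 : ∀ a ε, v0 ≠ lam a ε
  n1 : ∀ a, lam a false ≠ lam a true
  b : {v0} ∈ K

/-- The edge loop spelled by a word. -/
def lp (v0 : V) (lam : α → Bool → V) (w : List (α × Bool)) (i : ℕ) : V :=
  match w[i / 3]? with
  | none => v0
  | some x => if i % 3 = 0 then v0 else if i % 3 = 1 then lam x.1 (!x.2) else lam x.1 x.2

/-- The holonomy around a triangular loop. -/
def tg {G : Type} [Group G] (g : V → V → G) (v0 : V) (lam : α → Bool → V) (a : α) : G :=
  g v0 (lam a false) * g (lam a false) (lam a true) * g (lam a true) v0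

variable {K : Set (Finset V)} {v0 : V} {lam : α → Bool → V}

theorem lp0 (w : List (α × Bool)) (n : ℕ) : lp v0 lam w (3 * n) = v0 := by
  unfold lp
  split
  · rfl
  · rw [if_pos (by omega)]

theorem lp1 {w : List (α × Bool)} {n : ℕ} (h : n < w.length) :
    lp v0 lam w (3 * n + 1) = lam w[n].1 (!w[n].2) := by
  unfold lp
  have e : (3 * n + 1) / 3 = n := by omega
  rw [e, List.getElem?_eq_getElem h]
  simp only
  rw [if_neg (by omega), if_pos (by omega)]

theorem lp2 {w : List (α × Bool)} {n : ℕ} (h : n < w.length) :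
    lp v0 lam w (3 * n + 1 + 1) = lam w[n].1 w[n].2 := by
  unfold lp
  have e : (3 * n + 1 + 1) / 3 = n := by omega
  rw [e, List.getElem?_eq_getElem h]
  simp only
  rw [if_neg (by omega), if_neg (by omega)]

theorem lp3 (w : List (α × Bool)) (n : ℕ) : lp v0 lam w (3 * n + 1 + 1 + 1) = v0 :=
  lp0 w (n + 1)

theorem Tl.loops (h : Tl K v0 lam) {J : Type} (wd : J → List (α × Bool)) :
    Loops K (fun j => lp v0 lam (wd j)) fun j => 3 * (wd j).length := by
  have key : ∀ j, ∀ i < 3 * (wd j).length, {lp v0 lam (wd j) i, lp v0 lam (wd j) (i + 1)} ∈ K ∧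
      lp v0 lam (wd j) i ≠ lp v0 lam (wd j) (i + 1) := by
    intro j i hi
    obtain ⟨n, rfl | rfl | rfl⟩ : ∃ n, i = 3 * n ∨ i = 3 * n + 1 ∨ i = 3 * n + 1 + 1 :=
      ⟨i / 3, by omega⟩
    · rw [lp0, lp1 (by omega)]; exact ⟨h.e0 _ _, h.n0 _ _⟩
    · rw [lp1 (by omega), lp2 (by omega)]
      cases (wd j)[n].2
      · exact ⟨by rw [Finset.pair_comm]; exact h.e1 _, (h.n1 _).symm⟩
      · exact ⟨h.e1 _, h.n1 _⟩
    · rw [lp3, lp2 (by omega)]
      exact ⟨by rw [Finset.pair_comm]; exact h.e0 _ _, (h.n0 _ _).symm⟩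
  exact ⟨fun j i hi => (key j i hi).1, fun j i hi => (key j i hi).2,
    fun j => by rw [show lp v0 lam (wd j) 0 = v0 from lp0 _ 0]; exact h.b,
    fun j => by rw [lp0]; exact (lp0 _ 0).symm⟩

theorem Tl.att (h : Tl K v0 lam) {J : Type} [DecidableEq J] {γ : J → ℕ → V} {L : J → ℕ} :
    Tl (att K γ L) (.inl v0) fun a ε => .inl (lam a ε) where
  e0 a ε := by simpa using mem_att_inl (γ := γ) (L := L) (h.e0 a ε)
  e1 a := by simpa using mem_att_inl (γ := γ) (L := L) (h.e1 a)
  n0 a ε := by simpa using h.n0 a ε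
  n1 a := by simpa using h.n1 a
  b := by simpa using mem_att_inl (γ := γ) (L := L) h.b

variable {G : Type} [Group G] {g : V → V → G}

theorem hol_lp (h1 : ∀ a ε, g (lam a ε) v0 = (g v0 (lam a ε))⁻¹)
    (h2 : ∀ a, g (lam a true) (lam a false) = (g (lam a false) (lam a true))⁻¹)
    (w : List (α × Bool)) :
    hol g (lp v0 lam w) (3 * w.length) = FreeGroup.lift (tg g v0 lam) (FreeGroup.mk w) := by
  have key : ∀ n ≤ w.length, hol g (lp v0 lam w) (3 * n) =
      FreeGroup.lift (tg g v0 lam) (FreeGroup.mk (w.take n)) := by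
    intro n
    induction n with
    | zero => intro _; rfl
    | succ n ih =>
      intro hn
      rw [show 3 * (n + 1) = 3 * n + 1 + 1 + 1 by ring, hol, hol, hol, ih (by omega), lp0, lp3,
        lp1 (by omega), lp2 (by omega), List.take_add_one, List.getElem?_eq_getElem (by omega),
        ← FreeGroup.mul_mk, map_mul, mul_assoc, mul_assoc]
      congr 1
      rcases w[n] with ⟨a, _ | _⟩
      · simp [tg, h1, h2, mul_assoc]
      · simp [tg, mul_assoc]
  simpa using key _ le_rfl

theorem Coc.hol_lp (h : Tl K v0 lam) (hg : Coc K g) (w : List (α × Bool)) :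
    hol g (lp v0 lam w) (3 * w.length) = FreeGroup.lift (tg g v0 lam) (FreeGroup.mk w) :=
  H432Z.hol_lp (fun a ε => hg.inv (h.e0 a ε) (by simp) (by simp))
    (fun a => hg.inv (h.e1 a) (by simp) (by simp)) w

theorem Cob.tg (h : Tl K v0 lam) (hg : Cob K g) (a : α) : tg g v0 lam a = 1 := by
  obtain ⟨k, hk⟩ := hg
  unfold H432Z.tg
  rw [hk _ (h.e0 a false) _ (by simp) _ (by simp), hk _ (h.e1 a) _ (by simp) _ (by simp),
    hk _ (h.e0 a true) _ (by simp) _ (by simp)]
  group

end Lp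

section Bouquet

variable {ι : Type} [DecidableEq ι]

/-- The oriented edges of the bouquet. -/
def BE (ι : Type) : Set (Option (ι × Bool) × Option (ι × Bool)) :=
  {e | ∃ i, e = (none, some (i, false)) ∨ e = (some (i, false), some (i, true)) ∨
    e = (some (i, true), none)}

/-- The loops of the bouquet. -/
def bl (ι : Type) (i : ι) (ε : Bool) : Option (ι × Bool) := some (i, ε)

theorem finite_BE [Finite ι] : (BE ι).Finite := Set.toFinite _

theorem BE_ne : ∀ e ∈ BE ι, e.1 ≠ e.2 := by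
  rintro _ ⟨i, rfl | rfl | rfl⟩ <;> simp

theorem BE_asymm : ∀ e ∈ BE ι, (e.2, e.1) ∉ BE ι := by
  rintro _ ⟨i, rfl | rfl | rfl⟩ ⟨j, h | h | h⟩ <;> simp at h

theorem BE1 (i : ι) : (none, bl ι i false) ∈ BE ι := ⟨i, Or.inl rfl⟩
theorem BE2 (i : ι) : (bl ι i false, bl ι i true) ∈ BE ι := ⟨i, Or.inr (Or.inl rfl)⟩
theorem BE3 (i : ι) : (bl ι i true, none) ∈ BE ι := ⟨i, Or.inr (Or.inr rfl)⟩

theorem mem_Gr {Y : Type} [DecidableEq Y] {Ed : Set (Y × Y)} {a b : Y} (h : (a, b) ∈ Ed) :
    {a, b} ∈ Gr Ed := ⟨_, h, subset_rfl⟩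

theorem Tl_bq [Nonempty ι] : Tl (Gr (BE ι)) none (bl ι) where
  e0 a ε := by
    cases ε
    · exact mem_Gr (BE1 a)
    · rw [Finset.pair_comm]; exact mem_Gr (BE3 a)
  e1 a := mem_Gr (BE2 a)
  n0 a ε := by simp [bl]
  n1 a := by simp [bl]
  b := Down_Gr _ _ (mem_Gr (BE1 (Classical.arbitrary ι))) _ (by simp)

theorem Conn_bq : Conn (Gr (BE ι)) none := by
  intro P h0 hP a _
  rcases a with _ | ⟨i, _ | _⟩
  · exact h0
  · exact hP _ _ (mem_Gr (BE1 i)) h0
  · exact hP _ _ (by rw [Finset.pair_comm]; exact mem_Gr (BE3 i)) h0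

variable {G : Type} [Group G]

theorem cob_bq {g : Option (ι × Bool) → Option (ι × Bool) → G} (hg : Coc (Gr (BE ι)) g)
    (h : ∀ i, tg g none (bl ι) i = 1) : Cob (Gr (BE ι)) g := by
  let k : Option (ι × Bool) → G := fun a => match a with
    | none => 1
    | some x => g none (some x)
  refine ⟨k, ?_⟩
  rintro ξ ⟨e, he, hξ⟩ u hu v hv
  suffices H : ∀ u ∈ ({e.1, e.2} : Finset _), ∀ v ∈ ({e.1, e.2} : Finset _), k u * g u v = k v by
    rw [← H u (hξ hu) v (hξ hv)]; group
  have m : {e.1, e.2} ∈ Gr (BE ι) := mem_Gr he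
  refine good_of_base hg m (a := e.1) (by simp) ?_
  simp only [Finset.mem_insert, Finset.mem_singleton]
  rintro b (rfl | rfl)
  · rw [hg.self m (by simp), mul_one]
  · obtain ⟨i, rfl | rfl | rfl⟩ := he
    · simp [k]
    · have h1 := h i
      have h2 := hg.inv (mem_Gr (BE3 i)) (a := none) (b := bl ι i true) (by simp) (by simp)
      unfold tg at h1
      rw [h2] at h1
      exact mul_inv_eq_one.1 h1
    · have h2 := hg.inv (mem_Gr (BE3 i)) (a := none) (b := bl ι i true) (by simp) (by simp)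
      simp only [bl] at h2
      simp [h2, k]

/-- The cochain on the bouquet with prescribed holonomies. -/
def bc (t : ι → G) : Option (ι × Bool) → Option (ι × Bool) → G
  | none, some (i, false) => t i
  | some (i, false), none => (t i)⁻¹
  | _, _ => 1

theorem bc_anti (t : ι → G) (a b : Option (ι × Bool)) : bc t b a = (bc t a b)⁻¹ := by
  rcases a with _ | ⟨i, _ | _⟩ <;> rcases b with _ | ⟨j, _ | _⟩ <;> simp [bc]

theorem bc_self (t : ι → G) (a : Option (ι × Bool)) : bc t a a = 1 := by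
  rcases a with _ | ⟨i, _ | _⟩ <;> simp [bc]

theorem bc_tg (t : ι → G) : tg (bc t) none (bl ι) = t := by
  funext i; simp [tg, bc, bl]

theorem bc_coc (t : ι → G) : Coc (Gr (BE ι)) (bc t) := by
  rintro ξ ⟨e, -, hξ⟩
  exact coc3 (a := e.1) (b := e.2) (d := e.2) (bc_self t _) (bc_self t _) (bc_self t _)
    (bc_anti t _ _) (bc_anti t _ _) (bc_anti t _ _) (by rw [bc_self, mul_one])
    (hξ.trans (by simp))

/-- The vertices of the presentation complex. -/
abbrev VA (ι : Type) : Type := Option (ι × Bool) ⊕ (ι × Option ℕ)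

/-- The presentation complex of a balanced presentation. -/
def AA (s : ι → List (ι × Bool)) : Set (Finset (VA ι)) :=
  att (Gr (BE ι)) (fun i => lp none (bl ι) (s i)) fun i => 3 * (s i).length

/-- Each relator is congruent to its generator modulo commutators. -/
def Perf (s : ι → List (ι × Bool)) : Prop :=
  ∀ i, FreeGroup.mk (s i) * (FreeGroup.of i)⁻¹ ∈ commutator (FreeGroup ι)

variable {s : ι → List (ι × Bool)}

theorem Perf.eq (hs : Perf s) (φ : FreeGroup ι →* G) (hc : ∀ x y, Commute (φ x) (φ y)) (i : ι) :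
    φ (FreeGroup.mk (s i)) = φ (FreeGroup.of i) := by
  have : commutator (FreeGroup ι) ≤ φ.ker := by
    rw [commutator, Subgroup.commutator_le]
    intro x _ y _
    rw [MonoidHom.mem_ker, map_commutatorElement, commutatorElement_eq_one_iff_commute]
    exact hc x y
  have h := this (hs i)
  rw [MonoidHom.mem_ker, map_mul, map_inv] at h
  exact mul_inv_eq_one.1 h

theorem Down_AA : Down (AA s) := Down_att (Down_Gr _)

theorem finite_AA [Finite ι] : (AA s).Finite := finite_att (finite_Gr finite_BE)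

theorem card_AA : ∀ ξ ∈ AA s, ξ.card ≤ 3 :=
  card_att le_rfl fun _ h => (card_Gr h).trans (by norm_num)

variable [Nonempty ι]

theorem loops_AA : Loops (Gr (BE ι)) (fun i => lp none (bl ι) (s i)) fun i => 3 * (s i).length :=
  Tl_bq.loops s

theorem Conn_AA : Conn (AA s) (.inl none) := Conn_att (Down_Gr _) loops_AA Conn_bq

theorem Tl_AA : Tl (AA s) (.inl none) fun i ε => .inl (bl ι i ε) := Tl_bq.att

theorem rel_AA {g : VA ι → VA ι → G} (hg : Coc (AA s) g) (i : ι) :
    FreeGroup.lift (tg g (.inl none) fun i ε => .inl (bl ι i ε)) (FreeGroup.mk (s i)) = 1 := by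
  have h1 := hg.hol_eq_one loops_AA i
  rw [hg.restrict.hol_lp Tl_bq] at h1
  exact h1

theorem cob_AA {g : VA ι → VA ι → G} (hg : Coc (AA s) g)
    (h : ∀ i, tg g (.inl none) (fun i ε => .inl (bl ι i ε)) i = 1) : Cob (AA s) g :=
  Cob.att loops_AA hg (cob_bq hg.restrict h)

theorem H1_AA (hs : Perf s) : H1 (AA s) := by
  intro C _ g hg
  refine cob_AA hg fun i => ?_
  have h1 := rel_AA hg i
  rwa [hs.eq _ (fun _ _ => Commute.all _ _), FreeGroup.lift_apply_of] at h1

theorem H2_AA (hs : Perf s) : H2 (AA s) := by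
  intro C _ o
  obtain ⟨O, hO⟩ := solve_att (loops_AA (s := s)) o
  obtain ⟨c, c1, -, c3⟩ := hO (bc O) (bc_anti O) (fun i => by
    rw [(bc_coc O).hol_lp Tl_bq, hs.eq _ (fun _ _ => Commute.all _ _), FreeGroup.lift_apply_of, bc_tg])
  refine ⟨c, c1, fun ξ hξ h3 => c3 ξ hξ ?_ h3⟩
  rintro ⟨η, hη, rfl⟩
  have := (Finset.card_image_le (s := η) (f := (Sum.inl : _ → VA ι))).trans (card_Gr hη)
  omega

theorem coc_AA (φ : FreeGroup ι →* G) (h : ∀ i, φ (FreeGroup.mk (s i)) = 1) :
    ∃ g : VA ι → VA ι → G, Coc (AA s) g ∧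
      ∀ i, tg g (.inl none) (fun i ε => .inl (bl ι i ε)) i = φ (FreeGroup.of i) := by
  have e : FreeGroup.lift (fun i => φ (FreeGroup.of i)) = φ := by ext i; simp
  obtain ⟨g, g1, g2⟩ := Coc.extend (loops_AA (s := s)) (bc_coc fun i => φ (FreeGroup.of i))
    (fun i => by rw [(bc_coc _).hol_lp Tl_bq, bc_tg, e, h])
  refine ⟨g, g1, fun i => ?_⟩
  have := congrFun (bc_tg fun i => φ (FreeGroup.of i)) i
  rw [← this]
  simp only [tg, g2]

end Bouquet

end H432Z
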